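import Mathlib

set_option autoImplicit false

/-!
# MP_475aca_co, part (M), M3: two involutions without fixed points have a common proper colouring
-/

namespace BP2

open Function

theorem two_color {β : Type*} [Finite β] {f g : β → β} (hf : Involutive f) (hg : Involutive g)
    (hf' : ∀ x, f x ≠ x) (hg' : ∀ x, g x ≠ x) :
    ∃ c : β → Bool, (∀ x, c (f x) = !c x) ∧ ∀ x, c (g x) = !c x := by
  classical
  have := Fintype.ofFinite β
  -- the permutation `φ = f ∘ g`
  let F : Equiv.Perm β := hf.toPerm
  let Gp : Equiv.Perm β := hg.toPerm
  set φ : Equiv.Perm β := F * Gp with hφ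
  have hFF : F * F = 1 := by
    ext x
    exact hf x
  have hGG : Gp * Gp = 1 := by
    ext x
    exact hg x
  have hFi : F⁻¹ = F := inv_eq_of_mul_eq_one_left hFF
  have hGi : Gp⁻¹ = Gp := inv_eq_of_mul_eq_one_left hGG
  have hconj : ∀ k : ℤ, F * φ ^ k = φ ^ (-k) * F := by
    have h1 : F * φ * F⁻¹ = φ⁻¹ := by
      rw [hφ, mul_inv_rev, hFi, hGi, ← mul_assoc, hFF, one_mul]
    intro k
    have h2 : F * φ ^ k * F⁻¹ = (F * φ * F⁻¹) ^ k := (conj_zpow).symm
    rw [h1, inv_zpow'] at h2
    rw [← h2, mul_assoc, inv_mul_cancel, mul_one]
  have hgf : Gp = F * φ := by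
    rw [hφ, ← mul_assoc, hFF, one_mul]
  -- `x` and `f x` are in different cycles
  have hne : ∀ x, ¬ φ.SameCycle x (f x) := by
    rintro x ⟨k, hk⟩
    rcases Int.even_or_odd' k with ⟨j, rfl | rfl⟩
    · refine hf' ((φ ^ j) x) ?_
      show F ((φ ^ j) x) = _
      rw [← Equiv.Perm.mul_apply, hconj, Equiv.Perm.mul_apply]
      show (φ ^ (-j)) (f x) = _
      rw [← hk, ← Equiv.Perm.mul_apply, ← zpow_add]
      congr 2
      ring
    · refine hg' ((φ ^ j) x) ?_
      show Gp ((φ ^ j) x) = _
      have e1 : Gp * φ ^ j = φ ^ (-(j + 1)) * F := by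
        rw [hgf, mul_assoc, show φ * φ ^ j = φ ^ (j + 1) by rw [add_comm, zpow_one_add], hconj]
      rw [← Equiv.Perm.mul_apply, e1, Equiv.Perm.mul_apply]
      show (φ ^ (-(j + 1))) (f x) = _
      rw [← hk, ← Equiv.Perm.mul_apply, ← zpow_add]
      congr 2
      ring
  let S := Equiv.Perm.SameCycle.setoid φ
  let e : Quotient S ≃ Fin (Fintype.card (Quotient S)) := Fintype.equivFin _
  let r : β → Fin (Fintype.card (Quotient S)) := fun x => e (Quotient.mk S x)
  have hr : ∀ x y, r x = r y ↔ φ.SameCycle x y := by
    intro x y
    show e _ = e _ ↔ _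
    rw [e.apply_eq_iff_eq, Quotient.eq]
    exact Iff.rfl
  have hrne : ∀ x, r x ≠ r (f x) := fun x h => hne x ((hr _ _).1 h)
  have hc1 : ∀ x, decide (r (f x) < r (f (f x))) = !decide (r x < r (f x)) := by
    intro x
    rw [hf x]
    rcases lt_or_gt_of_ne (hrne x) with h | h
    · simp [h, h.le]
    · simp [h, h.le]
  refine ⟨fun x => decide (r x < r (f x)), hc1, fun x => ?_⟩
  have e1 : g x = f (φ x) := by
    show _ = f (f (g x))
    rw [hf]
  have e2 : r (g x) = r (f x) := by
    rw [hr, e1]
    -- f (φ x) and f x
    refine ⟨1, ?_⟩
    have := congrArg (fun p : Equiv.Perm β => p x) (hconj 1)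
    simp only [Equiv.Perm.mul_apply, zpow_one, zpow_neg] at this
    have h2 : f (φ x) = φ⁻¹ (f x) := this
    rw [h2, zpow_one]
    simp
  have e3 : r (f (g x)) = r (f (f x)) := by
    rw [e1, hf, hf, hr]
    exact ⟨-1, by simp⟩
  show decide (r (g x) < r (f (g x))) = _
  rw [e2, e3]
  exact hc1 x

/-- two involutions, each with exactly one fixed point: a colouring which is proper for both, the
fixed point `t` of the first has the colour `true` -/
theorem two_color' {β : Type*} [Finite β] {f g : β → β} (hf : Involutive f) (hg : Involutive g)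
    {t T : β} (hf' : ∀ x, f x = x ↔ x = t) (hg' : ∀ x, g x = x ↔ x = T) :
    ∃ c : β → Bool, (∀ x, f x ≠ x → c (f x) = !c x) ∧ (∀ x, g x ≠ x → c (g x) = !c x) ∧
      c t = true := by
  classical
  let f' : Option β → Option β := fun o =>
    match o with
    | none => some t
    | some x => if x = t then none else some (f x)
  let g' : Option β → Option β := fun o =>
    match o with
    | none => some T
    | some x => if x = T then none else some (g x)
  have key : ∀ (h : β → β) (s : β) (hh : Involutive h) (hs : ∀ x, h x = x ↔ x = s),
      let h' : Option β → Option β := fun o =>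
        match o with
        | none => some s
        | some x => if x = s then none else some (h x)
      Involutive h' ∧ ∀ x, h' x ≠ x := by
    intro h s hh hs h'
    constructor
    · rintro (_ | x)
      · show (if s = s then none else some (h s)) = none
        simp
      · show h' (if x = s then none else some (h x)) = some x
        by_cases hx : x = s
        · rw [if_pos hx, hx]
        · rw [if_neg hx]
          show (if h x = s then none else some (h (h x))) = some x
          have : h x ≠ s := by
            intro h2
            have h3 : h (h x) = h x := (hs _).2 h2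
            rw [hh] at h3
            exact hx ((hs x).1 h3.symm)
          rw [if_neg this, hh]
    · rintro (_ | x)
      · simp [h']
      · show (if x = s then none else some (h x)) ≠ some x
        by_cases hx : x = s
        · simp [hx]
        · rw [if_neg hx]
          intro h2
          exact hx ((hs x).1 (Option.some.inj h2))
  obtain ⟨c, hc1, hc2⟩ := two_color (key f t hf hf').1 (key g T hg hg').1 (key f t hf hf').2
    (key g T hg hg').2
  have h1 : ∀ x, f x ≠ x → c (some (f x)) = !c (some x) := by
    intro x hx
    have := hc1 (some x)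
    have hne : x ≠ t := fun h => hx ((hf' x).2 h)
    simp only [if_neg hne] at this
    exact this
  have h2 : ∀ x, g x ≠ x → c (some (g x)) = !c (some x) := by
    intro x hx
    have := hc2 (some x)
    have hne : x ≠ T := fun h => hx ((hg' x).2 h)
    simp only [if_neg hne] at this
    exact this
  refine ⟨fun x => (c (some x) == c (some t)), ?_, ?_, by simp⟩
  · intro x hx
    have := h1 x hx
    show (c (some (f x)) == c (some t)) = !(c (some x) == c (some t))
    rw [this]
    cases c (some x) <;> cases c (some t) <;> rfl
  · intro x hx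
    have := h2 x hx
    show (c (some (g x)) == c (some t)) = !(c (some x) == c (some t))
    rw [this]
    cases c (some x) <;> cases c (some t) <;> rfl

end BP2
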