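import Pool.Agent.BP2.S.Core
import Pool.Agent.BP2.MHyp

set_option autoImplicit false

/-!
# MP_475aca_co, part (M): completion of a matching to an arrangement

`K` rigid adjacencies without circles, `Y` an involution which contains `K`.  Merging the
components of `E`, `Y` one after another with the component of the floor gives an arrangement `X`
which contains `K` and differs from `Y` at most at `3 #circles + #loose labels of Y` labels.
-/

namespace BP2

open Function

variable {L : Type*}

/-- the component of `x` is a circle (in the language of closed sets) -/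
def CCirc (E Y : L → L) (x : L) : Prop := ∀ y, Conn E Y x y → E y ≠ y ∧ Y y ≠ y

theorem cc_K_fix {K Y : L → L} (hK : Involutive K) (hKY : ∀ z, K z ≠ z → Y z = K z) {z : L}
    (hz : K z = z) (hY : Involutive Y) : K (Y z) = Y z := by
  by_contra h
  have h1 := hKY _ h
  rw [hY] at h1
  have h2 := congrArg K h1
  rw [hK] at h2
  rw [hz] at h2
  exact h (by rw [← h2, hz])

section fin
variable [Fintype L]

/-- one component only -/
theorem cc_arr {E Y : L → L} (hE : IsEl E) (hY : Involutive Y) (hc : ∀ x y, Conn E Y x y) :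
    IsArr E Y := by
  refine ⟨hY, ?_, hc⟩
  obtain ⟨f, hf, hf'⟩ := hE.floor
  have h1 : Con1 E Y Set.univ := by
    refine ⟨cl_univ E Y, ⟨f, trivial⟩, ?_⟩
    intro D _ hD hcl
    obtain ⟨d, hd⟩ := hD
    exact Set.eq_univ_of_forall fun x => hc d x D hcl hd
  have h2 := ends_le_two hE.invol hY h1
  have h3 := two_le_ends hE.invol hY (cl_univ E Y) (x := f) trivial (Or.inl hf)
  have h4 : {x | x ∈ (Set.univ : Set L) ∧ E x = x} = {f} := by
    ext x
    constructor
    · rintro ⟨_, h⟩
      exact hf' x h
    · rintro rfl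
      exact ⟨trivial, hf⟩
  unfold ends at h2 h3
  rw [h4, Set.ncard_singleton] at h2 h3
  have h5 : {x | x ∈ (Set.univ : Set L) ∧ Y x = x}.ncard = 1 := by omega
  obtain ⟨t, ht⟩ := Set.ncard_eq_one.1 h5
  refine ⟨t, ?_, ?_⟩
  · have : t ∈ {x | x ∈ (Set.univ : Set L) ∧ Y x = x} := by rw [ht]; rfl
    exact this.2
  · intro y hy
    have : y ∈ {x | x ∈ (Set.univ : Set L) ∧ Y x = x} := ⟨trivial, hy⟩
    rw [ht] at this
    exact this

/-- the top of the component of the floor -/
theorem cc_top {E Y : L → L} (hE : IsEl E) (hY : Involutive Y) {f : L} (hf : E f = f) :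
    ∃ t, Conn E Y f t ∧ Y t = t := by
  have h1 := bd_cl E Y f
  have h2 := even_ends hE.invol hY h1
  obtain ⟨f', hf', hu⟩ := hE.floor
  have hff : f = f' := hu f hf
  subst hff
  have h4 : {x | x ∈ bd E Y f ∧ E x = x} = {f} := by
    ext x
    constructor
    · rintro ⟨_, h⟩
      exact hu x h
    · rintro rfl
      exact ⟨mem_bd_self E Y x, hf⟩
  unfold ends at h2
  rw [h4, Set.ncard_singleton] at h2
  have h5 : 0 < {x | x ∈ bd E Y f ∧ Y x = x}.ncard := by
    rw [Nat.even_iff] at h2
    omega
  obtain ⟨t, ht⟩ := (Set.ncard_pos (Set.toFinite _)).1 h5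
  exact ⟨t, ht.1, ht.2⟩

theorem complete_aux (N : ℕ) : ∀ {E K Y : L → L}, IsEl E → Involutive K → Acyc E K →
    Involutive Y → (∀ z, K z ≠ z → Y z = K z) → ∀ f, E f = f →
    {x | ¬ Conn E Y f x}.ncard = N →
    ∃ (X : L → L) (Z : Set L), IsArr E X ∧ (∀ z, K z ≠ z → X z = K z) ∧
      (∀ z ∈ Z, K z = z ∧ CCirc E Y z) ∧
      (∀ z ∈ Z, ∀ z' ∈ Z, Conn E Y z z' → z = z') ∧
      {x | X x ≠ Y x}.ncard ≤ 3 * Z.ncard + {x | Y x = x}.ncard := by
  induction N using Nat.strong_induction_on with
  | _ N ih =>
  intro E K Y hE hK hac hY hKY f hf hN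
  have hEi := hE.invol
  by_cases hall : ∀ x, Conn E Y f x
  · refine ⟨Y, ∅, cc_arr hE hY fun x y => ?_, hKY, by simp, by simp, by simp⟩
    exact ((hall x).symm hEi hY).trans (hall y)
  push Not at hall
  obtain ⟨y, hy⟩ := hall
  obtain ⟨t, hft, ht⟩ := cc_top hE hY hf
  have hKt : K t = t := by
    by_contra h
    exact h (by rw [← hKY t h, ht])
  have hDcl := bd_cl E Y y
  have hCcl := bd_cl E Y f
  have hCD : ∀ x, x ∈ bd E Y y → x ∉ bd E Y f := by
    intro x hx hx'
    exact hy (Conn.trans hx' (Conn.symm hEi hY hx))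
  have hEfix : ∀ x, E x = x → x = f := by
    obtain ⟨f', hf', hu⟩ := hE.floor
    intro x hx
    rw [hu x hx, hu f hf]
  by_cases hcase : ∃ u ∈ bd E Y y, Y u = u
  · -- another path
    obtain ⟨u, huD, hu⟩ := hcase
    have hKu : K u = u := by
      by_contra h
      exact h (by rw [← hKY u h, hu])
    have htu : u ≠ t := by
      rintro rfl
      exact hCD u huD hft
    set Y' := join Y t u with hY'
    have hY'i : Involutive Y' := join_invol hY ht hu
    have hY't : Y' t = u := join_fst Y t u
    have hY'u : Y' u = t := join_snd Y t u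
    have hY'o : ∀ x, x ≠ t → x ≠ u → Y' x = Y x := fun x h h' => join_of_ne Y h h'
    have hKY' : ∀ z, K z ≠ z → Y' z = K z := by
      intro z hz
      rw [hY'o z (fun h => hz (by rw [h, hKt])) (fun h => hz (by rw [h, hKu]))]
      exact hKY z hz
    have hcl : ∀ C : Set L, Cl E Y' C → Cl E Y C := by
      intro C hC z hz
      refine ⟨(hC z hz).1, ?_⟩
      by_cases h1 : z = t
      · rw [h1, ht, ← h1]; exact hz
      by_cases h2 : z = u
      · rw [h2, hu, ← h2]; exact hz
      rw [← hY'o z h1 h2]
      exact (hC z hz).2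
    have hconn : ∀ a b, Conn E Y a b → Conn E Y' a b := fun a b h C hC ha => h C (hcl C hC) ha
    have hfu : Conn E Y' f u := by
      intro C hC hfC
      have h1 : t ∈ C := hft C (hcl C hC) hfC
      rw [← hY't]
      exact (hC t h1).2
    have hlt : {x | ¬ Conn E Y' f x}.ncard < N := by
      rw [← hN]
      refine Set.ncard_lt_ncard ?_ (Set.toFinite _)
      refine ⟨fun x hx h => hx (hconn _ _ h), fun h => ?_⟩
      exact h (show u ∈ {x | ¬ Conn E Y f x} from fun h' => hCD u huD h') hfu
    obtain ⟨X, Z, hX, hKX, hZ, hZd, hcount⟩ := ih _ hlt hE hK hac hY'i hKY' f hf rfl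
    have hnot : ∀ z ∈ Z, ∀ x, Conn E Y' z x → x ≠ t ∧ x ≠ u := by
      intro z hz x hx
      have hfx : ¬ Conn E Y' z f := fun h => ((hZ z hz).2 f h).1 hf
      constructor
      · rintro rfl
        exact hfx (hx.trans (Conn.symm hEi hY'i (hconn _ _ hft)))
      · rintro rfl
        exact hfx (hx.trans (Conn.symm hEi hY'i hfu))
    refine ⟨X, Z, hX, hKX, ?_, ?_, ?_⟩
    · intro z hz
      refine ⟨(hZ z hz).1, fun x hx => ?_⟩
      have h1 := hconn _ _ hx
      obtain ⟨h2, h3⟩ := (hZ z hz).2 x h1
      obtain ⟨h4, h5⟩ := hnot z hz x h1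
      rw [hY'o x h4 h5] at h3
      exact ⟨h2, h3⟩
    · intro z hz z' hz' h
      exact hZd z hz z' hz' (hconn _ _ h)
    · have h1 : {x | X x ≠ Y x} ⊆ {x | X x ≠ Y' x} ∪ {t, u} := by
        intro x hx
        by_cases h1 : x = t
        · exact Or.inr (Or.inl h1)
        by_cases h2 : x = u
        · exact Or.inr (Or.inr h2)
        refine Or.inl ?_
        show X x ≠ Y' x
        rw [hY'o x h1 h2]
        exact hx
      have h2 : {x | Y x = x} = {x | Y' x = x} ∪ {t, u} := by
        ext x
        constructor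
        · intro hx
          by_cases h1 : x = t
          · exact Or.inr (Or.inl h1)
          by_cases h2 : x = u
          · exact Or.inr (Or.inr h2)
          refine Or.inl ?_
          show Y' x = x
          rw [hY'o x h1 h2]
          exact hx
        · rintro (hx | hx | hx)
          · have h1 : x ≠ t := by
              rintro rfl
              have : Y' x = x := hx
              rw [hY't] at this
              exact htu this
            have h2 : x ≠ u := by
              rintro rfl
              have : Y' x = x := hx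
              rw [hY'u] at this
              exact htu this.symm
            show Y x = x
            rw [← hY'o x h1 h2]
            exact hx
          · show Y x = x
            rw [hx, ht]
          · show Y x = x
            rw [hx, hu]
      have h3 : Disjoint {x | Y' x = x} {t, u} := by
        rw [Set.disjoint_left]
        rintro x hx (hx' | hx')
        · have : Y' x = x := hx
          rw [hx', hY't] at this
          exact htu this
        · have : Y' x = x := hx
          rw [hx', hY'u] at this
          exact htu this.symm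
      have h4 := Set.ncard_le_ncard h1 (Set.toFinite _)
      have h5 := Set.ncard_union_le {x | X x ≠ Y' x} {t, u}
      have h6 : ({t, u} : Set L).ncard = 2 := Set.ncard_pair htu.symm
      rw [h2, Set.ncard_union_eq h3 (Set.toFinite _) (Set.toFinite _)]
      omega
  · -- a circle
    push Not at hcase
    have hKD : Cl E K (bd E Y y) := by
      intro z hz
      refine ⟨(hDcl z hz).1, ?_⟩
      by_cases h : K z = z
      · rw [h]; exact hz
      · rw [← hKY z h]; exact (hDcl z hz).2
    obtain ⟨z, hzD, hzK⟩ := hac _ hKD ⟨y, mem_bd_self E Y y⟩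
    have hDE : ∀ x ∈ bd E Y y, E x ≠ x := by
      intro x hx h
      have := hEfix x h
      subst this
      exact hCD x hx (mem_bd_self E Y x)
    have hKz : K z = z := by
      rcases hzK with h | h
      · exact absurd h (hDE z hzD)
      · exact h
    set v := Y z with hv
    have hvD : v ∈ bd E Y y := (hDcl z hzD).2
    have hvz : v ≠ z := hcase z hzD
    have hKv : K v = v := cc_K_fix hK hKY hKz hY
    have hYv : Y v = z := hY z
    have htz : t ≠ z := by
      rintro rfl
      exact hCD t hzD hft
    have htv : t ≠ v := by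
      intro h
      exact hCD v hvD (h ▸ hft)
    set Y0 := cut Y z with hY0
    have hY0i : Involutive Y0 := cut_invol hY z
    have hY0z : Y0 z = z := cut_self Y z
    have hY0v : Y0 v = v := cut_mate Y z
    have hY0o : ∀ x, x ≠ z → x ≠ v → Y0 x = Y x := fun x h h' => cut_of_ne Y h h'
    have hY0t : Y0 t = t := cut_fix ht
    set Y' := join Y0 t z with hY'
    have hY'i : Involutive Y' := join_invol hY0i hY0t hY0z
    have hY't : Y' t = z := join_fst Y0 t z
    have hY'z : Y' z = t := join_snd Y0 t z
    have hY'v : Y' v = v := by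
      rw [hY', join_of_ne Y0 htv.symm hvz]
      exact hY0v
    have hY'o : ∀ x, x ≠ t → x ≠ z → x ≠ v → Y' x = Y x := by
      intro x h1 h2 h3
      rw [hY', join_of_ne Y0 h1 h2]
      exact hY0o x h2 h3
    have hKY' : ∀ z, K z ≠ z → Y' z = K z := by
      intro w hw
      rw [hY'o w (fun h => hw (by rw [h, hKt])) (fun h => hw (by rw [h, hKz]))
        (fun h => hw (by rw [h, hKv]))]
      exact hKY w hw
    -- a set closed under `E`, `Y0` inside the circle which contains `z` contains `v`
    have hzv : ∀ C : Set L, Cl E Y0 C → C ⊆ bd E Y y → z ∈ C → v ∈ C := by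
      intro C hC hCs hzC
      by_contra hvC
      have h1 := even_ends hEi hY0i hC
      have h2 : {x | x ∈ C ∧ E x = x} = ∅ := by
        rw [Set.eq_empty_iff_forall_notMem]
        rintro x ⟨hx, hx'⟩
        exact hDE x (hCs hx) hx'
      have h3 : {x | x ∈ C ∧ Y0 x = x} = {z} := by
        ext x
        constructor
        · rintro ⟨hx, hx'⟩
          by_contra hxz
          have hxv : x ≠ v := by rintro rfl; exact hvC hx
          rw [hY0o x hxz hxv] at hx'
          exact hcase x (hCs hx) hx'
        · rintro rfl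
          exact ⟨hzC, hY0z⟩
      unfold ends at h1
      rw [h2, h3, Set.ncard_empty, Set.ncard_singleton] at h1
      exact absurd h1 (by decide)
    have hfC : ∀ C : Set L, Cl E Y' C → f ∈ C → ∀ x, x ∈ bd E Y f → x ∈ C := by
      intro C hC hfC x hx
      have hcl : Cl E Y (C ∩ bd E Y f) := by
        intro w hw
        refine ⟨⟨(hC w hw.1).1, (hCcl w hw.2).1⟩, ⟨?_, (hCcl w hw.2).2⟩⟩
        by_cases h1 : w = t
        · rw [h1, ht, ← h1]; exact hw.1
        have h2 : w ≠ z := by rintro rfl; exact hCD w hzD hw.2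
        have h3 : w ≠ v := by
          intro h; rw [h] at hw; exact hCD v hvD hw.2
        rw [← hY'o w h1 h2 h3]
        exact (hC w hw.1).2
      exact (hx _ hcl ⟨hfC, mem_bd_self E Y f⟩).1
    have hDC : ∀ C : Set L, Cl E Y' C → f ∈ C → ∀ x, x ∈ bd E Y y → x ∈ C := by
      intro C hC hfC' x hx
      have h1 : t ∈ C := hfC C hC hfC' t hft
      have h2 : z ∈ C := by rw [← hY't]; exact (hC t h1).2
      have hcl0 : Cl E Y0 (C ∩ bd E Y y) := by
        intro w hw
        refine ⟨⟨(hC w hw.1).1, (hDcl w hw.2).1⟩, ?_⟩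
        by_cases h3 : w = z
        · rw [h3, hY0z, ← h3]; exact hw
        by_cases h4 : w = v
        · rw [h4, hY0v, ← h4]; exact hw
        have h5 : w ≠ t := by
          rintro rfl
          exact hCD w hw.2 hft
        refine ⟨?_, ?_⟩
        · rw [hY0o w h3 h4, ← hY'o w h5 h3 h4]
          exact (hC w hw.1).2
        · rw [hY0o w h3 h4]
          exact (hDcl w hw.2).2
      have h6 : v ∈ C ∩ bd E Y y := hzv _ hcl0 (fun _ h => h.2) ⟨h2, hzD⟩
      have hcl : Cl E Y (C ∩ bd E Y y) := by
        intro w hw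
        refine ⟨(hcl0 w hw).1, ?_⟩
        by_cases h3 : w = z
        · rw [h3]; exact h6
        by_cases h4 : w = v
        · rw [h4, hYv]; exact ⟨h2, hzD⟩
        rw [← hY0o w h3 h4]
        exact (hcl0 w hw).2
      have h7 : Conn E Y z x := Conn.trans (Conn.symm hEi hY hzD) hx
      exact (h7 _ hcl ⟨h2, hzD⟩).1
    have hlt : {x | ¬ Conn E Y' f x}.ncard < N := by
      rw [← hN]
      refine Set.ncard_lt_ncard ?_ (Set.toFinite _)
      refine ⟨fun x hx h => hx fun C hC hfC' => hfC C hC hfC' x h, fun h => ?_⟩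
      exact h (show z ∈ {x | ¬ Conn E Y f x} from fun h' => hCD z hzD h')
        (fun C hC hfC' => hDC C hC hfC' z hzD)
    obtain ⟨X, Z, hX, hKX, hZ, hZd, hcount⟩ := ih _ hlt hE hK hac hY'i hKY' f hf rfl
    -- the circles of `Y'` are circles of `Y`
    have hnot : ∀ w ∈ Z, ∀ x, Conn E Y' w x → x ∉ bd E Y f ∧ x ∉ bd E Y y := by
      intro w hw x hx
      have hfx : ¬ Conn E Y' w f := fun h => ((hZ w hw).2 f h).1 hf
      constructor
      · intro h
        exact hfx (hx.trans (Conn.symm hEi hY'i (fun C hC hfC' => hfC C hC hfC' x h)))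
      · intro h
        exact hfx (hx.trans (Conn.symm hEi hY'i (fun C hC hfC' => hDC C hC hfC' x h)))
    have hsame : ∀ w ∈ Z, ∀ x, Conn E Y w x → Conn E Y' w x := by
      intro w hw x hx
      have hcl : Cl E Y (bd E Y' w) := by
        intro a ha
        refine ⟨(bd_cl E Y' w a ha).1, ?_⟩
        obtain ⟨h1, h2⟩ := hnot w hw a ha
        have h3 : a ≠ t := by rintro rfl; exact h1 hft
        have h4 : a ≠ z := by rintro rfl; exact h2 hzD
        have h5 : a ≠ v := by intro h; rw [h] at h2; exact h2 hvD
        rw [← hY'o a h3 h4 h5]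
        exact (bd_cl E Y' w a ha).2
      exact hx _ hcl (mem_bd_self E Y' w)
    have hzZ : z ∉ Z := fun h => (hnot z h z (Conn.refl E Y' z)).2 hzD
    refine ⟨X, insert z Z, hX, hKX, ?_, ?_, ?_⟩
    · rintro w (rfl | hw)
      · refine ⟨hKz, fun x hx => ?_⟩
        have hxD : x ∈ bd E Y y := Conn.trans hzD hx
        exact ⟨hDE x hxD, hcase x hxD⟩
      · refine ⟨(hZ w hw).1, fun x hx => ?_⟩
        have h1 := hsame w hw x hx
        obtain ⟨h2, h3⟩ := (hZ w hw).2 x h1
        obtain ⟨h4, h5⟩ := hnot w hw x h1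
        have h6 : x ≠ t := by rintro rfl; exact h4 hft
        have h7 : x ≠ z := by rintro rfl; exact h5 hzD
        have h8 : x ≠ v := by intro h; rw [h] at h5; exact h5 hvD
        rw [hY'o x h6 h7 h8] at h3
        exact ⟨h2, h3⟩
    · rintro w (rfl | hw) w' (rfl | hw') h
      · rfl
      · exfalso
        exact (hnot w' hw' w' (Conn.refl E Y' w')).2 (Conn.trans hzD h)
      · exfalso
        exact (hnot w hw w (Conn.refl E Y' w)).2 (Conn.trans hzD (Conn.symm hEi hY h))
      · exact hZd w hw w' hw' (hsame w hw w' h)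
    · have h1 : {x | X x ≠ Y x} ⊆ {x | X x ≠ Y' x} ∪ ({t, z} ∪ {v}) := by
        intro x hx
        by_cases h1 : x = t
        · exact Or.inr (Or.inl (Or.inl h1))
        by_cases h2 : x = z
        · exact Or.inr (Or.inl (Or.inr h2))
        by_cases h3 : x = v
        · exact Or.inr (Or.inr h3)
        refine Or.inl ?_
        show X x ≠ Y' x
        rw [hY'o x h1 h2 h3]
        exact hx
      have h2 : {x | Y' x = x} ⊆ ({x | Y x = x} \ {t}) ∪ {v} := by
        intro x hx
        by_cases h3 : x = v
        · exact Or.inr h3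
        have h1 : x ≠ t := by
          rintro rfl
          have : Y' x = x := hx
          rw [hY't] at this
          exact htz this.symm
        have h2 : x ≠ z := by
          rintro rfl
          have : Y' x = x := hx
          rw [hY'z] at this
          exact htz this
        refine Or.inl ⟨?_, h1⟩
        show Y x = x
        rw [← hY'o x h1 h2 h3]
        exact hx
      have h4 := Set.ncard_le_ncard h1 (Set.toFinite _)
      have h5 := Set.ncard_union_le {x | X x ≠ Y' x} ({t, z} ∪ {v})
      have h6 := Set.ncard_union_le ({t, z} : Set L) {v}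
      have h6' : ({t, z} : Set L).ncard = 2 := Set.ncard_pair htz
      have h7 := Set.ncard_le_ncard h2 (Set.toFinite _)
      have h8 := Set.ncard_union_le ({x | Y x = x} \ {t}) {v}
      have h9 : ({x | Y x = x} \ {t}).ncard + 1 = {x | Y x = x}.ncard :=
        Set.ncard_sdiff_singleton_add_one (show t ∈ {x | Y x = x} from ht) (Set.toFinite _)
      rw [Set.ncard_singleton] at h6 h8
      rw [Set.ncard_insert_of_notMem hzZ (Set.toFinite _)]
      omega

/-- completion of a matching to an arrangement -/
theorem complete {E K Y : L → L} (hE : IsEl E) (hK : Involutive K) (hac : Acyc E K)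
    (hY : Involutive Y) (hKY : ∀ z, K z ≠ z → Y z = K z) :
    ∃ (X : L → L) (Z : Set L), IsArr E X ∧ (∀ z, K z ≠ z → X z = K z) ∧
      (∀ z ∈ Z, K z = z ∧ CCirc E Y z) ∧
      (∀ z ∈ Z, ∀ z' ∈ Z, Conn E Y z z' → z = z') ∧
      {x | X x ≠ Y x}.ncard ≤ 3 * Z.ncard + {x | Y x = x}.ncard := by
  obtain ⟨f, hf, -⟩ := hE.floor
  exact complete_aux _ hE hK hac hY hKY f hf rfl

/-- completion, in the form needed by M5 -/
theorem exists_completion {E K Y : L → L} (hE : IsEl E) (hK : Function.Involutive K)
    (hac : Acyc E K) (hY : Function.Involutive Y) (hKY : ∀ z, K z ≠ z → Y z = K z) :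
    ∃ (X : L → L) (Z : Finset L), IsArr E X ∧ (∀ z, K z ≠ z → X z = K z) ∧
      (∀ z ∈ Z, K z = z ∧ Circ E Y z) ∧ (∀ z ∈ Z, ∀ z' ∈ Z, EqC E Y z z' → z = z') ∧
      chg X Y ≤ 3 * Z.card + Nat.card {z // Y z = z} := by
  classical
  obtain ⟨X, Z, hX, hKX, hZ, hZd, hcount⟩ := complete hE hK hac hY hKY
  have hZf : Z.Finite := Set.toFinite Z
  refine ⟨X, hZf.toFinset, hX, hKX, ?_, ?_, ?_⟩
  · intro z hz
    rw [Set.Finite.mem_toFinset] at hz
    exact ⟨(hZ z hz).1, fun y hy => (hZ z hz).2 y ((conn_iff_eqvGen hE.invol hY z y).2 hy)⟩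
  · intro z hz z' hz' h
    rw [Set.Finite.mem_toFinset] at hz hz'
    exact hZd z hz z' hz' ((conn_iff_eqvGen hE.invol hY z z').2 h)
  · have h1 : chg X Y = {x | X x ≠ Y x}.ncard := by
      unfold chg
      rw [Set.ncard_eq_toFinset_card']
      congr 1
      ext x
      simp
    have h2 : hZf.toFinset.card = Z.ncard := (Set.ncard_eq_toFinset_card Z hZf).symm
    have h3 : Nat.card {z // Y z = z} = {x | Y x = x}.ncard := rfl
    rw [h1, h2, h3]
    exact hcount

end fin

end BP2
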