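import Mathlib

set_option autoImplicit false

/-!
# MP_475aca_co, part (M): the entropy of a level

An arrangement is given by its slot map `pos : Lab → Fin n`.  If along every step `a → b` the slot
of `b` is a function of the slot of `a` (steps: `b = E a`, `b = K a` for a rigid adjacency, `(a, b)`
a new adjacency and the transition `θ` read in the slots is fixed), then `pos` is known from the
slots of one named label in every component.
-/

namespace BP2

/-- `pos` is determined by the slots of the named labels `R` -/
theorem card_le_pow_of_step {Lab : Type*} [Fintype Lab] [DecidableEq Lab] {n : ℕ}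
    (R : Finset Lab) (step : Lab → Lab → Prop) (g : Lab → Lab → Fin n → Fin n)
    (hR : ∀ x, ∃ a ∈ R, Relation.ReflTransGen step a x)
    (P : Finset (Lab → Fin n)) (hP : ∀ p ∈ P, ∀ a b, step a b → p b = g a b (p a)) :
    P.card ≤ n ^ R.card := by
  classical
  have hinj : Set.InjOn (fun (p : Lab → Fin n) (a : R) => p a) (P : Set (Lab → Fin n)) := by
    intro p hp q hq h
    funext x
    obtain ⟨a, ha, hax⟩ := hR x
    have h0 : p a = q a := congrFun h ⟨a, ha⟩
    induction hax with
    | refl => exact h0
    | tail _ hbc ih => rw [hP p hp _ _ hbc, hP q hq _ _ hbc, ih]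
  calc P.card = (P.image fun (p : Lab → Fin n) (a : R) => p a).card :=
        (Finset.card_image_of_injOn hinj).symm
    _ ≤ (Finset.univ : Finset (R → Fin n)).card := Finset.card_le_card (Finset.subset_univ _)
    _ = n ^ R.card := by simp

/-- one named label in every component of a forest: `G` is built from the empty graph by adding the
edges of the list `es` one after another, every edge joins two different components. -/
theorem exists_named {V : Type*} [Fintype V] [DecidableEq V] (es : List (V × V)) :
    ∀ (hes : ∀ (l₁ l₂ : List (V × V)) (e : V × V), es = l₁ ++ e :: l₂ →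
      ¬ Relation.ReflTransGen (fun a b => (a, b) ∈ l₁ ∨ (b, a) ∈ l₁) e.1 e.2),
    ∃ R : Finset V, R.card + es.length = Fintype.card V ∧
      ∀ x, ∃! a, a ∈ R ∧ Relation.ReflTransGen (fun a b => (a, b) ∈ es ∨ (b, a) ∈ es) a x := by
  classical
  induction es using List.reverseRecOn with
  | nil =>
    intro _
    refine ⟨Finset.univ, by simp, fun x => ⟨x, ⟨Finset.mem_univ _, .refl⟩, ?_⟩⟩
    rintro y ⟨-, hy⟩
    rcases hy.cases_tail with h | ⟨z, -, h⟩
    · exact h.symm
    · simp at h
  | append_singleton es e ih =>
    intro hes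
    have ih' := ih (fun l₁ l₂ e' h => hes l₁ (l₂ ++ [e]) e' (by rw [h]; simp))
    obtain ⟨R, hR, huniq⟩ := ih'
    have hne := hes es [] e rfl
    set st : V → V → Prop := fun a b => (a, b) ∈ es ∨ (b, a) ∈ es with hst
    set st' : V → V → Prop := fun a b => (a, b) ∈ es ++ [e] ∨ (b, a) ∈ es ++ [e] with hst'
    have hsym : ∀ {a b}, Relation.ReflTransGen st a b → Relation.ReflTransGen st b a := by
      intro a b h
      induction h with
      | refl => exact .refl
      | tail _ h ih => exact (Relation.ReflTransGen.single (r := st) (Or.symm h)).trans ih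
    have hmono : ∀ {a b}, Relation.ReflTransGen st a b → Relation.ReflTransGen st' a b := by
      intro a b h
      refine Relation.ReflTransGen.mono (r := st) (p := st') (fun a b (hab : st a b) => ?_) _ _ h
      rcases hab with h | h
      · exact Or.inl (List.mem_append_left _ h)
      · exact Or.inr (List.mem_append_left _ h)
    obtain ⟨r1, ⟨hr1, hr1e⟩, hu1⟩ := huniq e.1
    obtain ⟨r2, ⟨hr2, hr2e⟩, hu2⟩ := huniq e.2
    have hr12 : r1 ≠ r2 := by
      rintro rfl
      exact hne ((hsym hr1e).trans hr2e)
    -- the component of `a` in the new graph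
    have key : ∀ {a b}, Relation.ReflTransGen st' a b → Relation.ReflTransGen st a b ∨
        (Relation.ReflTransGen st a e.1 ∧ Relation.ReflTransGen st e.2 b) ∨
        (Relation.ReflTransGen st a e.2 ∧ Relation.ReflTransGen st e.1 b) := by
      intro a b h
      induction h with
      | refl => exact Or.inl .refl
      | @tail b c _ hbc ih =>
        have hbc' : st b c ∨ (b = e.1 ∧ c = e.2) ∨ (b = e.2 ∧ c = e.1) := by
          rcases hbc with h | h
          · rcases List.mem_append.1 h with h | h
            · exact Or.inl (Or.inl h)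
            · rw [List.mem_singleton] at h
              exact Or.inr (Or.inl ⟨by rw [← h], by rw [← h]⟩)
          · rcases List.mem_append.1 h with h | h
            · exact Or.inl (Or.inr h)
            · rw [List.mem_singleton] at h
              exact Or.inr (Or.inr ⟨by rw [← h], by rw [← h]⟩)
        rcases hbc' with hs | ⟨rfl, rfl⟩ | ⟨rfl, rfl⟩
        · rcases ih with h | ⟨h1, h2⟩ | ⟨h1, h2⟩
          · exact Or.inl (h.tail hs)
          · exact Or.inr (Or.inl ⟨h1, h2.tail hs⟩)
          · exact Or.inr (Or.inr ⟨h1, h2.tail hs⟩)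
        · rcases ih with h | ⟨h1, h2⟩ | ⟨h1, h2⟩
          · exact Or.inr (Or.inl ⟨h, .refl⟩)
          · exact absurd (hsym h2) hne
          · exact Or.inl h1
        · rcases ih with h | ⟨h1, h2⟩ | ⟨h1, h2⟩
          · exact Or.inr (Or.inr ⟨h, .refl⟩)
          · exact Or.inl h1
          · exact absurd h2 hne
    have he : Relation.ReflTransGen st' e.1 e.2 := .single (Or.inl (by simp))
    have he' : Relation.ReflTransGen st' e.2 e.1 := .single (Or.inr (by simp))
    refine ⟨R.erase r2, ?_, fun x => ?_⟩
    · have := Finset.card_erase_add_one hr2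
      simp only [List.length_append, List.length_singleton]
      omega
    · obtain ⟨r, ⟨hr, hrx⟩, hu⟩ := huniq x
      by_cases hrr : r = r2
      · subst hrr
        refine ⟨r1, ⟨Finset.mem_erase.2 ⟨hr12, hr1⟩,
          (hmono hr1e).trans (he.trans ((hmono (hsym hr2e)).trans (hmono hrx)))⟩, ?_⟩
        rintro y ⟨hy, hyx⟩
        obtain ⟨hyr, hyR⟩ := Finset.mem_erase.1 hy
        rcases key hyx with h | ⟨h1, -⟩ | ⟨h1, -⟩
        · exact absurd (hu y ⟨hyR, h⟩) hyr
        · exact hu1 y ⟨hyR, h1⟩
        · exact absurd (hu2 y ⟨hyR, h1⟩) hyr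
      · refine ⟨r, ⟨Finset.mem_erase.2 ⟨hrr, hr⟩, hmono hrx⟩, ?_⟩
        rintro y ⟨hy, hyx⟩
        obtain ⟨hyr, hyR⟩ := Finset.mem_erase.1 hy
        rcases key hyx with h | ⟨h1, h2⟩ | ⟨h1, h2⟩
        · exact hu y ⟨hyR, h⟩
        · -- `x` is in the component of `e.2`
          exact absurd (hu r2 ⟨hr2, hr2e.trans h2⟩).symm hrr
        · exact absurd (hu2 y ⟨hyR, h1⟩) hyr

end BP2
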