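import Pool.Agent.BP2.M.Sim
import Pool.Agent.BP2.M.Color
import Pool.Agent.BP2.MHyp

set_option autoImplicit false

/-!
# MP_475aca_co, part (M), M3: one far level

`far_cheap` : if the shape of the pair `(X, Y)` is good, then few flips lead from `X` to `Y`.
`far_count` : for a fixed `X` and a fixed set `A` of changed labels, the expensive `Y` are at most
the bad shapes.
-/

namespace BP2

open Finset Function Lt

/-- every missing adjacency costs a bounded number of flips -/
def TrivHypW : Prop :=
  ∀ (L : Type) [Fintype L] (E X Y : L → L), IsEl E → IsArr E X → IsArr E Y →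
    ∃ k ≤ 2 * chg X Y, Reach E k X Y

variable {L : Type*}

lemma labels_stMap {α : Type*} (f : α → L) (s : St α) :
    labels (stMap f s) = (labels s).map f := by
  have : ∀ xs : List (Lt α), (xs.map (Lt.map f)).flatMap Lt.labels =
      (xs.flatMap Lt.labels).map f := by
    intro xs
    induction xs with
    | nil => rfl
    | cons x xs ih =>
      simp only [List.map_cons, List.flatMap_cons, List.map_append, ih]
      congr 1
      cases x <;> rfl
  simp only [labels, stMap, List.map_cons, this]

lemma exists_lift (A : L → Prop) (xs : List (Lt L)) (h : ∀ x ∈ xs.flatMap Lt.labels, A x) :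
    ∃ ys : List (Lt {x // A x}), ys.map (Lt.map Subtype.val) = xs := by
  induction xs with
  | nil => exact ⟨[], rfl⟩
  | cons x xs ih =>
    obtain ⟨ys, hys⟩ := ih fun y hy => h y (by
      rw [List.flatMap_cons]
      exact List.mem_append_right _ hy)
    have hx : ∀ y ∈ x.labels, A y := fun y hy => h y (by
      rw [List.flatMap_cons]
      exact List.mem_append_left _ hy)
    cases x with
    | gap u l =>
      refine ⟨gap ⟨u, hx u (by simp [Lt.labels])⟩ ⟨l, hx l (by simp [Lt.labels])⟩ :: ys, ?_⟩
      simp [hys, Lt.map]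
    | mk a u l b =>
      refine ⟨mk ⟨a, hx a (by simp [Lt.labels])⟩ ⟨u, hx u (by simp [Lt.labels])⟩
        ⟨l, hx l (by simp [Lt.labels])⟩ ⟨b, hx b (by simp [Lt.labels])⟩ :: ys, ?_⟩
      simp [hys, Lt.map]

lemma mem_badShapes {α : Type*} [Fintype α] {ε δ : ℝ} {s : St α} {τ : α → α} :
    τ ∈ badShapes ε δ s ↔ IsShape τ s ∧ ¬ GoodD ε δ s τ := by
  simp [badShapes]

/-- the number of the bad steps does not matter -/
lemma Run.forget {τ : L → L} {W W' : Lt L → Bool} {n g k : ℕ} {s s' : St L}
    (h : Run τ W n g k s s') : ∃ k', Run τ W' n g k' s s' := by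
  induction h with
  | refl s => exact ⟨0, Run.refl s⟩
  | gapW _ hne ih =>
    obtain ⟨k', h'⟩ := ih
    exact ⟨_, Run.gapW h' hne⟩
  | gapG _ he ih =>
    obtain ⟨k', h'⟩ := ih
    exact ⟨_, Run.gapG h' he⟩
  | mkW _ hne ih =>
    obtain ⟨k', h'⟩ := ih
    exact ⟨_, Run.mkW h' hne⟩
  | mkG _ he ih =>
    obtain ⟨k', h'⟩ := ih
    exact ⟨_, Run.mkG h' he⟩
  | dis _ ih =>
    obtain ⟨k', h'⟩ := ih
    exact ⟨_, Run.dis h'⟩

/-- transport, without counting the bad steps -/
lemma Run.map' {α : Type*} {f : α → L} (hf : Function.Injective f) {τ : α → α} {τ' : L → L}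
    (hτ : ∀ x, τ' (f x) = f (τ x)) {W : Lt α → Bool} (W' : Lt L → Bool)
    {n g k : ℕ} {s s' : St α} (h : Run τ W n g k s s') :
    ∃ k', Run τ' W' n g k' (stMap f s) (stMap f s') := by
  obtain ⟨k', h'⟩ := Run.forget (W' := fun x => W' (Lt.map f x)) h
  exact ⟨k', Run.map hf hτ (fun _ => rfl) h'⟩

/-- the letters: the adjacencies whose upper label is in `A` -/
def ltsA (A : L → Prop) [DecidablePred A] (G : List (L × L)) : List (Lt L) :=
  (G.filter fun p => A p.1).map fun p => gap p.1 p.2

lemma ltsA_labels (A : L → Prop) [DecidablePred A] (G : List (L × L)) :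
    (ltsA A G).flatMap Lt.labels = lbG (G.filter fun p => A p.1) := by
  simp only [ltsA, List.flatMap_map, lbG]
  rfl

lemma ltsA_gap (A : L → Prop) [DecidablePred A] (G : List (L × L)) :
    ∀ x ∈ ltsA A G, x.isMk = false := by
  intro x hx
  obtain ⟨p, _, rfl⟩ := List.mem_map.1 hx
  rfl

lemma rz_ltsA {A : L → Prop} [DecidablePred A] {sol : L × L → Prop} {G : List (L × L)}
    (h : ∀ p ∈ G, ¬ A p.1 → sol p) : Rz sol (real0 sol) (ltsA A G) G := by
  induction G with
  | nil => exact Rz.nil
  | cons p G ih =>
    have ih' := ih fun q hq => h q (List.mem_cons_of_mem _ hq)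
    by_cases hp : A p.1
    · have e : ltsA A (p :: G) = gap p.1 p.2 :: ltsA A G := by
        simp [ltsA, hp]
      rw [e, show p :: G = [(p.1, p.2)] ++ G from rfl]
      exact Rz.lt (real0.gap _ _) ih'
    · have e : ltsA A (p :: G) = ltsA A G := by
        simp [ltsA, hp]
      rw [e]
      exact Rz.sol (h p (by simp) hp) ih'

/-- every adjacency is solid or an adjacency of a letter -/
lemma rz_mem {sol : L × L → Prop} {xs : List (Lt L)} {G : List (L × L)}
    (h : Rz sol (real0 sol) xs G) : ∀ p ∈ G, sol p ∨
      (p.1 ∈ xs.flatMap Lt.labels ∧ p.2 ∈ xs.flatMap Lt.labels) := by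
  induction h with
  | nil => simp
  | sol hp _ ih =>
    intro q hq
    rcases List.mem_cons.1 hq with rfl | hq
    · exact Or.inl hp
    · exact ih q hq
  | @lt x r xs G hr _ ih =>
    intro q hq
    rcases List.mem_append.1 hq with hq | hq
    · cases hr with
      | gap u l =>
        simp only [List.mem_cons, List.not_mem_nil, or_false] at hq
        subst hq
        right
        simp [Lt.labels]
      | mk a u l b S hS =>
        simp only [List.mem_cons, List.mem_append, List.not_mem_nil, or_false] at hq
        rcases hq with rfl | hq | rfl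
        · right
          simp [Lt.labels]
        · exact Or.inl (hS q hq)
        · right
          simp [Lt.labels]
    · rcases ih q hq with h | h
      · exact Or.inl h
      · right
        rw [List.flatMap_cons]
        exact ⟨List.mem_append_right _ h.1, List.mem_append_right _ h.2⟩

lemma length_labels_gap {xs : List (Lt L)} (h : ∀ x ∈ xs, x.isMk = false) :
    (xs.flatMap Lt.labels).length = 2 * xs.length := by
  induction xs with
  | nil => rfl
  | cons x xs ih =>
    rw [List.flatMap_cons, List.length_append, ih fun y hy => h y (List.mem_cons_of_mem _ hy)]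
    have := h x (by simp)
    cases x with
    | gap u l =>
      simp [Lt.labels]
      omega
    | mk a u l b => cases this

/-- a run on gaps, then the trivial bound -/
theorem far_run {L : Type} [Fintype L] {E X Y : L → L} (hT : TrivHypW) (hE : IsEl E)
    (hY : IsArr E Y) {t : L} {G : List (L × L)} (hR : RepL E X t G)
    {A : L → Prop} [DecidablePred A] (hA : ∀ p ∈ G, ¬ A p.1 → Y p.1 = p.2)
    {W : Lt L → Bool} {n g k : ℕ} {s' : St L} (hr : Run Y W n g k (t, ltsA A G) s') :
    ∃ k', k' ≤ n + 2 * (2 * s'.2.length + 1) ∧ Reach E k' X Y := by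
  classical
  obtain ⟨G', hf, hm', hz⟩ := Run.rf_gap hY.invol hr (ltsA_gap A G)
    (rz_ltsA (sol := fun p => Y p.1 = p.2) hA)
  obtain ⟨Z, hZ, hreach⟩ := hR.reach hE.invol hf
  have hZa : IsArr E Z := hZ.isArr hE.invol
  have hchg : chg Z Y ≤ 2 * s'.2.length + 1 := by
    have hsub : (univ.filter fun x => Z x ≠ Y x) ⊆ (s'.1 :: s'.2.flatMap Lt.labels).toFinset := by
      intro x hx
      rw [mem_filter] at hx
      rw [List.mem_toFinset]
      have hx' := hZ.all x
      rcases List.mem_cons.1 hx' with rfl | hx'
      · simp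
      · obtain ⟨p, hp, hxp⟩ := mem_lbG.1 hx'
        have hadj := hZ.adj p hp
        rcases rz_mem hz p hp with hsol | hl
        · exfalso
          have hsol' : Y p.1 = p.2 := hsol
          rcases hxp with rfl | rfl
          · exact hx.2 (by rw [hadj.1, hsol'])
          · refine hx.2 ?_
            rw [hadj.2, ← hsol', hY.invol]
        · refine List.mem_cons_of_mem _ ?_
          rcases hxp with rfl | rfl
          · exact hl.1
          · exact hl.2
    calc chg Z Y = (univ.filter fun x => Z x ≠ Y x).card := by
          unfold chg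
          congr
      _ ≤ (s'.1 :: s'.2.flatMap Lt.labels).toFinset.card := card_le_card hsub
      _ ≤ (s'.1 :: s'.2.flatMap Lt.labels).length := List.toFinset_card_le _
      _ = 2 * s'.2.length + 1 := by
          rw [List.length_cons, length_labels_gap hm']
  obtain ⟨k2, hk2, hr2⟩ := hT L E Z Y hE hZa hY
  exact ⟨n + k2, by omega, hreach.trans hr2⟩

open Classical in
/-- the expensive arrangements `Y` with the set `A` of changed labels are at most the bad shapes -/
theorem far_count {L : Type} [Fintype L] {E X : L → L} (hT : TrivHypW) (hE : IsEl E)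
    (hX : IsArr E X) {ε δ : ℝ} (hδ : 0 ≤ δ) {B : ℝ} (hB : 0 ≤ B) (A : Finset L) (M : ℕ)
    (hM : A.card / 2 = M)
    (hD : ∀ (α : Type) [Fintype α] (s : St α), WF s [] → s.2.length = M →
      ((badShapes ε δ s).card : ℝ) ≤ B) :
    (Nat.card {Y : L → L // IsArr E Y ∧ (∀ x, X x ≠ Y x ↔ x ∈ A) ∧
      ¬ ∃ k, Reach E k X Y ∧ (k : ℝ) ≤ (1 + ε) * M + 2 * (2 * (ε * M) + 1)} : ℝ) ≤ B := by
  set BadY := {Y : L → L // IsArr E Y ∧ (∀ x, X x ≠ Y x ↔ x ∈ A) ∧
      ¬ ∃ k, Reach E k X Y ∧ (k : ℝ) ≤ (1 + ε) * M + 2 * (2 * (ε * M) + 1)} with hBadY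
  by_cases hne : Nonempty BadY
  swap
  · have : IsEmpty BadY := not_nonempty_iff.1 hne
    rw [Nat.card_of_isEmpty]
    simpa using hB
  obtain ⟨Y0⟩ := hne
  obtain ⟨t, G, hR⟩ := exists_repL hE hX
  have hXinv := hX.invol
  -- closure
  have clX : ∀ Y : BadY, ∀ x ∈ A, X x ∈ A := by
    rintro ⟨Y, hY, hA, _⟩ x hx
    rw [← hA] at hx ⊢
    rw [hXinv]
    intro h
    exact hx (by
      have := congrArg Y h
      rw [hY.invol] at this
      exact this.symm)
  have hAX := clX Y0
  have clY : ∀ Y : BadY, ∀ x, x = t ∨ x ∈ A → Y.1 x = t ∨ Y.1 x ∈ A := by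
    rintro ⟨Y, hY, hA, _⟩ x hx
    by_cases hxA : x ∈ A
    · right
      rw [← hA] at hxA ⊢
      show X (Y x) ≠ Y (Y x)
      rw [hY.invol]
      intro h
      exact hxA (by
        have := congrArg X h
        rw [hXinv] at this
        exact this.symm)
    · left
      rcases hx with rfl | hx
      · have h1 : X x = Y x := by
          by_contra h
          exact hxA ((hA x).1 h)
        show Y x = x
        rw [← h1]
        exact hR.top
      · exact absurd hx hxA
  -- the labels
  set α := {x : L // x = t ∨ x ∈ A} with hα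
  set AP : L → Prop := fun x => x ∈ A with hAP
  have hlb : ∀ x, x ∈ lbG (G.filter fun p => AP p.1) ↔ x ∈ A ∧ x ≠ t := by
    intro x
    rw [mem_lbG]
    constructor
    · rintro ⟨p, hp, hx⟩
      rw [List.mem_filter] at hp
      have hp2 : p.1 ∈ A := by simpa using hp.2
      have hn := (List.nodup_cons.1 hR.nodup).1
      rcases hx with rfl | rfl
      · exact ⟨hp2, fun h => hn (h ▸ mem_lbG.2 ⟨p, hp.1, Or.inl rfl⟩)⟩
      · refine ⟨?_, fun h => hn (h ▸ mem_lbG.2 ⟨p, hp.1, Or.inr rfl⟩)⟩
        rw [← (hR.adj p hp.1).1]
        exact hAX _ hp2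
    · rintro ⟨hx, hxt⟩
      rcases List.mem_cons.1 (hR.all x) with h | h
      · exact absurd h hxt
      · obtain ⟨p, hp, hxp⟩ := mem_lbG.1 h
        refine ⟨p, ?_, hxp⟩
        rw [List.mem_filter]
        refine ⟨hp, ?_⟩
        rcases hxp with rfl | rfl
        · simpa using hx
        · have := hAX _ hx
          rw [(hR.adj p hp).2] at this
          simpa using this
  have hnd : (t :: lbG (G.filter fun p => AP p.1)).Nodup := by
    refine hR.nodup.sublist ?_
    refine List.Sublist.cons_cons t ?_
    unfold lbG
    exact List.Sublist.flatMap (List.filter_sublist) _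
  obtain ⟨ys, hys⟩ := exists_lift (fun x => x = t ∨ x ∈ A) (ltsA AP G) (by
    intro x hx
    rw [ltsA_labels, hlb] at hx
    exact Or.inr hx.1)
  set s : St α := (⟨t, Or.inl rfl⟩, ys) with hs
  have hsm : stMap Subtype.val s = (t, ltsA AP G) := by
    simp [stMap, hs, hys]
  have hslab : (labels s).map Subtype.val = t :: lbG (G.filter fun p => AP p.1) := by
    rw [← labels_stMap, hsm]
    simp only [labels, ltsA_labels]
  have hWF : WF s [] := by
    constructor
    · simp only [lb, List.flatMap_nil, List.append_nil]
      refine List.Nodup.of_map Subtype.val ?_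
      rw [hslab]
      exact hnd
    · rintro ⟨x, hx⟩
      simp only [lb, List.flatMap_nil, List.append_nil]
      have h1 : x ∈ (labels s).map Subtype.val := by
        rw [hslab, List.mem_cons, hlb]
        by_cases hxt : x = t
        · exact Or.inl hxt
        · rcases hx with hx | hx
          · exact Or.inl hx
          · exact Or.inr ⟨hx, hxt⟩
      obtain ⟨y, hy, hyx⟩ := List.mem_map.1 h1
      have : y = ⟨x, hx⟩ := Subtype.ext hyx
      rwa [this] at hy
  have hgap : ∀ x ∈ s.2, x.isMk = false := by
    intro x hx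
    have h1 : Lt.map Subtype.val x ∈ ltsA AP G := by
      rw [← hys]
      exact List.mem_map.2 ⟨x, hx, rfl⟩
    have h2 := ltsA_gap AP G _ h1
    cases x with
    | gap u l => rfl
    | mk a u l b => cases h2
  -- number of letters
  have hlen : s.2.length = M := by
    have h1 : s.2.length = (G.filter fun p => AP p.1).length := by
      have := congrArg List.length hys
      rw [List.length_map] at this
      show ys.length = _
      rw [this]
      simp [ltsA]
    have h2 : (lbG (G.filter fun p => AP p.1)).length = 2 * s.2.length := by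
      rw [lbG_length, h1]
    have h3 : (lbG (G.filter fun p => AP p.1)).toFinset = A.erase t := by
      ext x
      rw [List.mem_toFinset, hlb, mem_erase]
      tauto
    have h4 := List.toFinset_card_of_nodup (List.nodup_cons.1 hnd).2
    rw [h3, h2] at h4
    by_cases htA : t ∈ A
    · rw [card_erase_of_mem htA] at h4
      have : 0 < A.card := card_pos.2 ⟨t, htA⟩
      omega
    · rw [erase_eq_of_notMem htA] at h4
      omega
  have hb := hD α s hWF hlen
  refine le_trans ?_ hb
  -- the injection
  let Φ : BadY → (α → α) := fun Y x => ⟨Y.1 x.1, clY Y x.1 x.2⟩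
  have hΦinj : Function.Injective Φ := by
    intro Y Y' h
    apply Subtype.ext
    funext x
    by_cases hx : x = t ∨ x ∈ A
    · have := congrFun h ⟨x, hx⟩
      exact congrArg Subtype.val this
    · rw [not_or] at hx
      have h1 : X x = Y.1 x := by
        by_contra hc
        exact hx.2 ((Y.2.2.1 x).1 hc)
      have h2 : X x = Y'.1 x := by
        by_contra hc
        exact hx.2 ((Y'.2.2.1 x).1 hc)
      rw [← h1, ← h2]
  have hΦ : ∀ Y, Φ Y ∈ badShapes ε δ s := by
    intro Y
    obtain ⟨hYa, hYA, hYb⟩ := Y.2
    have hYinv := hYa.invol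
    have hinv : Involutive (Φ Y) := by
      intro x
      apply Subtype.ext
      exact hYinv x.1
    obtain ⟨T, hT1, hT2⟩ := hYa.top
    have hTα : T = t ∨ T ∈ A := by
      by_cases hTA : T ∈ A
      · exact Or.inr hTA
      · left
        have h1 : X T = Y.1 T := by
          by_contra hc
          exact hTA ((hYA T).1 hc)
        rw [hT1] at h1
        exact (hR.fix_iff T).1 h1
    have hfix : ∀ x : α, Φ Y x = x ↔ x = ⟨T, hTα⟩ := by
      intro x
      constructor
      · intro h
        apply Subtype.ext
        exact hT2 _ (congrArg Subtype.val h)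
      · rintro rfl
        apply Subtype.ext
        exact hT1
    have hmk : Mk (Φ Y) s := by
      intro a u l b hx
      have := hgap _ hx
      cases this
    rw [mem_badShapes]
    refine ⟨⟨hinv, ⟨_, (hfix _).2 rfl, fun y hy => (hfix y).1 hy⟩, hmk⟩, ?_⟩
    intro hgood
    apply hYb
    -- the typing
    let μ : α → α := fun x => ⟨X x.1, by
      rcases x.2 with h | h
      · left
        rw [h]
        exact hR.top
      · exact Or.inr (hAX _ h)⟩
    have hμ : Involutive μ := by
      intro x
      apply Subtype.ext
      exact hXinv x.1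
    have hμ' : ∀ x : α, μ x = x ↔ x = ⟨t, Or.inl rfl⟩ := by
      intro x
      constructor
      · intro h
        apply Subtype.ext
        exact (hR.fix_iff _).1 (congrArg Subtype.val h)
      · rintro rfl
        apply Subtype.ext
        exact hR.top
    obtain ⟨c, hc1, hc2, hc3⟩ := two_color' hμ hinv hμ' hfix
    have himp : imp c s = 0 := by
      unfold imp
      have h1 : s.2.countP (fun x => c x.ent == c x.lv) = 0 := by
        rw [List.countP_eq_zero]
        intro x hx
        have h2 := hgap x hx
        have h3 : Lt.map Subtype.val x ∈ ltsA AP G := by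
          rw [← hys]
          exact List.mem_map.2 ⟨x, hx, rfl⟩
        cases x with
        | mk a u l b => cases h2
        | gap u l =>
          obtain ⟨p, hp, hpe⟩ := List.mem_map.1 h3
          rw [List.mem_filter] at hp
          have hul : u.1 = p.1 ∧ l.1 = p.2 := by
            simp only [Lt.map, Lt.gap.injEq] at hpe
            exact ⟨hpe.1.symm, hpe.2.symm⟩
          have h4 : μ u = l := by
            apply Subtype.ext
            show X u.1 = l.1
            rw [hul.1, hul.2]
            exact (hR.adj p hp.1).1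
          have hne2 : μ u ≠ u := by
            rw [h4]
            intro h5
            have h6 := congrArg Subtype.val h5
            rw [hul.1, hul.2] at h6
            exact ne_of_mem_nodup (List.nodup_cons.1 hR.nodup).2 p hp.1 h6.symm
          have := hc1 u hne2
          rw [h4] at this
          simp only [Lt.ent, Lt.lv, this, beq_iff_eq]
          cases c u <;> simp
      rw [h1]
      show 0 + (!c s.1).toNat = 0
      rw [show s.1 = ⟨t, Or.inl rfl⟩ from rfl, hc3]
      rfl
    obtain ⟨n, g, k, s', hrun, hs1, hs2, _⟩ := hgood c hc2 (by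
      rw [himp]
      have : (0 : ℝ) ≤ δ * (s.2.length : ℝ) := by positivity
      simpa using this)
    obtain ⟨k', hrun'⟩ := Run.map' (f := Subtype.val) Subtype.val_injective (τ' := Y.1)
      (fun x => rfl) (fun _ => false) hrun
    rw [hsm] at hrun'
    obtain ⟨k2, hk2, hreach⟩ := far_run hT hE hYa hR (A := AP) (by
      intro p hp hpA
      have h1 : X p.1 = Y.1 p.1 := by
        by_contra hc
        exact hpA ((hYA _).1 hc)
      rw [← h1]
      exact (hR.adj p hp).1) hrun'
    refine ⟨k2, hreach, ?_⟩
    have e1 : (stMap Subtype.val s').2.length = s'.2.length := by simp [stMap]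
    rw [e1] at hk2
    have hk3 : (k2 : ℝ) ≤ n + 2 * (2 * s'.2.length + 1) := by exact_mod_cast hk2
    rw [hlen] at hs1 hs2
    linarith
  have hcard : Nat.card BadY ≤ (badShapes ε δ s).card := by
    have h1 : Function.Injective (fun Y : BadY => (⟨Φ Y, hΦ Y⟩ : badShapes ε δ s)) := by
      intro Y Y' h
      exact hΦinj (congrArg Subtype.val h)
    have h2 := Nat.card_le_card_of_injective _ h1
    rwa [Nat.card_eq_fintype_card (α := badShapes ε δ s), Fintype.card_coe] at h2
  exact_mod_cast hcard

end BP2
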