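import Pool.Agent.BP2.M.Far

set_option autoImplicit false

/-!
# MP_475aca_co, part (M), M3: `TheoremD → TrivHypW → FarHyp`
-/

namespace BP2

open Finset Function

/-! ### the standard elements and the standard arrangement -/

lemma e0_val (n : ℕ) (i : Fin (2 * n + 1)) : (e0 n i : ℕ) =
    if (i : ℕ) = 2 * n then (i : ℕ) else if (i : ℕ) % 2 = 0 then i + 1 else i - 1 := by
  unfold e0
  split_ifs <;> rfl

lemma y0_val (n : ℕ) (i : Fin (2 * n + 1)) : (y0 n i : ℕ) =
    if (i : ℕ) = 0 then (i : ℕ) else if (i : ℕ) % 2 = 0 then i - 1 else i + 1 := by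
  unfold y0
  split_ifs <;> rfl

lemma isEl_e0 (n : ℕ) : IsEl (e0 n) where
  invol := by
    intro i
    apply Fin.ext
    rw [e0_val, e0_val]
    have := i.2
    split_ifs <;> omega
  floor := by
    refine ⟨⟨2 * n, by omega⟩, ?_, ?_⟩
    · apply Fin.ext
      rw [e0_val]
      simp
    · intro i hi
      apply Fin.ext
      have h1 := congrArg Fin.val hi
      rw [e0_val] at h1
      have := i.2
      split_ifs at h1 <;> simp <;> omega

lemma isArr_y0 (n : ℕ) : IsArr (e0 n) (y0 n) where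
  invol := by
    intro i
    apply Fin.ext
    rw [y0_val, y0_val]
    have := i.2
    split_ifs <;> first | omega | (exfalso; assumption)
  top := by
    refine ⟨⟨0, by omega⟩, ?_, ?_⟩
    · apply Fin.ext
      rw [y0_val]
      simp
    · intro i hi
      apply Fin.ext
      have h1 := congrArg Fin.val hi
      rw [y0_val] at h1
      have := i.2
      show (i : ℕ) = 0
      split_ifs at h1 <;> omega
  conn := by
    have hE := (isEl_e0 n).invol
    intro x y C hC hx
    have hY : Involutive (y0 n) := by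
      intro i
      apply Fin.ext
      rw [y0_val, y0_val]
      have := i.2
      split_ifs <;> first | omega | (exfalso; assumption)
    have hEC : ∀ z, e0 n z ∈ C ↔ z ∈ C := fun z =>
      ⟨fun h => by have := (hC _ h).1; rwa [hE] at this, fun h => (hC _ h).1⟩
    have hYC : ∀ z, y0 n z ∈ C ↔ z ∈ C := fun z =>
      ⟨fun h => by have := (hC _ h).2; rwa [hY] at this, fun h => (hC _ h).2⟩
    have key : ∀ (k : ℕ) (hk : k < 2 * n + 1), (⟨k, hk⟩ : Fin (2 * n + 1)) ∈ C ↔
        (⟨0, by omega⟩ : Fin (2 * n + 1)) ∈ C := by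
      intro k
      induction k with
      | zero => intro _; exact Iff.rfl
      | succ k ih =>
        intro hk
        rw [← ih (by omega)]
        rcases Nat.even_or_odd' k with ⟨j, rfl | rfl⟩
        · rw [← hEC ⟨2 * j, by omega⟩]
          have : e0 n ⟨2 * j, by omega⟩ = ⟨2 * j + 1, hk⟩ := by
            apply Fin.ext
            rw [e0_val]
            simp only
            rw [if_neg (by omega), if_pos (by omega)]
          rw [this]
        · rw [← hYC ⟨2 * j + 1, by omega⟩]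
          have : y0 n ⟨2 * j + 1, by omega⟩ = ⟨2 * j + 1 + 1, hk⟩ := by
            apply Fin.ext
            rw [y0_val]
            simp only
            rw [if_neg (by omega), if_neg (by omega)]
          rw [this]
    exact (key y.1 y.2).2 ((key x.1 x.2).1 hx)

/-! ### numbers -/

lemma far_sup {c : ℝ} (hc : 0 < c) (Λ : ℕ) (hΛ : 1 ≤ Λ) : ∃ C : ℕ, ∀ M : ℕ,
    (Λ : ℝ) ^ (2 * M) * (M : ℝ) ^ (-(c * M)) ≤ C := by
  have h1 := tendsto_rpow_atTop hc
  have h2 : Filter.Tendsto (fun M : ℕ => (M : ℝ) ^ c) Filter.atTop Filter.atTop :=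
    h1.comp tendsto_natCast_atTop_atTop
  obtain ⟨M₁, hM₁⟩ := Filter.eventually_atTop.1 (h2.eventually_ge_atTop ((Λ : ℝ) ^ 2))
  have hΛ' : (1 : ℝ) ≤ Λ := by exact_mod_cast hΛ
  refine ⟨Λ ^ (2 * (M₁ + 1)), fun M => ?_⟩
  by_cases hM : M₁ + 1 ≤ M
  · have hM0 : (0 : ℝ) < M := by
      have : 0 < M := by omega
      exact_mod_cast this
    have h3 : (Λ : ℝ) ^ 2 ≤ (M : ℝ) ^ c := hM₁ M (by omega)
    have h4 : (M : ℝ) ^ (-(c * M)) = (((M : ℝ) ^ c) ^ M)⁻¹ := by
      rw [Real.rpow_neg hM0.le, Real.rpow_mul hM0.le, Real.rpow_natCast]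
    have h5 : (0 : ℝ) < ((M : ℝ) ^ c) ^ M := by positivity
    rw [h4, pow_mul]
    have h6 : ((Λ : ℝ) ^ 2) ^ M ≤ ((M : ℝ) ^ c) ^ M := pow_le_pow_left₀ (by positivity) h3 M
    calc ((Λ : ℝ) ^ 2) ^ M * (((M : ℝ) ^ c) ^ M)⁻¹ ≤ ((M : ℝ) ^ c) ^ M * (((M : ℝ) ^ c) ^ M)⁻¹ := by
          gcongr
      _ = 1 := mul_inv_cancel₀ h5.ne'
      _ ≤ ((Λ ^ (2 * (M₁ + 1)) : ℕ) : ℝ) := by
          push_cast
          exact one_le_pow₀ hΛ'
  · have h3 : (M : ℝ) ^ (-(c * M)) ≤ 1 := by
      rcases Nat.eq_zero_or_pos M with rfl | h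
      · simp
      · have hM1 : (1 : ℝ) ≤ M := by exact_mod_cast h
        refine Real.rpow_le_one_of_one_le_of_nonpos hM1 ?_
        have : 0 ≤ c * M := by positivity
        linarith
    have h4 : (0 : ℝ) ≤ (M : ℝ) ^ (-(c * M)) := Real.rpow_nonneg (by positivity) _
    calc (Λ : ℝ) ^ (2 * M) * (M : ℝ) ^ (-(c * M)) ≤ (Λ : ℝ) ^ (2 * M) * 1 := by gcongr
      _ ≤ (Λ : ℝ) ^ (2 * (M₁ + 1)) := by
          rw [mul_one]
          exact pow_le_pow_right₀ hΛ' (by omega)
      _ = ((Λ ^ (2 * (M₁ + 1)) : ℕ) : ℝ) := by push_cast; rfl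

lemma chg_le_far [Fintype (Fin 0)] {L : Type} [Fintype L] (X Y : L → L) : chg X Y ≤ Fintype.card L := by
  classical
  unfold chg
  exact card_le_univ _

open Classical in
/-- all the expensive arrangements with `h` changed labels -/
theorem far_total {L : Type} [Fintype L] {E X : L → L} (hT : TrivHypW) (hE : IsEl E)
    (hX : IsArr E X) {ε δ : ℝ} (hδ : 0 ≤ δ) {B : ℝ} (hB : 0 ≤ B) (h M : ℕ)
    (hM : h / 2 = M)
    (hD : ∀ (α : Type) [Fintype α] (s : St α), WF s [] → s.2.length = M →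
      ((badShapes ε δ s).card : ℝ) ≤ B) :
    (Nat.card {Y : L → L // IsArr E Y ∧ chg X Y = h ∧
      ¬ ∃ k, Reach E k X Y ∧ (k : ℝ) ≤ (1 + ε) * M + 2 * (2 * (ε * M) + 1)} : ℝ) ≤
      2 ^ Fintype.card L * B := by
  rw [Nat.card_eq_fintype_card, Fintype.card_subtype]
  set S := Finset.univ.filter fun Y : L → L => IsArr E Y ∧ chg X Y = h ∧
      ¬ ∃ k, Reach E k X Y ∧ (k : ℝ) ≤ (1 + ε) * M + 2 * (2 * (ε * M) + 1) with hS
  let F : (L → L) → Finset L := fun Y => Finset.univ.filter fun x => X x ≠ Y x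
  have h1 : S.card = ∑ A : Finset L, (S.filter fun Y => F Y = A).card :=
    Finset.card_eq_sum_card_fiberwise (fun _ _ => mem_univ _)
  rw [h1]
  push_cast
  have h2 : ∀ A : Finset L, ((S.filter fun Y => F Y = A).card : ℝ) ≤ B := by
    intro A
    by_cases hA : A.card = h
    · have h3 := far_count hT hE hX (ε := ε) (δ := δ) hδ hB A M (by rw [hA]; exact hM) hD
      refine le_trans ?_ h3
      have h4 : (S.filter fun Y => F Y = A).card ≤
          Nat.card {Y : L → L // IsArr E Y ∧ (∀ x, X x ≠ Y x ↔ x ∈ A) ∧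
      ¬ ∃ k, Reach E k X Y ∧ (k : ℝ) ≤ (1 + ε) * M + 2 * (2 * (ε * M) + 1)} := by
        rw [Nat.card_eq_fintype_card, Fintype.card_subtype]
        refine card_le_card ?_
        intro Y hY
        rw [mem_filter] at hY
        obtain ⟨hY1, hY2⟩ := hY
        rw [hS, mem_filter] at hY1
        rw [mem_filter]
        refine ⟨mem_univ _, hY1.2.1, ?_, hY1.2.2.2⟩
        intro x
        rw [← hY2]
        simp [F]
      exact_mod_cast h4
    · have h3 : (S.filter fun Y => F Y = A) = ∅ := by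
        rw [filter_eq_empty_iff]
        intro Y hY hF
        rw [hS, mem_filter] at hY
        apply hA
        rw [← hF, ← hY.2.2.1]
        unfold chg
        congr
      rw [h3]
      simpa using hB
  calc ∑ A : Finset L, ((S.filter fun Y => F Y = A).card : ℝ) ≤ ∑ _A : Finset L, B :=
        Finset.sum_le_sum fun A _ => h2 A
    _ = 2 ^ Fintype.card L * B := by
        rw [Finset.sum_const, Finset.card_univ, Fintype.card_finset, nsmul_eq_mul]
        push_cast
        rfl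

theorem farHyp (hD : TheoremD) (hT : TrivHypW) : FarHyp := by
  classical
  refine ⟨4, fun m Λ₀ hm => ?_⟩
  have hmR : (0 : ℝ) < m := by exact_mod_cast hm
  obtain ⟨c, δ, hc, hδ, m₀, hbad⟩ := hD (1 / (5 * m)) (by positivity)
  set Λ := Λ₀ + 1 with hΛdef
  obtain ⟨C₁, hC₁⟩ := far_sup hc Λ (by omega)
  refine ⟨4 * m * (2 * m₀ + 1) + 4 * m + 2 * Λ * C₁, fun n h => ?_⟩
  set C := 4 * m * (2 * m₀ + 1) + 4 * m + 2 * Λ * C₁ with hC
  by_cases hne : (BadTh n m C h).Nonempty
  swap
  · rw [Set.not_nonempty_iff_eq_empty.1 hne]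
    simp
  obtain ⟨θ₀, hθ₀⟩ := hne
  -- M is at most n
  have hh : h ≤ 2 * n + 1 := by
    rw [← hθ₀.2.1]
    have := chg_le_far (y0 n) θ₀
    simpa using this
  set M := h / 2 with hM
  have hMn : M ≤ n := by omega
  -- small M
  by_cases hMm : M < m₀
  · exfalso
    obtain ⟨k, hk, hr⟩ := hT (Fin (2 * n + 1)) (e0 n) (y0 n) θ₀ (isEl_e0 n) (isArr_y0 n) hθ₀.1
    refine hθ₀.2.2 ⟨k, hr, ?_⟩
    rw [hθ₀.2.1] at hk
    have h1 : h ≤ 2 * m₀ := by omega
    have h2 : 2 * m * k ≤ 2 * m * (2 * (2 * m₀)) := by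
      have : k ≤ 2 * (2 * m₀) := by omega
      exact Nat.mul_le_mul_left _ this
    have h3 : 2 * m * (2 * (2 * m₀)) ≤ 4 * m * (2 * m₀ + 1) := by ring_nf; omega
    have h4 : 4 * m * (2 * m₀ + 1) ≤ C := by
      rw [hC, Nat.add_assoc]
      exact Nat.le_add_right _ _
    exact (h2.trans (h3.trans h4)).trans (Nat.le_add_left _ _)
  · rw [not_lt] at hMm
    set B : ℝ := (M.factorial : ℝ) * (M : ℝ) ^ (-(c * M)) with hB
    have hB0 : 0 ≤ B := by positivity
    have h1 := far_total (L := Fin (2 * n + 1)) hT (isEl_e0 n) (isArr_y0 n)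
      (ε := 1 / (5 * m)) (δ := δ) hδ.le hB0 h M rfl (by
        intro α _ s hs hlen
        have := hbad α s hs (by omega)
        rw [hlen] at this
        exact this)
    rw [Fintype.card_fin] at h1
    have h2 : (Nat.card (BadTh n m C h) : ℝ) ≤ 2 ^ (2 * n + 1) * B := by
      refine le_trans ?_ h1
      have h3 : Nat.card (BadTh n m C h) ≤
          Nat.card {Y : Fin (2 * n + 1) → Fin (2 * n + 1) // IsArr (e0 n) Y ∧
            chg (y0 n) Y = h ∧ ¬ ∃ k, Reach (e0 n) k (y0 n) Y ∧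
              (k : ℝ) ≤ (1 + 1 / (5 * m)) * M + 2 * (2 * (1 / (5 * m) * M) + 1)} := by
        refine Nat.card_mono (Set.toFinite _) ?_
        intro θ hθ
        refine ⟨hθ.1, hθ.2.1, ?_⟩
        rintro ⟨k, hr, hk⟩
        refine hθ.2.2 ⟨k, hr, ?_⟩
        have h4 : (2 * m * k : ℝ) ≤ (m + 1) * h + 4 * m := by
          have h5 : (2 * M : ℝ) ≤ h := by
            have : 2 * M ≤ h := by omega
            exact_mod_cast this
          have h6 : (2 * m : ℝ) * ((1 + 1 / (5 * m)) * M + 2 * (2 * (1 / (5 * m) * M) + 1)) =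
              (m + 1) * (2 * M) + 4 * m := by
            field_simp
            ring
          calc (2 * m * k : ℝ) ≤ 2 * m * ((1 + 1 / (5 * m)) * M + 2 * (2 * (1 / (5 * m) * M) + 1)) := by
                gcongr
            _ = (m + 1) * (2 * M) + 4 * m := h6
            _ ≤ (m + 1) * h + 4 * m := by gcongr
        have h7 : 2 * m * k ≤ (m + 1) * h + 4 * m := by exact_mod_cast h4
        have h8 : 4 * m ≤ C := by
          rw [hC]
          omega
        omega
      exact_mod_cast h3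
    -- the final estimate
    have hΛ1 : (1 : ℝ) ≤ Λ := by
      have : 1 ≤ Λ := by omega
      exact_mod_cast this
    have h3 : ((Λ₀ : ℝ)) ^ h ≤ (Λ : ℝ) ^ (2 * M + 1) := by
      calc ((Λ₀ : ℝ)) ^ h ≤ (Λ : ℝ) ^ h := by
            apply pow_le_pow_left₀ (by positivity)
            rw [hΛdef]
            push_cast
            linarith
        _ ≤ (Λ : ℝ) ^ (2 * M + 1) := pow_le_pow_right₀ hΛ1 (by omega)
    have h4 : (M.factorial : ℝ) ≤ ((2 * n + 1 : ℕ) : ℝ) ^ M := by
      have h5 : M.factorial ≤ M ^ M := Nat.factorial_le_pow M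
      have h6 : M ^ M ≤ (2 * n + 1) ^ M := Nat.pow_le_pow_left (by omega) M
      exact_mod_cast h5.trans h6
    have h5 : (Nat.card (BadTh n m C h) : ℝ) * (Λ₀ : ℝ) ^ h ≤
        (C : ℝ) * 4 ^ n * ((2 * n + 1 : ℕ) : ℝ) ^ M := by
      calc (Nat.card (BadTh n m C h) : ℝ) * (Λ₀ : ℝ) ^ h
          ≤ (2 ^ (2 * n + 1) * B) * (Λ : ℝ) ^ (2 * M + 1) := by gcongr
        _ = 2 * Λ * (4 ^ n * (M.factorial : ℝ) * ((Λ : ℝ) ^ (2 * M) * (M : ℝ) ^ (-(c * M)))) := by
            rw [hB, pow_succ, pow_mul, pow_succ]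
            norm_num
            ring
        _ ≤ 2 * Λ * (4 ^ n * ((2 * n + 1 : ℕ) : ℝ) ^ M * C₁) := by
            gcongr
            exact hC₁ M
        _ = (2 * Λ * C₁) * 4 ^ n * ((2 * n + 1 : ℕ) : ℝ) ^ M := by ring
        _ ≤ (C : ℝ) * 4 ^ n * ((2 * n + 1 : ℕ) : ℝ) ^ M := by
            gcongr
            have : 2 * Λ * C₁ ≤ C := by
              rw [hC]
              omega
            exact_mod_cast this
    exact_mod_cast h5

end BP2
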