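import Pool.Agent.BP2.M.Stack
import Pool.Agent.BP2.MHyp
import Pool.Agent.BP2.D.Stmt

set_option autoImplicit false

/-!
# MP_475aca_co, part (M), M4: the structured stack of a local transition
-/

namespace BP2

open Lt Function

variable {α : Type*}

/-- the labels of a list of upper labels -/
def fl (E : α → α) (l : List α) : List α := l.flatMap fun x => [x, E x]

/-- the upper labels of the elements, from the top to the floor -/
structure Wlk (E X : α → α) (us : List α) : Prop where
  chain : ∀ l₁ y z l₂, us = l₁ ++ y :: z :: l₂ → X (E y) = z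
  top : ∀ t l, us = t :: l → X t = t
  nodup : us.Nodup
  twice : ∀ x ∈ us, E x ∈ us → E x = x
  cover : ∀ z, z ∈ us ∨ E z ∈ us
  last : ∀ l f, us = l ++ [f] → E f = f
  flr : ∀ l y z l₂, us = l ++ y :: z :: l₂ → E y ≠ y

/-- the labels of a part of the stack -/
def Lab (E : α → α) (l : List α) (z : α) : Prop := z ∈ l ∨ E z ∈ l

lemma fl_append (E : α → α) (l l' : List α) : fl E (l ++ l') = fl E l ++ fl E l' := by
  simp [fl]

lemma fl_cons (E : α → α) (x : α) (l : List α) : fl E (x :: l) = x :: E x :: fl E l := by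
  simp [fl]

@[simp] lemma fl_nil (E : α → α) : fl E [] = [] := rfl

lemma Lab_append {E : α → α} {l l' : List α} {z : α} :
    Lab E (l ++ l') z ↔ Lab E l z ∨ Lab E l' z := by
  unfold Lab
  simp only [List.mem_append]
  tauto

/-- the first element with `p` -/
lemma first_split (p : α → Prop) (l : List α) :
    (∀ y ∈ l, ¬ p y) ∨ ∃ l₁ y l₂, l = l₁ ++ y :: l₂ ∧ p y ∧ ∀ z ∈ l₁, ¬ p z := by
  induction l with
  | nil => left; simp
  | cons x l ih =>
    by_cases hx : p x
    · right
      exact ⟨[], x, l, rfl, hx, by simp⟩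
    · rcases ih with h | ⟨l₁, y, l₂, h1, h2, h3⟩
      · left
        intro y hy
        rcases List.mem_cons.1 hy with rfl | hy
        · exact hx
        · exact h y hy
      · right
        refine ⟨x :: l₁, y, l₂, by rw [h1]; rfl, h2, ?_⟩
        intro z hz
        rcases List.mem_cons.1 hz with rfl | hz
        · exact hx
        · exact h3 z hz

/-- a rigid block -/
lemma bk_of {E X Z : α → α} : ∀ (l : List α) (y v : α) (m : List α), l ++ [y] = v :: m →
    (∀ l₁ a b l₂, l ++ [y] = l₁ ++ a :: b :: l₂ → X (E a) = b) →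
    (∀ z ∈ l, Z (E z) = X (E z)) → Bk E Z v (E y) (fl E (l ++ [y])) := by
  intro l
  induction l with
  | nil =>
    intro y v m h _ _
    simp only [List.nil_append, List.cons.injEq] at h
    obtain ⟨rfl, _⟩ := h
    simpa [fl] using Bk.el (E := E) (Z := Z) y
  | cons x l ih =>
    intro y v m h hc hz
    simp only [List.cons_append, List.cons.injEq] at h
    obtain ⟨rfl, h⟩ := h
    cases hm : l ++ [y] with
    | nil => simp at hm
    | cons v' m' =>
      have h1 := ih y v' m' hm (fun l₁ a b l₂ e => hc (x :: l₁) a b l₂ (by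
        rw [List.cons_append, e]; rfl)) (fun z hz' => hz z (List.mem_cons_of_mem _ hz'))
      have h2 : X (E x) = v' := hc [] x v' m' (by rw [List.cons_append, hm]; rfl)
      have h3 := Bk.app (Bk.el (E := E) (Z := Z) x) (by rw [hz x (by simp), h2]) h1
      rw [List.cons_append, fl_cons]
      simpa using h3

/-- blocks are connected -/
lemma Bk.conn {E Z : α → α} {t u : α} {A : List α} (h : Bk E Z t u A) : Conn E Z t u := by
  induction h with
  | el x => intro C hC hx; exact (hC x hx).1
  | app _ hz _ ih1 ih2 =>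
    intro C hC hx
    apply ih2 C hC
    rw [← hz]
    exact (hC _ (ih1 C hC hx)).2

lemma Conn.symm' {E K : α → α} (hE : Involutive E) (hK : Involutive K) {x y : α}
    (h : Conn E K x y) : Conn E K y x := by
  intro C hC hy
  by_contra hx
  have h1 : Cl E K Cᶜ := by
    intro z hz
    refine ⟨fun h => hz ?_, fun h => hz ?_⟩
    · have := (hC _ h).1
      rwa [hE z] at this
    · have := (hC _ h).2
      rwa [hK z] at this
  exact h _ h1 hx hy

lemma Conn.trans' {E K : α → α} {x y z : α} (h : Conn E K x y) (h' : Conn E K y z) :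
    Conn E K x z := fun C hC hx => h' C hC (h C hC hx)

lemma Conn.E' {E K : α → α} {x y : α} (h : Conn E K x y) : Conn E K x (E y) :=
  fun C hC hx => (hC _ (h C hC hx)).1

lemma Conn.K' {E K : α → α} {x y : α} (h : Conn E K x y) : Conn E K x (K y) :=
  fun C hC hx => (hC _ (h C hC hx)).2

lemma Conn.refl' {E K : α → α} (x : α) : Conn E K x x := fun _ _ hx => hx

open Classical in
lemma init_cut_invol {K : α → α} (hK : Involutive K) (x : α) : Involutive (cut K x) := by
  intro z
  unfold cut
  by_cases h : z = x ∨ z = K x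
  · simp only [h, if_true]
  · simp only [h, if_false]
    have h2 : ¬ (K z = x ∨ K z = K x) := by
      rintro (h2 | h2)
      · exact h (Or.inr (by rw [← h2, hK z]))
      · exact h (Or.inl (by rw [← hK z, h2, hK x]))
    simp only [h2, if_false, hK z]

namespace Wlk

variable {E X : α → α} {us : List α}

/-- a prefix is closed, except at its bottom label -/
lemma cross (hw : Wlk E X us) (hE : Involutive E) (hX : Involutive X) {l : List α} {y : α}
    {l₂ : List α} (h : us = l ++ y :: l₂) {z : α} (hz : Lab E (l ++ [y]) z) (hzy : z ≠ E y) :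
    Lab E (l ++ [y]) (X z) := by
  rcases hz with hz | hz
  · obtain ⟨p₁, p₂, hp⟩ := List.append_of_mem hz
    rcases List.eq_nil_or_concat p₁ with rfl | ⟨p₁', w, rfl⟩
    · have : us = z :: (p₂ ++ l₂) := by
        rw [h, show l ++ y :: l₂ = (l ++ [y]) ++ l₂ by simp, hp]
        simp
      rw [hw.top _ _ this]
      exact Or.inl hz
    · have h1 : us = p₁' ++ w :: z :: (p₂ ++ l₂) := by
        rw [h, show l ++ y :: l₂ = (l ++ [y]) ++ l₂ by simp, hp]
        simp
      have h2 := hw.chain _ _ _ _ h1
      have h3 : X z = E w := by rw [← h2, hX]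
      rw [h3]
      refine Or.inr ?_
      rw [hE w, hp]
      simp
  · obtain ⟨p₁, p₂, hp⟩ := List.append_of_mem hz
    cases p₂ with
    | nil =>
      have h1 := List.append_inj_right' hp (by simp)
      simp only [List.cons.injEq, and_true] at h1
      exact absurd (by rw [h1, hE]) hzy
    | cons w p₂ =>
      have h1 : us = p₁ ++ E z :: w :: (p₂ ++ l₂) := by
        rw [h, show l ++ y :: l₂ = (l ++ [y]) ++ l₂ by simp, hp]
        simp
      have h2 := hw.chain _ _ _ _ h1
      rw [hE] at h2
      rw [h2]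
      refine Or.inl ?_
      rw [hp]
      simp

/-- a lower label of the part above is not below -/
lemma disj (hw : Wlk E X us) (hE : Involutive E) {l l' : List α} (h : us = l ++ l') {z : α}
    (h1 : Lab E l z) (h2 : Lab E l' z) : False := by
  have hn := hw.nodup
  rw [h, List.nodup_append] at hn
  obtain ⟨_, _, hn⟩ := hn
  have key : ∀ x, x ∈ us → E x ∈ us → E x = x := hw.twice
  rcases h1 with h1 | h1 <;> rcases h2 with h2 | h2
  · exact hn z h1 z h2 rfl
  · have := key z (by rw [h]; simp [h1]) (by rw [h]; simp [h2])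
    rw [this] at h2
    exact hn z h1 z h2 rfl
  · have := key z (by rw [h]; simp [h2]) (by rw [h]; simp [h1])
    rw [this] at h1
    exact hn z h1 z h2 rfl
  · exact hn _ h1 _ h2 rfl

lemma lab_all (hw : Wlk E X us) (z : α) : Lab E us z := hw.cover z

end Wlk

/-! ### the scan -/

/-- labels of the changed adjacencies -/
def Dl (X : α → α) (U : Set α) (z : α) : Prop := z ∈ U ∨ X z ∈ U

/-- the adjacency below the element with upper label `y` is changed -/
def Cg (E X : α → α) (U : Set α) (y : α) : Prop := E y ≠ y ∧ Dl X U (E y)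

/-- the adjacency of `z` has been passed -/
def Psd (E X : α → α) (l : List α) (z : α) : Prop := Lab E l z ∨ Lab E l (X z)

section scan

variable {E X : α → α} {us : List α} {U : Set α}

lemma Dl_X {z : α} (hX : Involutive X) (h : Dl X U z) : Dl X U (X z) := by
  rcases h with h | h
  · right; rwa [hX z]
  · left; exact h

lemma Psd_X {z : α} {l : List α} (hX : Involutive X) (h : Psd E X l (X z)) : Psd E X l z := by
  rcases h with h | h
  · right; exact h
  · left; rwa [hX z] at h

/-- changed upper labels in a block whose interior adjacencies are unchanged -/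
lemma dlab_up (hw : Wlk E X us) (hE : Involutive E) (hX : Involutive X) (hU : ∀ x ∈ U, X x ≠ x)
    {pre l r : List α} (h : us = pre ++ (l ++ r))
    (hl : ∀ p₁ w p₂, l = p₁ ++ w :: p₂ → p₂ ≠ [] → ¬ Cg E X U w) {x : α} (hx : x ∈ l)
    (hD : Dl X U x) : Psd E X pre x := by
  obtain ⟨p₁, p₂, hp⟩ := List.append_of_mem hx
  rcases List.eq_nil_or_concat p₁ with rfl | ⟨p₁', w, rfl⟩
  · rcases List.eq_nil_or_concat pre with rfl | ⟨pre', w, rfl⟩
    · have h1 : X x = x := hw.top x (p₂ ++ r) (by rw [h, hp]; simp)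
      rcases hD with h2 | h2
      · exact absurd h1 (hU x h2)
      · rw [h1] at h2
        exact absurd h1 (hU x h2)
    · right
      have h1 := hw.chain pre' w x (p₂ ++ r) (by rw [h, hp]; simp)
      rw [← h1, hX]
      right
      rw [hE]
      simp
  · exfalso
    have h1 := hw.chain (pre ++ p₁') w x (p₂ ++ r) (by rw [h, hp]; simp)
    have h2 := hw.flr (pre ++ p₁') w x (p₂ ++ r) (by rw [h, hp]; simp)
    refine hl p₁' w (x :: p₂) (by rw [hp]; simp) (by simp) ⟨h2, ?_⟩
    have h3 : E w = X x := by rw [← h1, hX]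
    rw [h3]
    exact Dl_X hX hD

/-- changed labels in a block whose interior adjacencies are unchanged -/
lemma dlab (hw : Wlk E X us) (hE : Involutive E) (hX : Involutive X) (hU : ∀ x ∈ U, X x ≠ x)
    {pre l r : List α} (h : us = pre ++ (l ++ r))
    (hl : ∀ p₁ w p₂, l = p₁ ++ w :: p₂ → p₂ ≠ [] → ¬ Cg E X U w) {z : α}
    (hD : Dl X U z) (hz : Lab E l z) :
    Psd E X pre z ∨ ∃ l₁ y, l = l₁ ++ [y] ∧ z = E y := by
  rcases hz with hz | hz
  · exact Or.inl (dlab_up hw hE hX hU h hl hz hD)
  · obtain ⟨p₁, p₂, hp⟩ := List.append_of_mem hz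
    by_cases hp2 : p₂ = []
    · subst hp2
      exact Or.inr ⟨p₁, E z, hp, (hE z).symm⟩
    · exfalso
      obtain ⟨c, m, hcm⟩ := List.exists_cons_of_ne_nil hp2
      have h2 := hw.flr (pre ++ p₁) (E z) c (m ++ r) (by rw [h, hp, hcm]; simp)
      refine hl p₁ (E z) p₂ hp hp2 ⟨h2, ?_⟩
      rw [hE]
      exact hD

/-- up to the first changed adjacency -/
lemma dlab1 (hw : Wlk E X us) (hE : Involutive E) (hX : Involutive X) (hU : ∀ x ∈ U, X x ≠ x)
    {pre l r : List α} {y : α} (h : us = pre ++ (l ++ y :: r))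
    (hl : ∀ w ∈ l, ¬ Cg E X U w) {z : α}
    (hD : Dl X U z) (hz : Lab E (l ++ [y]) z) : Psd E X pre z ∨ z = E y := by
  have hl' : ∀ p₁ w p₂, l ++ [y] = p₁ ++ w :: p₂ → p₂ ≠ [] → ¬ Cg E X U w := by
    intro p₁ w p₂ hp hne
    apply hl
    rcases List.eq_nil_or_concat p₂ with h3 | ⟨p₂', c, rfl⟩
    · exact absurd h3 hne
    · have h4 : l ++ [y] = (p₁ ++ w :: p₂') ++ [c] := by rw [hp]; simp
      have h5 := List.append_inj_left' h4 (by simp)
      rw [h5]
      simp
  rcases dlab hw hE hX hU (pre := pre) (l := l ++ [y]) (r := r) (by rw [h]; simp) hl' hD hz with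
    h1 | ⟨l₁, y', h1, h2⟩
  · exact Or.inl h1
  · have h3 := List.append_inj_right' h1 (by simp)
    simp only [List.cons.injEq, and_true] at h3
    rw [h3]
    exact Or.inr h2

/-- down to the floor -/
lemma dlab2 (hw : Wlk E X us) (hE : Involutive E) (hX : Involutive X) (hU : ∀ x ∈ U, X x ≠ x)
    {pre l : List α} (h : us = pre ++ l)
    (hl : ∀ w ∈ l, ¬ Cg E X U w) {z : α}
    (hD : Dl X U z) (hz : Lab E l z) : Psd E X pre z := by
  have hl' : ∀ p₁ w p₂, l = p₁ ++ w :: p₂ → p₂ ≠ [] → ¬ Cg E X U w := by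
    intro p₁ w p₂ hp _
    apply hl
    rw [hp]
    simp
  rcases dlab hw hE hX hU (pre := pre) (l := l) (r := []) (by rw [h]; simp) hl' hD hz with
    h1 | ⟨l₁, y', h1, h2⟩
  · exact h1
  · have h3 : E y' = y' := hw.last (pre ++ l₁) y' (by rw [h, h1]; simp)
    refine dlab_up hw hE hX hU (pre := pre) (l := l) (r := []) (by rw [h]; simp) hl' ?_ hD
    rw [h2, h3, h1]
    simp

/-- what is passed after the first changed adjacency -/
lemma psd1 (hw : Wlk E X us) (hE : Involutive E) (hX : Involutive X) (hU : ∀ x ∈ U, X x ≠ x)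
    {pre l r : List α} {y : α} (h : us = pre ++ (l ++ y :: r))
    (hl : ∀ w ∈ l, ¬ Cg E X U w) {z : α} (hz : z ∈ U) :
    Psd E X (pre ++ (l ++ [y])) z ↔ Psd E X pre z ∨ z = E y ∨ X z = E y := by
  constructor
  · rintro (h1 | h1)
    · rcases Lab_append.1 h1 with h1 | h1
      · exact Or.inl (Or.inl h1)
      · rcases dlab1 hw hE hX hU h hl (Or.inl hz) h1 with h2 | h2
        · exact Or.inl h2
        · exact Or.inr (Or.inl h2)
    · rcases Lab_append.1 h1 with h1 | h1
      · exact Or.inl (Or.inr h1)
      · rcases dlab1 hw hE hX hU h hl (Dl_X hX (Or.inl hz)) h1 with h2 | h2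
        · exact Or.inl (Psd_X hX h2)
        · exact Or.inr (Or.inr h2)
  · have hy : Lab E (pre ++ (l ++ [y])) (E y) := by
      right
      rw [hE]
      simp
    rintro (h1 | h1 | h1)
    · rcases h1 with h1 | h1
      · exact Or.inl (Lab_append.2 (Or.inl h1))
      · exact Or.inr (Lab_append.2 (Or.inl h1))
    · left
      rw [h1]
      exact hy
    · right
      rw [h1]
      exact hy

end scan

end BP2
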