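import Pool.Agent.BP2.M.Init

set_option autoImplicit false

/-!
# MP_475aca_co, part (M), M4: the structured stack of a local transition, main recursion
-/

namespace BP2

open Lt Function

variable {α : Type*}

/-- what is known about the letters of a local transition -/
def Lok (I K : α → α) (U : Set α) (P : α → Prop) (x : Lt α) : Prop :=
  ((x.ent ∈ OutL K U P ∧ x.lv ∈ InL I K U P) ∨ (x.ent ∈ InL I K U P ∧ x.lv ∈ OutL K U P)) ∧
  ∀ a u l b, x = mk a u l b → a ∈ U ∧ I a = b

section two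

variable {E X I K Z : α → α} {us : List α} {U : Set α} {P : α → Prop} {ty : α → Bool} {f : α}

/-- The unit whose first changed adjacency (from the top) is below `y₁`. -/
lemma unit_scan (hw : Wlk E X us) (hE : Involutive E) (hX : Involutive X)
    (hD : LocData E I K U P) (hKX : ∀ x, K x ≠ x → X x = K x)
    {pre l₁ l₂ : List α} {y₁ : α} (h : us = pre ++ (l₁ ++ y₁ :: l₂))
    (hbal : ∀ z ∈ U, (Psd E X pre z ↔ Psd E X pre (I z)))
    (h1 : Cg E X U y₁) (hl : ∀ w ∈ l₁, ¬ Cg E X U w) :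
    ∃ (b y₂ b₂ : α) (m₁ m₂ : List α) (x : α), l₂ = m₁ ++ y₂ :: b₂ :: m₂ ∧
      (∀ w ∈ m₁, ¬ Cg E X U w) ∧ X (E y₁) = b ∧ (∃ r, m₁ ++ [y₂] = b :: r) ∧
      X (E y₂) = b₂ ∧ x ∈ U ∧ (x = E y₁ ∨ x = b) ∧ (I x = E y₂ ∨ I x = b₂) ∧
      (∀ w ∈ m₁, K (E w) = X (E w)) ∧
      (∀ z ∈ U, (z = E y₁ ∨ z = b ↔ z = x)) ∧ (∀ z ∈ U, (z = E y₂ ∨ z = b₂ ↔ z = I x)) := by
  have hUX : ∀ x ∈ U, X x ≠ x := fun x hx => by
    have := (hD.opened x hx).1
    rw [hKX x this]
    exact this
  have hK : Involutive K := hD.invK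
  -- the label below
  have hl2 : l₂ ≠ [] := by
    rintro rfl
    exact h1.1 (hw.last (pre ++ l₁) y₁ (by rw [h]; simp))
  obtain ⟨b, l₂', rfl⟩ := List.exists_cons_of_ne_nil hl2
  have hb : X (E y₁) = b := hw.chain (pre ++ l₁) y₁ b l₂' (by rw [h]; simp)
  have hb' : X b = E y₁ := by rw [← hb, hX]
  set a := E y₁ with ha
  obtain ⟨x, hxU, hx⟩ : ∃ x ∈ U, x = a ∨ x = b := by
    rcases h1.2 with h2 | h2
    · exact ⟨_, h2, Or.inl rfl⟩
    · exact ⟨_, h2, Or.inr hb⟩
  obtain ⟨hIU, hII, hIx⟩ := hD.invI x hxU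
  have hKx := (hD.opened x hxU).1
  have hKxU := (hD.opened x hxU).2
  have hXx : X x = K x := hKX x hKx
  have hxX : ∀ z ∈ U, (z = a ∨ z = b ↔ z = x) := by
    intro z hz
    constructor
    · intro hzz
      by_contra hne
      have : X x = z := by
        rcases hx with rfl | rfl <;> rcases hzz with rfl | rfl
        · exact absurd rfl hne
        · exact hb
        · exact hb'
        · exact absurd rfl hne
      rw [hXx] at this
      exact hKxU (this ▸ hz)
    · rintro rfl
      exact hx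
  -- pre₁
  have e1 : us = (pre ++ (l₁ ++ [y₁])) ++ (b :: l₂') := by rw [h]; simp
  have hla : Lab E (pre ++ (l₁ ++ [y₁])) a := by
    right
    rw [ha, hE]
    simp
  have hnl : ∀ {l l' : List α} {z : α}, us = l ++ l' → z ∈ l' → ¬ Lab E l z :=
    fun e hz h2 => hw.disj hE e h2 (Or.inl hz)
  have hnpx : ¬ Psd E X pre x := by
    have e0 : us = pre ++ (l₁ ++ y₁ :: b :: l₂') := h
    have n1 : ¬ Lab E pre a := fun h2 => hw.disj hE e0 h2 (Or.inr (by rw [ha, hE]; simp))
    have n2 : ¬ Lab E pre b := fun h2 => hw.disj hE e0 h2 (Or.inl (by simp))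
    rintro (h2 | h2)
    · rcases hx with rfl | rfl
      · exact n1 h2
      · exact n2 h2
    · rcases hx with rfl | rfl
      · rw [hb] at h2
        exact n2 h2
      · rw [hb'] at h2
        exact n1 h2
  have hnpI : ¬ Psd E X pre (I x) := fun h2 => hnpx ((hbal x hxU).2 h2)
  have hIab : ¬ (I x = a ∨ I x = b) := fun h2 => hIx ((hxX _ hIU).1 h2)
  have hXIa : X (I x) ≠ a := by
    intro h2
    have : I x = b := by rw [← hb, ← h2, hX]
    exact hIab (Or.inr this)
  have hnp1 : ¬ Psd E X (pre ++ (l₁ ++ [y₁])) (I x) := by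
    rw [psd1 hw hE hX hUX h hl hIU]
    rintro (h2 | h2 | h2)
    · exact hnpI h2
    · exact hIab (Or.inl h2)
    · exact hXIa h2
  -- the next changed adjacency
  rcases first_split (Cg E X U) (b :: l₂') with h2 | ⟨m₁, y₂, m₂', h3, h4, h5⟩
  · exfalso
    apply hnp1
    have h6 := hw.lab_all (I x)
    rw [e1] at h6
    rcases Lab_append.1 h6 with h6 | h6
    · exact Or.inl h6
    · exact dlab2 hw hE hX hUX e1 h2 (Or.inl hIU) h6
  have hm2 : m₂' ≠ [] := by
    rintro rfl
    exact h4.1 (hw.last (pre ++ (l₁ ++ [y₁]) ++ m₁) y₂ (by rw [e1, h3]; simp))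
  obtain ⟨b₂, m₂, rfl⟩ := List.exists_cons_of_ne_nil hm2
  have e2 : us = (pre ++ (l₁ ++ [y₁])) ++ (m₁ ++ y₂ :: b₂ :: m₂) := by rw [e1, h3]
  have hb2 : X (E y₂) = b₂ := hw.chain (pre ++ (l₁ ++ [y₁]) ++ m₁) y₂ b₂ m₂ (by rw [e2]; simp)
  have hb2' : X b₂ = E y₂ := by rw [← hb2, hX]
  set a₂ := E y₂ with ha2
  have e3 : us = ((pre ++ (l₁ ++ [y₁])) ++ (m₁ ++ [y₂])) ++ (b₂ :: m₂) := by rw [e2]; simp
  obtain ⟨x₂, hx2U, hx2⟩ : ∃ x ∈ U, x = a₂ ∨ x = b₂ := by
    rcases h4.2 with h2 | h2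
    · exact ⟨_, h2, Or.inl rfl⟩
    · exact ⟨_, h2, Or.inr hb2⟩
  have hr : ∃ r, m₁ ++ [y₂] = b :: r := by
    cases m₁ with
    | nil =>
      simp only [List.nil_append, List.cons.injEq] at h3
      exact ⟨[], by rw [h3.1]; rfl⟩
    | cons c m₁ =>
      simp only [List.cons_append, List.cons.injEq] at h3
      exact ⟨m₁ ++ [y₂], by rw [h3.1]; rfl⟩
  have hlb : Lab E (m₁ ++ [y₂]) b := by
    obtain ⟨r, hr⟩ := hr
    left
    rw [hr]
    simp
  have hlx : Lab E ((pre ++ (l₁ ++ [y₁])) ++ (m₁ ++ [y₂])) x := by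
    rcases hx with rfl | rfl
    · exact Lab_append.2 (Or.inl hla)
    · exact Lab_append.2 (Or.inr hlb)
  have nb2 : ¬ Lab E ((pre ++ (l₁ ++ [y₁])) ++ (m₁ ++ [y₂])) b₂ := hnl e3 (by simp)
  have hcI : Conn E K x (I x) := hD.body x hxU
  -- the component of `x` reaches `a₂`
  have hca : Conn E K x a₂ := by
    by_contra hnc
    have hcl : Cl E K {z | Lab E ((pre ++ (l₁ ++ [y₁])) ++ (m₁ ++ [y₂])) z ∧ Conn E K x z} := by
      rintro z ⟨hz1, hz2⟩
      refine ⟨⟨?_, hz2.E'⟩, ?_, hz2.K'⟩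
      · rcases hz1 with hz1 | hz1
        · right; rwa [hE z]
        · left; exact hz1
      · by_cases hKz : K z = z
        · rw [hKz]; exact hz1
        · rw [← hKX z hKz]
          have h6 := hw.cross hE hX (l := (pre ++ (l₁ ++ [y₁])) ++ m₁) (y := y₂)
            (l₂ := b₂ :: m₂) (by rw [e3]; simp) (z := z) (by
              rw [List.append_assoc]; exact hz1) (by
              rintro rfl
              exact hnc hz2)
          rwa [List.append_assoc] at h6
    have h6 := hcI _ hcl ⟨hlx, Conn.refl' x⟩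
    have h7 : Psd E X ((pre ++ (l₁ ++ [y₁])) ++ (m₁ ++ [y₂])) (I x) := Or.inl h6.1
    rw [psd1 hw hE hX hUX e2 h5 hIU] at h7
    rcases h7 with h7 | h7 | h7
    · exact hnp1 h7
    · apply hnc
      show Conn E K x (E y₂)
      rw [← h7]
      exact hcI
    · have : I x = b₂ := by rw [← hb2, show a₂ = X (I x) from h7.symm, hX]
      rw [this] at h6
      exact nb2 h6.1
  have hcx2 : Conn E K x x₂ := by
    rcases hx2 with rfl | rfl
    · exact hca
    · have h6 := (hD.opened _ hx2U).1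
      have h7 : K x₂ = a₂ := by rw [← hKX _ h6, hb2']
      have h8 := hca.K'
      rwa [← h7, hK] at h8
  have hx2x : x₂ ≠ x := by
    rintro rfl
    have h6 : Psd E X (pre ++ (l₁ ++ [y₁])) x₂ := by
      rcases hx with h6 | h6
      · left; rw [h6]; exact hla
      · right; rw [h6, hb']; exact hla
    have n1 : ¬ Lab E (pre ++ (l₁ ++ [y₁])) a₂ := fun h7 =>
      hw.disj hE e2 h7 (Or.inr (by rw [ha2, hE]; simp))
    have n2 : ¬ Lab E (pre ++ (l₁ ++ [y₁])) b₂ := fun h7 =>
      hw.disj hE e2 h7 (Or.inl (by simp))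
    rcases h6 with h6 | h6 <;> rcases hx2 with h7 | h7
    · rw [h7] at h6; exact n1 h6
    · rw [h7] at h6; exact n2 h6
    · rw [h7, ha2, hb2] at h6; exact n2 h6
    · rw [h7, hb2'] at h6; exact n1 h6
  have hIx2 : x₂ = I x := by
    obtain ⟨hI2U, hII2, hIx2⟩ := hD.invI x₂ hx2U
    -- the first labels
    have key : ∀ p ∈ U, ∀ p₂ ∈ U, P p → P p₂ → Conn E K p p₂ → p = p₂ := hD.one
    have c1 : Conn E K (I x) x := hcI.symm' hE hK
    have c2 : Conn E K x₂ (I x₂) := hD.body x₂ hx2U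
    by_cases hP : P x
    · by_cases hP2 : P x₂
      · exact absurd (key x hxU x₂ hx2U hP hP2 hcx2).symm hx2x
      · have hP2' : P (I x₂) := by
          by_contra h6
          exact hP2 ((hD.first x₂ hx2U).2 h6)
        have := key x hxU (I x₂) hI2U hP hP2' (hcx2.trans' c2)
        rw [this, hII2]
    · have hP' : P (I x) := by
        by_contra h6
        exact hP ((hD.first x hxU).2 h6)
      by_cases hP2 : P x₂
      · exact (key (I x) hIU x₂ hx2U hP' hP2 (c1.trans' hcx2)).symm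
      · have hP2' : P (I x₂) := by
          by_contra h6
          exact hP2 ((hD.first x₂ hx2U).2 h6)
        have := key (I x) hIU (I x₂) hI2U hP' hP2' (c1.trans' (hcx2.trans' c2))
        exfalso
        apply hx2x
        rw [← hII2, ← this, hII]
  refine ⟨b, y₂, b₂, m₁, m₂, x, by rw [h3], h5, hb, hr, hb2, hxU, hx, ?_, ?_, hxX, ?_⟩
  · rw [← hIx2]
    exact hx2
  · -- interior adjacencies
    intro w hwm
    by_contra hne
    have hKw : K (E w) = E w := by
      by_contra h6
      exact hne (hKX _ h6).symm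
    obtain ⟨q₁, q₂, rfl⟩ := List.append_of_mem hwm
    have e4 : us = ((pre ++ (l₁ ++ [y₁])) ++ q₁) ++ w :: (q₂ ++ y₂ :: b₂ :: m₂) := by
      rw [e2]; simp
    have e4' : us = ((pre ++ (l₁ ++ [y₁])) ++ (q₁ ++ [w])) ++ (q₂ ++ y₂ :: b₂ :: m₂) := by
      rw [e2]; simp
    have hcl : Cl E K {z | Lab E ((pre ++ (l₁ ++ [y₁])) ++ (q₁ ++ [w])) z} := by
      intro z hz
      constructor
      · rcases hz with hz | hz
        · show Lab E _ (E z)
          right; rwa [hE z]
        · left; exact hz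
      · show Lab E _ (K z)
        by_cases hKz : K z = z
        · rw [hKz]; exact hz
        · rw [← hKX z hKz]
          have h6 := hw.cross hE hX (l := (pre ++ (l₁ ++ [y₁])) ++ q₁) (y := w) e4 (z := z) (by
              rw [List.append_assoc]; exact hz) (by
              rintro rfl
              exact hKz hKw)
          rwa [List.append_assoc] at h6
    have hbq : Lab E (q₁ ++ [w]) b := by
      left
      obtain ⟨r, hr⟩ := hr
      cases q₁ with
      | nil =>
        simp only [List.nil_append, List.cons_append, List.cons.injEq] at hr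
        simp [hr.1]
      | cons c q₁ =>
        simp only [List.cons_append, List.cons.injEq] at hr
        simp [hr.1]
    have hlx' : Lab E ((pre ++ (l₁ ++ [y₁])) ++ (q₁ ++ [w])) x := by
      rcases hx with rfl | rfl
      · exact Lab_append.2 (Or.inl hla)
      · exact Lab_append.2 (Or.inr hbq)
    have h6 : Lab E ((pre ++ (l₁ ++ [y₁])) ++ (q₁ ++ [w])) (I x) := hcI _ hcl hlx'
    rw [← hIx2] at h6
    rcases hx2 with h7 | h7
    · rw [h7] at h6
      exact hw.disj hE e4' h6 (Or.inr (by rw [ha2, hE]; simp))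
    · rw [h7] at h6
      exact hw.disj hE e4' h6 (Or.inl (by simp))
  · intro z hz
    rw [← hIx2]
    have hKx2 := (hD.opened x₂ hx2U).1
    have hXx2 : X x₂ = K x₂ := hKX x₂ hKx2
    constructor
    · intro hzz
      by_contra hne
      have : X x₂ = z := by
        rcases hx2 with rfl | rfl <;> rcases hzz with rfl | rfl
        · exact absurd rfl hne
        · exact hb2
        · exact hb2'
        · exact absurd rfl hne
      rw [hXx2] at this
      exact (hD.opened x₂ hx2U).2 (this ▸ hz)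
    · rintro rfl
      exact hx2

end two

end BP2
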