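import Pool.Agent.BP2.M.Init2

set_option autoImplicit false

/-!
# MP_475aca_co, part (M), M4: the structured stack of a local transition, result
-/

namespace BP2

open Lt Function

variable {α : Type*}

section three

variable {E X I K : α → α} {us : List α} {U : Set α} {P : α → Prop} {ty : α → Bool} {f : α}

/-- `Z` is a possible target of the local transition -/
def TgtL (I X : α → α) (U : Set α) (Z : α → α) : Prop :=
  (∀ x ∈ U, Z x = I x) ∧ (∀ z, z ∉ U → X z ∉ U → Z z = X z)

open Classical in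
/-- the letter of a unit -/
lemma unit_letter (hE : Involutive E) (hX : Involutive X)
    (hD : LocData E I K U P) (hKX : ∀ x, K x ≠ x → X x = K x)
    (hty : ∀ z ∈ OutL K U P, ty z = true)
    {a b a₂ b₂ x : α} {m : List α} {y₂ : α} (hy2 : a₂ = E y₂)
    (hab : X a = b) (hab2 : X a₂ = b₂) (hxU : x ∈ U) (hx : x = a ∨ x = b)
    (hIx : I x = a₂ ∨ I x = b₂) (hr : ∃ r, m ++ [y₂] = b :: r)
    (hch : ∀ l₁ c d l₂, m ++ [y₂] = l₁ ++ c :: d :: l₂ → X (E c) = d)
    (hm : ∀ w ∈ m, ¬ Dl X U (E w)) (hmK : ∀ w ∈ m, K (E w) = X (E w))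
    (h1 : ∀ z ∈ U, (z = a ∨ z = b ↔ z = x)) (h2 : ∀ z ∈ U, (z = a₂ ∨ z = b₂ ↔ z = I x)) :
    ∃ lt : Lt α, (∀ Z : α → α, TgtL I X U Z → Jn E Z (Wr ty) 1 a lt b₂ (fl E (m ++ [y₂]))) ∧
      Lok I K U P lt ∧
      (Lt.labels lt).Sublist [a, b, a₂, b₂] ∧ (X x = lt.ent ∨ X x = lt.lv) ∧
      (X (I x) = lt.ent ∨ X (I x) = lt.lv) := by
  have hK : Involutive K := hD.invK
  obtain ⟨hIU, hII, hIne⟩ := hD.invI x hxU
  have hKx := (hD.opened x hxU).1
  have hKI := (hD.opened _ hIU).1
  have hXx : X x = K x := hKX x hKx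
  have hXI : X (I x) = K (I x) := hKX _ hKI
  have hba : X b = a := by rw [← hab, hX]
  have hba2 : X b₂ = a₂ := by rw [← hab2, hX]
  obtain ⟨r, hr⟩ := hr
  -- the block between the two gaps
  have hBZ : ∀ Z : α → α, TgtL I X U Z → Bk E Z b a₂ (fl E (m ++ [y₂])) := by
    intro Z hZ
    rw [hy2]
    refine bk_of m y₂ b r hr hch fun w hw => hZ.2 _ ?_ ?_
    · exact fun h => hm w hw (Or.inl h)
    · exact fun h => hm w hw (Or.inr h)
  have hBc : ∀ p ∈ U, Conn E (cut K p) b a₂ := by
    intro p hp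
    have : Bk E (cut K p) b a₂ (fl E (m ++ [y₂])) := by
      rw [hy2]
      refine bk_of m y₂ b r hr hch fun w hw => ?_
      have e1 : ¬ (E w = p ∨ E w = K p) := by
        rintro (e | e)
        · exact hm w hw (Or.inl (by rw [e]; exact hp))
        · refine hm w hw (Or.inr ?_)
          rw [e, ← hKX p (hD.opened p hp).1, hX]
          exact hp
      unfold cut
      rw [if_neg e1]
      exact hmK w hw
    exact this.conn
  have hPor : P x ∨ (¬ P x ∧ P (I x)) := by
    by_cases h : P x
    · exact Or.inl h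
    · refine Or.inr ⟨h, ?_⟩
      by_contra h'
      exact h ((hD.first x hxU).2 h')
  have hcs : ∀ p, Involutive (cut K p) := init_cut_invol hK
  rcases hx with hxa | hxb
  · have hKa : K a = b := by rw [← hab, ← hxa]; exact hXx.symm
    have hKb : K b = a := by rw [← hKa, hK]
    rcases hIx with hI2 | hI2
    · have hKa2 : K a₂ = b₂ := by rw [← hab2, ← hI2]; exact hXI.symm
      have hKb2 : K b₂ = a₂ := by rw [← hKa2, hK]
      rcases hPor with hP | ⟨hP, hP'⟩
      · -- T3, right
        have hout : b ∈ OutL K U P := by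
          refine ⟨?_, ?_⟩
          · rw [hKb, ← hxa]; exact hxU
          · rw [hKb, ← hxa]; exact hP
        have hin : b₂ ∈ InL I K U P := by
          refine ⟨?_, ?_⟩
          · rw [hKb2, ← hI2]; exact hIU
          · rw [hKb2, ← hI2, hII]; exact hP
        refine ⟨gap b b₂, fun Z hZ => Jn.tr (hBZ Z hZ) ?_ ?_, ⟨Or.inr ⟨hin, hout⟩, ?_⟩, ?_, ?_, ?_⟩
        · rw [← hxa, hZ.1 x hxU, hI2]
        · exact hty b hout
        · intro a' u' l' b' h; cases h
        · simp only [Lt.labels]
          exact ((List.Sublist.refl [b₂]).cons a₂ |>.cons_cons b).cons a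
        · right; rw [hxa, hab]; rfl
        · left; rw [hI2, hab2]; rfl
      · exfalso
        have hs := hD.side (I x) hIU hP'
        rw [hII, hI2, hxa] at hs
        apply hs
        have c1 := (hBc a₂ (by rw [← hI2]; exact hIU)).symm' hE (hcs a₂)
        have c2 := c1.K'
        have e1 : cut K a₂ b = a := by
          have : ¬ (b = a₂ ∨ b = K a₂) := by
            rw [hKa2]
            rintro (e | e)
            · rw [← hI2] at e
              exact hIne ((h1 (I x) hIU).1 (Or.inr e.symm))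
            · have : a = a₂ := by rw [← hba, e, hba2]
              rw [← hI2, ← hxa] at this
              exact hIne this.symm
          unfold cut
          rw [if_neg this, hKb]
        rwa [e1] at c2
    · have hKb2 : K b₂ = a₂ := by rw [← hba2, ← hI2]; exact hXI.symm
      have hKa2 : K a₂ = b₂ := by rw [← hKb2, hK]
      -- marker
      refine ⟨mk a b a₂ b₂, fun Z hZ => Jn.mk (hBZ Z hZ) ?_, ⟨?_, ?_⟩, List.Sublist.refl _, ?_, ?_⟩
      · rw [← hxa, hZ.1 x hxU, hI2]
      · rcases hPor with hP | ⟨hP, hP'⟩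
        · left
          refine ⟨⟨?_, ?_⟩, ⟨?_, ?_⟩⟩
          · show K b ∈ U; rw [hKb, ← hxa]; exact hxU
          · show P (K b); rw [hKb, ← hxa]; exact hP
          · show K a₂ ∈ U; rw [hKa2, ← hI2]; exact hIU
          · show P (I (K a₂)); rw [hKa2, ← hI2, hII]; exact hP
        · right
          refine ⟨⟨?_, ?_⟩, ⟨?_, ?_⟩⟩
          · show K b ∈ U; rw [hKb, ← hxa]; exact hxU
          · show P (I (K b)); rw [hKb, ← hxa]; exact hP'
          · show K a₂ ∈ U; rw [hKa2, ← hI2]; exact hIU
          · show P (K a₂); rw [hKa2, ← hI2]; exact hP'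
      · intro a' u' l' b' h
        simp only [Lt.mk.injEq] at h
        obtain ⟨rfl, _, _, rfl⟩ := h
        exact ⟨by rw [← hxa]; exact hxU, by rw [← hxa]; exact hI2⟩
      · left; rw [hxa, hab]; rfl
      · right; rw [hI2, hba2]; rfl
  · have hKb : K b = a := by rw [← hba, ← hxb]; exact hXx.symm
    have hKa : K a = b := by rw [← hKb, hK]
    rcases hIx with hI2 | hI2
    · exfalso
      rcases hPor with hP | ⟨hP, hP'⟩
      · have hs := hD.side x hxU hP
        rw [hI2, hxb] at hs
        exact hs (hBc b (by rw [← hxb]; exact hxU))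
      · have hs := hD.side (I x) hIU hP'
        rw [hII, hI2, hxb] at hs
        exact hs ((hBc a₂ (by rw [← hI2]; exact hIU)).symm' hE (hcs a₂))
    · have hKb2 : K b₂ = a₂ := by rw [← hba2, ← hI2]; exact hXI.symm
      have hKa2 : K a₂ = b₂ := by rw [← hKb2, hK]
      rcases hPor with hP | ⟨hP, hP'⟩
      · exfalso
        have hs := hD.side x hxU hP
        rw [hI2, hxb] at hs
        apply hs
        have c2 := (hBc b (by rw [← hxb]; exact hxU)).K'
        have e1 : cut K b a₂ = b₂ := by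
          have : ¬ (a₂ = b ∨ a₂ = K b) := by
            rw [hKb]
            rintro (e | e)
            · have e' : x = a₂ := by rw [hxb, e]
              exact hIne ((h2 x hxU).1 (Or.inl e')).symm
            · have : b₂ = b := by rw [← hab2, e, hab]
              rw [← hI2, ← hxb] at this
              exact hIne this
          unfold cut
          rw [if_neg this, hKa2]
        rwa [e1] at c2
      · -- T3, wrong
        have hout : a₂ ∈ OutL K U P := by
          refine ⟨?_, ?_⟩
          · rw [hKa2, ← hI2]; exact hIU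
          · rw [hKa2, ← hI2]; exact hP'
        have hin : a ∈ InL I K U P := by
          refine ⟨?_, ?_⟩
          · rw [hKa, ← hxb]; exact hxU
          · rw [hKa, ← hxb]; exact hP'
        refine ⟨gap a a₂, fun Z hZ => Jn.tw (hBZ Z hZ) ?_ ?_, ⟨Or.inl ⟨hout, hin⟩, ?_⟩, ?_, ?_, ?_⟩
        · rw [← hI2, hZ.1 _ hIU, hII, hxb]
        · exact hty a₂ hout
        · intro a' u' l' b' h; cases h
        · simp only [Lt.labels]
          exact (((List.nil_sublist [b₂]).cons_cons a₂).cons b).cons_cons a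
        · right; rw [hxb, hba]; rfl
        · left; rw [hI2, hba2]; rfl

lemma fl_last_sublist (E : α → α) (l : List α) (y : α) : [E y].Sublist (fl E (l ++ [y])).tail := by
  cases l with
  | nil => simp [fl]
  | cons x l =>
    rw [List.cons_append, fl_cons, List.tail_cons, fl_append]
    have : [E y].Sublist (fl E [y]) := by simp [fl]
    exact (this.trans (List.sublist_append_right _ _)).cons _

lemma fl_two_sublist {E : α → α} {l : List α} {y b : α} {r : List α} (h : l ++ [y] = b :: r) :
    [b, E y].Sublist (fl E (l ++ [y])) := by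
  have h1 := fl_last_sublist E l y
  rw [h, fl_cons, List.tail_cons] at h1
  rw [h, fl_cons]
  exact h1.cons_cons b

/-- The structured stack of a local transition, from the label `v` to the floor. -/
theorem init_rec (hw : Wlk E X us) (hE : Involutive E) (hX : Involutive X)
    (hf : ∀ x, E x = x → x = f)
    (hD : LocData E I K U P) (hKX : ∀ x, K x ≠ x → X x = K x)
    (hty : ∀ z ∈ OutL K U P, ty z = true) (n : ℕ) : ∀ (pre : List α) (v : α) (suf : List α),
    suf.length ≤ n → us = pre ++ v :: suf → (∀ z ∈ U, (Psd E X pre z ↔ Psd E X pre (I z))) →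
    ∃ xs : List (Lt α),
      (∀ Z : α → α, TgtL I X U Z → Sg E Z (Wr ty) xs.length v xs f (fl E (v :: suf))) ∧
      (xs.flatMap Lt.labels).Sublist ((fl E (v :: suf)).tail.dropLast) ∧
      (∀ x ∈ xs, Lok I K U P x) ∧
      (∀ z ∈ U, ¬ Psd E X pre z → ∃ x ∈ xs, X z = x.ent ∨ X z = x.lv) := by
  have hUX : ∀ x ∈ U, X x ≠ x := fun x hx => by
    have := (hD.opened x hx).1
    rw [hKX x this]
    exact this
  have hCD : ∀ w, E w ≠ w → ¬ Cg E X U w → ¬ Dl X U (E w) := fun w h1 h2 h3 => h2 ⟨h1, h3⟩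
  have hDZ : ∀ Z : α → α, TgtL I X U Z → ∀ w, ¬ Dl X U (E w) → Z (E w) = X (E w) :=
    fun Z hZ w h => hZ.2 _ (fun h' => h (Or.inl h')) (fun h' => h (Or.inr h'))
  induction n using Nat.strong_induction_on with
  | _ n ih =>
  intro pre v suf hn hus hbal
  rcases first_split (Cg E X U) (v :: suf) with h1 | ⟨l₁, y₁, l₂, h1, h2, h3⟩
  · -- down to the floor
    rcases List.eq_nil_or_concat (v :: suf) with h4 | ⟨l, f', h4⟩
    · simp at h4
    rw [List.concat_eq_append] at h4
    have h5 : E f' = f' := hw.last (pre ++ l) f' (by rw [hus, h4]; simp)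
    have h6 : f' = f := hf f' h5
    refine ⟨[], ?_, by simp, by simp, ?_⟩
    · intro Z hZ
      have h7 : Bk E Z v (E f') (fl E (l ++ [f'])) := by
        refine bk_of (X := X) l f' v suf h4.symm ?_ ?_
        · intro q₁ c d q₂ hq
          exact hw.chain (pre ++ q₁) c d q₂ (by rw [hus, h4, hq]; simp)
        · intro w hwl
          obtain ⟨q₁, q₂, rfl⟩ := List.append_of_mem hwl
          apply hDZ Z hZ
          apply hCD
          · cases q₂ with
            | nil => exact hw.flr (pre ++ q₁) w f' [] (by rw [hus, h4]; simp)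
            | cons c q₂ => exact hw.flr (pre ++ q₁) w c (q₂ ++ [f']) (by rw [hus, h4]; simp)
          · exact h1 w (by rw [h4]; simp)
      rw [h5, h6] at h7
      rw [h4, h6]
      exact Sg.blk h7
    · intro z hz hnp
      exfalso
      apply hnp
      have h7 := hw.lab_all z
      rw [hus] at h7
      rcases Lab_append.1 h7 with h7 | h7
      · exact Or.inl h7
      · exact dlab2 hw hE hX hUX hus h1 (Or.inl hz) h7
  · have hus' : us = pre ++ (l₁ ++ y₁ :: l₂) := by rw [hus, h1]
    obtain ⟨b, y₂, b₂, m₁, m₂, x, e1, e2, e3, e4, e5, e6, e7, e8, e9, e10, e11⟩ :=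
      unit_scan hw hE hX hD hKX hus' hbal h2 h3
    subst e1
    have f1 : ∀ w ∈ m₁, ¬ Dl X U (E w) := by
      intro w hwm
      refine hCD w ?_ (e2 w hwm)
      obtain ⟨q₁, q₂, rfl⟩ := List.append_of_mem hwm
      cases q₂ with
      | nil => exact hw.flr (pre ++ (l₁ ++ y₁ :: q₁)) w y₂ (b₂ :: m₂) (by rw [hus']; simp)
      | cons c q₂ =>
        exact hw.flr (pre ++ (l₁ ++ y₁ :: q₁)) w c (q₂ ++ y₂ :: b₂ :: m₂) (by rw [hus']; simp)
    have f2 : ∀ q₁ c d q₂, m₁ ++ [y₂] = q₁ ++ c :: d :: q₂ → X (E c) = d := by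
      intro q₁ c d q₂ hq
      refine hw.chain (pre ++ (l₁ ++ y₁ :: q₁)) c d (q₂ ++ b₂ :: m₂) ?_
      have : m₁ ++ y₂ :: b₂ :: m₂ = (m₁ ++ [y₂]) ++ b₂ :: m₂ := by simp
      rw [hus', this, hq]
      simp
    obtain ⟨lt, g1, g2, g3, g4, g5⟩ := unit_letter hE hX hD hKX hty (a := E y₁) (b := b)
      (a₂ := E y₂) (b₂ := b₂) (m := m₁) (y₂ := y₂) rfl e3 e5 e6 e7 e8 e4 f2 f1 e9 e10 e11
    -- the first block
    have hv : ∃ r, l₁ ++ [y₁] = v :: r := by
      cases l₁ with
      | nil =>
        simp only [List.nil_append, List.cons.injEq] at h1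
        exact ⟨[], by rw [h1.1]; rfl⟩
      | cons c l₁ =>
        simp only [List.cons_append, List.cons.injEq] at h1
        exact ⟨l₁ ++ [y₁], by rw [h1.1]; rfl⟩
    obtain ⟨r, hr⟩ := hv
    have hB1 : ∀ Z : α → α, TgtL I X U Z → Bk E Z v (E y₁) (fl E (l₁ ++ [y₁])) := by
      intro Z hZ
      refine bk_of (X := X) l₁ y₁ v r hr ?_ ?_
      · intro q₁ c d q₂ hq
        refine hw.chain (pre ++ q₁) c d (q₂ ++ (m₁ ++ y₂ :: b₂ :: m₂)) ?_
        have : l₁ ++ y₁ :: (m₁ ++ y₂ :: b₂ :: m₂) = (l₁ ++ [y₁]) ++ (m₁ ++ y₂ :: b₂ :: m₂) := by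
          simp
        rw [hus', this, hq]
        simp
      · intro w hwl
        apply hDZ Z hZ
        refine hCD w ?_ (h3 w hwl)
        obtain ⟨q₁, q₂, rfl⟩ := List.append_of_mem hwl
        cases q₂ with
        | nil => exact hw.flr (pre ++ q₁) w y₁ (m₁ ++ y₂ :: b₂ :: m₂) (by rw [hus']; simp)
        | cons c q₂ =>
          exact hw.flr (pre ++ q₁) w c (q₂ ++ y₁ :: (m₁ ++ y₂ :: b₂ :: m₂)) (by rw [hus']; simp)
    -- the rest
    have hus2 : us = (pre ++ (l₁ ++ [y₁])) ++ (m₁ ++ y₂ :: (b₂ :: m₂)) := by rw [hus']; simp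
    have hus3 : us = ((pre ++ (l₁ ++ [y₁])) ++ (m₁ ++ [y₂])) ++ b₂ :: m₂ := by rw [hus']; simp
    have hps : ∀ z ∈ U, (Psd E X ((pre ++ (l₁ ++ [y₁])) ++ (m₁ ++ [y₂])) z ↔
        Psd E X pre z ∨ z = x ∨ z = I x) := by
      intro z hz
      have k1 : (z = E y₁ ∨ X z = E y₁) ↔ z = x := by
        rw [← e10 z hz]
        constructor
        · rintro (h | h)
          · exact Or.inl h
          · exact Or.inr (by rw [← e3, ← h, hX])
        · rintro (h | h)
          · exact Or.inl h
          · exact Or.inr (by rw [h, ← e3, hX])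
      have k2 : (z = E y₂ ∨ X z = E y₂) ↔ z = I x := by
        rw [← e11 z hz]
        constructor
        · rintro (h | h)
          · exact Or.inl h
          · exact Or.inr (by rw [← e5, ← h, hX])
        · rintro (h | h)
          · exact Or.inl h
          · exact Or.inr (by rw [h, ← e5, hX])
      rw [psd1 hw hE hX hUX hus2 e2 hz, psd1 hw hE hX hUX hus' h3 hz, k1, k2]
      exact or_assoc
    have hII : ∀ z ∈ U, I (I z) = z := fun z hz => (hD.invI z hz).2.1
    have hbal' : ∀ z ∈ U, (Psd E X ((pre ++ (l₁ ++ [y₁])) ++ (m₁ ++ [y₂])) z ↔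
        Psd E X ((pre ++ (l₁ ++ [y₁])) ++ (m₁ ++ [y₂])) (I z)) := by
      intro z hz
      rw [hps z hz, hps (I z) (hD.invI z hz).1, hbal z hz]
      have k1 : z = x ↔ I z = I x := ⟨fun h => by rw [h], fun h => by
        rw [← hII z hz, h, hII x e6]⟩
      have k2 : z = I x ↔ I z = x := ⟨fun h => by rw [h, hII x e6], fun h => by
        rw [← h, hII z hz]⟩
      rw [k1, k2]
      exact or_congr Iff.rfl or_comm
    have hlen : m₂.length < n := by
      have : suf.length + 1 = l₁.length + (1 + (m₁.length + (1 + (1 + m₂.length)))) := by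
        have := congrArg List.length h1
        simp only [List.length_cons, List.length_append] at this
        omega
      omega
    obtain ⟨xs, s1, s2, s3, s4⟩ := ih m₂.length hlen _ b₂ m₂ le_rfl hus3 hbal'
    refine ⟨lt :: xs, ?_, ?_, ?_, ?_⟩
    · intro Z hZ
      have h7 := Sg.jn (Sg.blk (W := Wr ty) (hB1 Z hZ)) (g1 Z hZ) (s1 Z hZ)
      have h8 : fl E (v :: suf) = fl E (l₁ ++ [y₁]) ++ (fl E (m₁ ++ [y₂]) ++ fl E (b₂ :: m₂)) := by
        rw [h1, ← fl_append, ← fl_append]
        congr 1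
        simp
      rw [h8]
      have h9 : 0 + 1 + xs.length = (lt :: xs).length := by
        rw [List.length_cons]; omega
      rw [← h9]
      simpa using h7
    · have h8 : fl E (v :: suf) = fl E (l₁ ++ [y₁]) ++ (fl E (m₁ ++ [y₂]) ++ fl E (b₂ :: m₂)) := by
        rw [h1, ← fl_append, ← fl_append]
        congr 1
        simp
      have h9 := fl_last_sublist E l₁ y₁
      have h10 := fl_two_sublist (E := E) (y := y₂) (l := m₁) (b := b) e4.choose_spec
      rw [h8, hr, fl_cons, List.cons_append, List.tail_cons]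
      rw [hr, fl_cons, List.tail_cons] at h9
      rw [fl_cons, List.tail_cons] at s2
      rw [fl_cons E b₂ m₂]
      have h11 : (E v :: fl E r ++ (fl E (m₁ ++ [y₂]) ++ b₂ :: E b₂ :: fl E m₂)).dropLast =
          (E v :: fl E r) ++ (fl E (m₁ ++ [y₂]) ++ b₂ :: (E b₂ :: fl E m₂).dropLast) := by
        rw [List.dropLast_append_of_ne_nil (by simp), List.dropLast_append_of_ne_nil (by simp)]
        rfl
      rw [h11, List.flatMap_cons]
      refine (g3.append s2).trans ?_
      have h12 : [E y₁, b, E y₂, b₂] ++ (E b₂ :: fl E m₂).dropLast =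
          [E y₁] ++ ([b, E y₂] ++ b₂ :: (E b₂ :: fl E m₂).dropLast) := by simp
      rw [h12]
      exact h9.append (h10.append (List.Sublist.refl _))
    · intro z hz
      rcases List.mem_cons.1 hz with rfl | hz
      · exact g2
      · exact s3 z hz
    · intro z hz hnp
      by_cases h7 : Psd E X ((pre ++ (l₁ ++ [y₁])) ++ (m₁ ++ [y₂])) z
      · rw [hps z hz] at h7
        rcases h7 with h7 | h7 | h7
        · exact absurd h7 hnp
        · exact ⟨lt, by simp, by rw [h7]; exact g4⟩
        · exact ⟨lt, by simp, by rw [h7]; exact g5⟩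
      · obtain ⟨x', hx', h8⟩ := s4 z hz h7
        exact ⟨x', List.mem_cons_of_mem _ hx', h8⟩

end three

end BP2
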