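import Pool.Agent.BP2.MComp
import Pool.Agent.BP2.Interface

set_option autoImplicit false

/-!
# MP_475aca_co, part (M), M2: the entropy of a level

`E` block mates, `K` rigid adjacencies before the level, `K'` rigid adjacencies after the level
(involutions of the set `L` of labels, a fixed point of `K` is a loose label).

* `conn_iff_eqvGen` : `Conn E K` is the equivalence relation generated by `E`, `K`;
* `acyc_two_ncomp_le` : without circles `2 * #components(E u K) ≤ #Fix E + #Fix K`;
* `ncomp_far` : if the labels `N` of the new adjacencies lie in pairwise distinct components of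
  `E u K`, then `2 * #components(E u K u K') + #N ≤ 2 * #components(E u K)`;
* `card_level_le` : the pairs (slot map of the arrangement before, arrangement after) with a given
  transition `th` (the arrangement after, read in the slots) are at most
  `m ^ #components(E u K u K')`;
* `Sched.two_ncomp_far` : `2 * #components(E u K_t u K_(t+1)) + #{x | b x = t + 1} ≤ 1 + #Fix K_t`.
-/

namespace BP2

open Finset

variable {L : Type*}

/-- the graph of two involutions -/
def gr (E K : L → L) (x y : L) : Prop := y = E x ∨ y = K x

/-- the graph of three involutions -/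
def gr3 (E K K' : L → L) (x y : L) : Prop := y = E x ∨ y = K x ∨ y = K' x

theorem conn_iff_eqvGen {E K : L → L} (hE : Function.Involutive E) (hK : Function.Involutive K)
    (x y : L) : Conn E K x y ↔ Relation.EqvGen (gr E K) x y := by
  constructor
  · intro h
    refine h {z | Relation.EqvGen (gr E K) x z} ?_ (Relation.EqvGen.refl x)
    intro z hz
    exact ⟨hz.trans _ _ _ (Relation.EqvGen.rel _ _ (Or.inl rfl)),
      hz.trans _ _ _ (Relation.EqvGen.rel _ _ (Or.inr rfl))⟩
  · intro h C hC hx
    have key : ∀ a b, Relation.EqvGen (gr E K) a b → (a ∈ C ↔ b ∈ C) := by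
      intro a b hab
      induction hab with
      | rel a b hab =>
        rcases hab with rfl | rfl
        · exact ⟨fun h => (hC a h).1, fun h => by have := (hC _ h).1; rwa [hE] at this⟩
        · exact ⟨fun h => (hC a h).2, fun h => by have := (hC _ h).2; rwa [hK] at this⟩
      | refl a => exact Iff.rfl
      | symm a b _ ih => exact ih.symm
      | trans a b c _ _ ih1 ih2 => exact ih1.trans ih2
    exact (key x y h).1 hx

/-- an involution of a finite set: the number of the fixed points has the parity of the set -/
theorem card_fix_parity [DecidableEq L] {f : L → L} (hf : Function.Involutive f) (C : Finset L)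
    (hC : ∀ x ∈ C, f x ∈ C) : (C.filter fun x => f x = x).card % 2 = C.card % 2 := by
  have h := Finset.card_filter_add_card_filter_not (s := C) (fun x => f x = x)
  have h2 : ∑ _x ∈ C.filter (fun x => ¬ f x = x), (1 : ZMod 2) = 0 := by
    refine Finset.sum_involution (fun x _ => f x) ?_ ?_ ?_ ?_
    · intro a _
      decide
    · intro a ha _
      exact (mem_filter.1 ha).2
    · intro a ha
      obtain ⟨h1, h2⟩ := mem_filter.1 ha
      exact mem_filter.2 ⟨hC a h1, fun h3 => h2 (by rw [hf] at h3; exact h3.symm)⟩
    · intro a _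
      exact hf a
  rw [Finset.sum_const, nsmul_eq_mul, mul_one, ZMod.natCast_eq_zero_iff] at h2
  omega

/-- twice the number of the components is at most the number of the ends -/
theorem acyc_two_ncomp_le [Fintype L] [DecidableEq L] {E K : L → L} (hE : Function.Involutive E)
    (hK : Function.Involutive K) (h : Acyc E K) :
    2 * ncomp (gr E K) ≤ (univ.filter fun x => E x = x).card +
      (univ.filter fun x => K x = x).card := by
  classical
  set Q := Quotient (Relation.EqvGen.setoid (gr E K)) with hQ
  let mk : L → Q := fun x => Quotient.mk (Relation.EqvGen.setoid (gr E K)) x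
  have hmkE : ∀ x, mk (E x) = mk x := fun x =>
    Quotient.sound (Relation.EqvGen.symm _ _ (Relation.EqvGen.rel _ _ (Or.inl rfl)))
  have hmkK : ∀ x, mk (K x) = mk x := fun x =>
    Quotient.sound (Relation.EqvGen.symm _ _ (Relation.EqvGen.rel _ _ (Or.inr rfl)))
  have hn : ncomp (gr E K) = (univ : Finset Q).card := by
    unfold ncomp
    rw [card_univ]
  have h1 : (univ.filter fun x => E x = x).card =
      ∑ q : Q, ((univ.filter fun x => E x = x).filter fun x => mk x = q).card :=
    Finset.card_eq_sum_card_fiberwise (fun _ _ => mem_univ _)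
  have h2 : (univ.filter fun x => K x = x).card =
      ∑ q : Q, ((univ.filter fun x => K x = x).filter fun x => mk x = q).card :=
    Finset.card_eq_sum_card_fiberwise (fun _ _ => mem_univ _)
  rw [hn, h1, h2, ← Finset.sum_add_distrib, mul_comm, ← smul_eq_mul, ← Finset.sum_const]
  refine Finset.sum_le_sum fun q _ => ?_
  -- one component
  set C : Finset L := univ.filter fun x => mk x = q with hC
  have hCE : ∀ x ∈ C, E x ∈ C := fun x hx => by
    rw [hC, mem_filter] at hx ⊢
    exact ⟨mem_univ _, by rw [hmkE]; exact hx.2⟩
  have hCK : ∀ x ∈ C, K x ∈ C := fun x hx => by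
    rw [hC, mem_filter] at hx ⊢
    exact ⟨mem_univ _, by rw [hmkK]; exact hx.2⟩
  have hne : (C : Set L).Nonempty := by
    obtain ⟨x, hx⟩ := Quotient.exists_rep q
    exact ⟨x, by rw [mem_coe, hC, mem_filter]; exact ⟨mem_univ _, hx⟩⟩
  have e1 : ((univ.filter fun x => E x = x).filter fun x => mk x = q) =
      C.filter fun x => E x = x := by
    rw [hC, filter_filter, filter_filter]
    exact filter_congr fun x _ => and_comm
  have e2 : ((univ.filter fun x => K x = x).filter fun x => mk x = q) =
      C.filter fun x => K x = x := by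
    rw [hC, filter_filter, filter_filter]
    exact filter_congr fun x _ => and_comm
  rw [e1, e2]
  have p1 := card_fix_parity hE C hCE
  have p2 := card_fix_parity hK C hCK
  obtain ⟨x, hx, hx'⟩ := h C (fun x hx => ⟨hCE x hx, hCK x hx⟩) hne
  rw [mem_coe] at hx
  have p3 : 0 < (C.filter fun x => E x = x).card + (C.filter fun x => K x = x).card := by
    rcases hx' with hx' | hx'
    · have : 0 < (C.filter fun x => E x = x).card := card_pos.2 ⟨x, mem_filter.2 ⟨hx, hx'⟩⟩
      omega
    · have : 0 < (C.filter fun x => K x = x).card := card_pos.2 ⟨x, mem_filter.2 ⟨hx, hx'⟩⟩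
      omega
  omega

/-- the labels `N` of the new adjacencies (`N` is closed under `K'`, no fixed points, every label
outside `N` keeps its adjacency or becomes loose) lie in pairwise distinct components -/
theorem ncomp_far [Fintype L] [DecidableEq L] {E K K' : L → L} (hK' : Function.Involutive K')
    (N : Finset L) (hN : ∀ x ∈ N, K' x ∈ N) (hN' : ∀ x ∈ N, K' x ≠ x)
    (hd : ∀ x ∈ N, ∀ y ∈ N, Relation.EqvGen (gr E K) x y → x = y) :
    2 * ncomp (gr3 E K K') + N.card ≤ 2 * ncomp (gr E K) := by
  classical
  set Q := Quotient (Relation.EqvGen.setoid (gr E K)) with hQ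
  set Q3 := Quotient (Relation.EqvGen.setoid (gr3 E K K')) with hQ3
  let mk : L → Q := fun x => Quotient.mk (Relation.EqvGen.setoid (gr E K)) x
  let mk3 : L → Q3 := fun x => Quotient.mk (Relation.EqvGen.setoid (gr3 E K K')) x
  have hn : ncomp (gr E K) = (univ : Finset Q).card := by
    unfold ncomp
    rw [card_univ]
  have hn3 : ncomp (gr3 E K K') = (univ : Finset Q3).card := by
    unfold ncomp
    rw [card_univ]
  have hle : ∀ x y, Relation.EqvGen (gr E K) x y → Relation.EqvGen (gr3 E K K') x y := by
    intro x y hxy
    induction hxy with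
    | rel a b hab =>
      rcases hab with h | h
      · exact Relation.EqvGen.rel _ _ (Or.inl h)
      · exact Relation.EqvGen.rel _ _ (Or.inr (Or.inl h))
    | refl a => exact Relation.EqvGen.refl a
    | symm a b _ ih => exact ih.symm
    | trans a b c _ _ ih1 ih2 => exact ih1.trans _ _ _ ih2
  let π : Q → Q3 := Quotient.lift mk3 (fun a b hab => Quotient.sound (hle a b hab))
  have hπ : ∀ x, π (mk x) = mk3 x := fun x => rfl
  -- the components of the labels in `N`
  have hmk : Set.InjOn mk (N : Set L) := fun x hx y hy h => hd x hx y hy (Quotient.exact h)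
  set T : Finset Q3 := N.image mk3 with hT
  -- every class in `T` has at least two preimages, every other class at least one
  have hpre : ∀ q : Q3, 1 ≤ (univ.filter fun p : Q => π p = q).card := by
    intro q
    obtain ⟨x, hx⟩ := Quotient.exists_rep q
    exact card_pos.2 ⟨mk x, mem_filter.2 ⟨mem_univ _, by rw [hπ]; exact hx⟩⟩
  have hpreN : ∀ q : Q3, (N.filter fun x => mk3 x = q).card ≤
      (univ.filter fun p : Q => π p = q).card := by
    intro q
    refine Finset.card_le_card_of_injOn mk ?_ ?_
    · intro x hx
      rw [mem_coe, mem_filter] at hx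
      rw [mem_coe, mem_filter]
      exact ⟨mem_univ _, by rw [hπ]; exact hx.2⟩
    · intro x hx y hy h
      rw [mem_coe, mem_filter] at hx hy
      exact hmk hx.1 hy.1 h
  have hmk3 : ∀ x, mk3 (K' x) = mk3 x := fun x => Quotient.sound
    (Relation.EqvGen.symm _ _ (Relation.EqvGen.rel _ _ (Or.inr (Or.inr rfl))))
  have hev : ∀ q : Q3, (N.filter fun x => mk3 x = q).card % 2 = 0 := by
    intro q
    have h1 := card_fix_parity hK' (N.filter fun x => mk3 x = q) (fun x hx => by
      rw [mem_filter] at hx ⊢
      exact ⟨hN x hx.1, by rw [hmk3]; exact hx.2⟩)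
    rw [← h1]
    have h2 : ((N.filter fun x => mk3 x = q).filter fun x => K' x = x) = ∅ := by
      rw [filter_eq_empty_iff]
      intro x hx
      exact hN' x (mem_filter.1 hx).1
    rw [h2, card_empty]
  have hq : ∀ q : Q3, 2 + (N.filter fun x => mk3 x = q).card ≤
      2 * (univ.filter fun p : Q => π p = q).card := by
    intro q
    have h1 := hpre q
    have h2 := hpreN q
    have h3 := hev q
    omega
  have s1 : N.card = ∑ q : Q3, (N.filter fun x => mk3 x = q).card :=
    Finset.card_eq_sum_card_fiberwise (fun _ _ => mem_univ _)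
  have s2 : (univ : Finset Q).card = ∑ q : Q3, (univ.filter fun p : Q => π p = q).card :=
    Finset.card_eq_sum_card_fiberwise (fun _ _ => mem_univ _)
  rw [hn, hn3, s1, s2, Finset.mul_sum]
  have s3 : 2 * (univ : Finset Q3).card = ∑ _q : Q3, 2 := by
    rw [Finset.sum_const, smul_eq_mul, mul_comm]
  rw [s3, ← Finset.sum_add_distrib]
  exact Finset.sum_le_sum fun q _ => hq q

/-- more edges, fewer components -/
theorem ncomp_gr3_le [Fintype L] {E K K' : L → L} : ncomp (gr3 E K K') ≤ ncomp (gr E K') := by
  classical
  have hRS : ∀ x y, Relation.EqvGen (gr E K') x y → Relation.EqvGen (gr3 E K K') x y := by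
    intro x y hxy
    induction hxy with
    | rel a b hab =>
      rcases hab with h | h
      · exact Relation.EqvGen.rel _ _ (Or.inl h)
      · exact Relation.EqvGen.rel _ _ (Or.inr (Or.inr h))
    | refl a => exact Relation.EqvGen.refl a
    | symm a b _ ih => exact ih.symm
    | trans a b c _ _ ih1 ih2 => exact ih1.trans _ _ _ ih2
  rw [ncomp_eq_natCard, ncomp_eq_natCard]
  refine Nat.card_le_card_of_surjective
    (Quotient.lift (fun x => Quotient.mk (Relation.EqvGen.setoid (gr3 E K K')) x)
      (fun a b hab => Quotient.sound (hRS a b hab))) ?_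
  intro q
  obtain ⟨x, hx⟩ := Quotient.exists_rep q
  exact ⟨Quotient.mk _ x, hx⟩

/-- the pairs (slot map before, arrangement after) with a given transition -/
theorem card_level_le [Fintype L] [DecidableEq L] {m : ℕ} {E K K' : L → L}
    (hE : Function.Involutive E) (hK : Function.Involutive K) (hK' : Function.Involutive K')
    (e y th : Fin m → Fin m) (S : Finset ((L → Fin m) × (L → L)))
    (h0 : ∀ s ∈ S, Function.Injective s.1)
    (h1 : ∀ s ∈ S, ∀ x, s.1 (E x) = e (s.1 x))
    (h2 : ∀ s ∈ S, ∀ x, K x ≠ x → s.1 (K x) = y (s.1 x))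
    (h3 : ∀ s ∈ S, ∀ x, K' x ≠ x → s.2 x = K' x)
    (h4 : ∀ s ∈ S, ∀ x, s.1 (s.2 x) = th (s.1 x)) :
    S.card ≤ m ^ ncomp (gr3 E K K') := by
  classical
  have hinj : Set.InjOn Prod.fst (S : Set ((L → Fin m) × (L → L))) := by
    intro s hs s' hs' h
    refine Prod.ext h ?_
    funext x
    apply h0 s hs
    rw [h4 s hs]
    have h5 : s.1 (s'.2 x) = s'.1 (s'.2 x) := by rw [h]
    rw [h5, h4 s' hs']
    exact congrArg th (congrFun h x)
  rw [← Finset.card_image_of_injOn hinj]
  have h5 := card_le_pow_ncomp (P := Fin m) (gr3 E K K') (S.image Prod.fst) ?_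
  · rwa [Fintype.card_fin] at h5
  intro f hf g hg x z hxz
  obtain ⟨s, hs, rfl⟩ := mem_image.1 hf
  obtain ⟨s', hs', rfl⟩ := mem_image.1 hg
  rcases hxz with rfl | rfl | rfl
  · constructor
    · intro h
      rw [h1 s hs, h1 s' hs', h]
    · intro h
      have a1 := h1 s hs (E x)
      have a2 := h1 s' hs' (E x)
      rw [hE] at a1 a2
      rw [a1, a2, h]
  · by_cases hx : K x = x
    · rw [hx]
    · constructor
      · intro h
        rw [h2 s hs x hx, h2 s' hs' x hx, h]
      · intro h
        have hx' : K (K x) ≠ K x := by rw [hK]; exact fun h => hx h.symm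
        have a1 := h2 s hs (K x) hx'
        have a2 := h2 s' hs' (K x) hx'
        rw [hK] at a1 a2
        rw [a1, a2, h]
  · by_cases hx : K' x = x
    · rw [hx]
    · have b1 : ∀ s ∈ S, ∀ x, K' x ≠ x → s.1 (K' x) = th (s.1 x) := by
        intro s hs x hx
        rw [← h3 s hs x hx, h4 s hs]
      constructor
      · intro h
        rw [b1 s hs x hx, b1 s' hs' x hx, h]
      · intro h
        have hx' : K' (K' x) ≠ K' x := by rw [hK']; exact fun h => hx h.symm
        have a1 := b1 s hs (K' x) hx'
        have a2 := b1 s' hs' (K' x) hx'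
        rw [hK'] at a1 a2
        rw [a1, a2, h]

/-! ### the rigid adjacencies of a schedule -/

theorem Kt_invol {S I : L → L} {a b : L → ℕ} (hS : Function.Involutive S)
    (hI : Function.Involutive I) (aS : ∀ x, a (S x) = a x) (bI : ∀ x, b (I x) = b x)
    (ab : ∀ x, a x ≤ b x) (t : ℕ) : Function.Involutive (Kt S I a b t) := by
  intro x
  unfold Kt
  by_cases h1 : t < a x
  · simp only [h1, if_true, aS]
    exact hS x
  · simp only [h1, if_false]
    by_cases h2 : t < b x
    · simp only [h2, if_true, h1, if_false]
    · have h3 : ¬ t < a (I x) := fun h => h2 (by rw [← bI]; exact lt_of_lt_of_le h (ab _))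
      simp only [h2, if_false, h3, bI]
      exact hI x

/-- the labels of the new adjacencies are moved by the new rigid adjacencies -/
theorem Sched.Kt_succ_ne {E S I : L → L} {Q : ℕ} {a b : L → ℕ} {loc : Set ℕ} {P : L → Prop}
    (h : Sched E S I Q a b loc P) {t : ℕ} (ht : t < Q) {x : L} (hx : b x = t + 1) :
    Kt S I a b (t + 1) x = I x ∧ I x ≠ x := by
  have h1 : ¬ t + 1 < a x := by have := h.ab x; omega
  have h2 : ¬ t + 1 < b x := by omega
  refine ⟨by unfold Kt; simp only [h1, h2, if_false], fun h3 => ?_⟩
  have := h.topI x h3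
  omega

/-- the number of the components of the forest of a far level -/
theorem Sched.two_ncomp_far [Fintype L] [DecidableEq L] {E S I : L → L} {Q : ℕ} {a b : L → ℕ}
    {loc : Set ℕ} {P : L → Prop} (h : Sched E S I Q a b loc P) (hE : Function.Involutive E)
    (hS : Function.Involutive S) (hI : Function.Involutive I) {t : ℕ} (ht : t < Q)
    (htl : t ∉ loc) :
    2 * ncomp (gr3 E (Kt S I a b t) (Kt S I a b (t + 1))) +
      (univ.filter fun x => b x = t + 1).card ≤
    (univ.filter fun x => E x = x).card + (univ.filter fun x => Kt S I a b t x = x).card := by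
  classical
  have hK := Kt_invol hS hI h.aS h.bI h.ab t
  have hK' := Kt_invol hS hI h.aS h.bI h.ab (t + 1)
  have h1 := ncomp_far (E := E) (K := Kt S I a b t) hK' (univ.filter fun x => b x = t + 1)
    (fun x hx => by
      rw [mem_filter] at hx ⊢
      rw [(h.Kt_succ_ne ht hx.2).1]
      exact ⟨mem_univ _, by rw [h.bI]; exact hx.2⟩)
    (fun x hx => by
      rw [mem_filter] at hx
      rw [(h.Kt_succ_ne ht hx.2).1]
      exact (h.Kt_succ_ne ht hx.2).2)
    (fun x hx y hy hxy => by
      rw [mem_filter] at hx hy
      by_contra hne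
      exact h.far t ht htl x y hx.2 hy.2 hne ((conn_iff_eqvGen hE hK x y).2 hxy))
  have h2 := acyc_two_ncomp_le hE hK (h.acyc t ht.le)
  omega

/-- the fixed points of the rigid adjacencies are the loose labels (and possibly one more) -/
theorem Sched.card_fix_le [Fintype L] [DecidableEq L] {E S I : L → L} {Q : ℕ} {a b : L → ℕ}
    {loc : Set ℕ} {P : L → Prop} (h : Sched E S I Q a b loc P) (hSt : ∃! x, S x = x) {t : ℕ}
    (ht : t ≤ Q) :
    (univ.filter fun x => Kt S I a b t x = x).card ≤
      (univ.filter fun x => a x ≤ t ∧ t < b x).card + 1 := by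
  classical
  obtain ⟨s, hs, hs'⟩ := hSt
  have hsub : (univ.filter fun x => Kt S I a b t x = x) ⊆
      insert s (univ.filter fun x => a x ≤ t ∧ t < b x) := by
    intro x hx
    rw [mem_filter] at hx
    rw [mem_insert, mem_filter]
    have hx := hx.2
    unfold Kt at hx
    by_cases h1 : t < a x
    · rw [if_pos h1] at hx
      exact Or.inl (hs' x hx)
    · rw [if_neg h1] at hx
      by_cases h2 : t < b x
      · exact Or.inr ⟨mem_univ _, by omega, h2⟩
      · rw [if_neg h2] at hx
        by_cases h3 : S x = x
        · exact Or.inl (hs' x h3)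
        · exfalso
          rcases h.topI x hx with h4 | h4
          · exact h3 ((h.triv x h4).trans hx)
          · omega
  exact (card_le_card hsub).trans (card_insert_le _ _)

end BP2
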