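import Pool.Agent.BP2.Interface

set_option autoImplicit false

/-!
# MP_475aca_co, part (M), M3: arrangements as lists of adjacencies

`RepL E Y t G` : the arrangement `Y` (of the elements `E`) has the top label `t` and the adjacencies
`G = [(u_1, l_1), .., (u_n, l_n)]` (upper label, lower label) from top to floor: `u_1 = E t`,
`u_(i+1) = E l_i`, `E l_n = l_n`, all labels occur exactly once in `t, u_1, l_1, .., u_n, l_n`.

* `RepL.isArr`, `exists_repL` : arrangements are exactly the `Y` with such a list;
* `RepL.flip` : a flip at the adjacency `(u, l)` of `A ++ (u, l) :: B` gives the top label `u` and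
  the adjacencies `rsG A ++ (t, l) :: B`;
* `RF k s s'` : `k` list flips; `RepL.reach` : list flips are flips.
-/

namespace BP2

variable {L : Type*}

/-- a list of adjacencies turned over -/
def rsG (A : List (L × L)) : List (L × L) := (A.map Prod.swap).reverse

/-- the labels of a list of adjacencies, from top to bottom -/
def lbG (G : List (L × L)) : List L := G.flatMap fun p => [p.1, p.2]

@[simp] lemma rsG_nil : rsG ([] : List (L × L)) = [] := rfl

lemma rsG_append (A B : List (L × L)) : rsG (A ++ B) = rsG B ++ rsG A := by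
  simp [rsG]

lemma rsG_cons (p : L × L) (B : List (L × L)) : rsG (p :: B) = rsG B ++ [p.swap] := by
  simp [rsG]

@[simp] lemma rsG_rsG (A : List (L × L)) : rsG (rsG A) = A := by
  simp only [rsG, List.map_reverse, List.reverse_reverse, List.map_map]
  rw [List.map_congr_left (g := id) (fun x _ => by simp), List.map_id]

@[simp] lemma rsG_length (A : List (L × L)) : (rsG A).length = A.length := by
  simp [rsG]

lemma mem_rsG (A : List (L × L)) (p : L × L) : p ∈ rsG A ↔ p.swap ∈ A := by
  simp only [rsG, List.mem_reverse, List.mem_map]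
  constructor
  · rintro ⟨y, hy, rfl⟩
    rwa [Prod.swap_swap]
  · intro h
    exact ⟨_, h, Prod.swap_swap p⟩

@[simp] lemma lbG_nil : lbG ([] : List (L × L)) = [] := rfl

@[simp] lemma lbG_cons (p : L × L) (G : List (L × L)) : lbG (p :: G) = p.1 :: p.2 :: lbG G := rfl

lemma lbG_append (A B : List (L × L)) : lbG (A ++ B) = lbG A ++ lbG B := by
  simp [lbG]

lemma lbG_length (G : List (L × L)) : (lbG G).length = 2 * G.length := by
  induction G with
  | nil => rfl
  | cons p G ih => simp [ih]; omega

lemma lbG_rsG (A : List (L × L)) : lbG (rsG A) = (lbG A).reverse := by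
  induction A with
  | nil => rfl
  | cons p A ih => simp [rsG_cons, lbG_append, ih]

lemma mem_lbG {G : List (L × L)} {x : L} : x ∈ lbG G ↔ ∃ p ∈ G, x = p.1 ∨ x = p.2 := by
  simp [lbG]

/-- from the label `t` through the adjacencies `G` to the label `x` -/
def Seg (E : L → L) : L → List (L × L) → L → Prop
  | t, [], x => t = x
  | t, p :: G, x => E t = p.1 ∧ Seg E p.2 G x

lemma seg_append {E : L → L} {t x : L} {A B : List (L × L)} :
    Seg E t (A ++ B) x ↔ ∃ y, Seg E t A y ∧ Seg E y B x := by
  induction A generalizing t with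
  | nil => simp [Seg]
  | cons p A ih => simp [Seg, ih, and_assoc]

lemma seg_rsG {E : L → L} (hE : Function.Involutive E) {t y : L} {A : List (L × L)}
    (h : Seg E t A y) : Seg E (E y) (rsG A) (E t) := by
  induction A generalizing t with
  | nil =>
    have : t = y := h
    subst this
    rfl
  | cons p A ih =>
    obtain ⟨h1, h2⟩ := h
    rw [rsG_cons, seg_append]
    exact ⟨_, ih h2, hE _, h1.symm⟩

lemma seg_last_mem {E : L → L} {t x : L} {G : List (L × L)} (h : Seg E t G x) :
    x ∈ t :: lbG G := by
  induction G generalizing t with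
  | nil =>
    have : t = x := h
    simp [this]
  | cons p G ih =>
    have := ih h.2
    simp only [lbG_cons, List.mem_cons] at this ⊢
    tauto

lemma seg_mem {E : L → L} (hE : Function.Involutive E) {t x : L} {G : List (L × L)}
    (h : Seg E t G x) (hn : (t :: lbG G).Nodup) :
    ∀ z ∈ t :: lbG G, z ≠ x → E z ∈ t :: lbG G ∧ E z ≠ x := by
  induction G generalizing t with
  | nil =>
    have : t = x := h
    intro z hz hzx
    simp only [lbG_nil, List.mem_cons, List.not_mem_nil, or_false] at hz
    exact absurd (hz.trans this) hzx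
  | cons p G ih =>
    obtain ⟨h1, h2⟩ := h
    have hx := seg_last_mem h2
    rw [lbG_cons, List.nodup_cons, List.nodup_cons] at hn
    obtain ⟨n1, n2, n3⟩ := hn
    intro z hz hzx
    rw [lbG_cons, List.mem_cons, List.mem_cons] at hz
    rcases hz with rfl | rfl | hz
    · rw [h1]
      refine ⟨by simp, fun h => n2 (h ▸ hx)⟩
    · rw [← h1, hE]
      exact ⟨by simp, fun h => n1 (List.mem_cons_of_mem _ (h ▸ hx))⟩
    · obtain ⟨a1, a2⟩ := ih h2 n3 z hz hzx
      exact ⟨by rw [lbG_cons]; exact List.mem_cons_of_mem _ (List.mem_cons_of_mem _ a1), a2⟩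

/-- the list representation of an arrangement -/
structure RepL (E Y : L → L) (t : L) (G : List (L × L)) : Prop where
  seg : ∃ x, Seg E t G x ∧ E x = x
  nodup : (t :: lbG G).Nodup
  top : Y t = t
  adj : ∀ p ∈ G, Y p.1 = p.2 ∧ Y p.2 = p.1
  all : ∀ x, x ∈ t :: lbG G

lemma RepL.involutive {E Y : L → L} {t : L} {G : List (L × L)} (h : RepL E Y t G) :
    Function.Involutive Y := by
  intro x
  rcases List.mem_cons.1 (h.all x) with rfl | hx
  · rw [h.top, h.top]
  · obtain ⟨p, hp, rfl | rfl⟩ := mem_lbG.1 hx
    · rw [(h.adj p hp).1, (h.adj p hp).2]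
    · rw [(h.adj p hp).2, (h.adj p hp).1]

lemma ne_of_mem_nodup {G : List (L × L)} (hn : (lbG G).Nodup) : ∀ p ∈ G, p.1 ≠ p.2 := by
  induction G with
  | nil => simp
  | cons q G ih =>
    intro p hp
    rw [lbG_cons, List.nodup_cons, List.nodup_cons] at hn
    rcases List.mem_cons.1 hp with rfl | hp
    · intro h
      exact hn.1 (by simp [h])
    · exact ih hn.2.2 p hp

lemma RepL.fix_iff {E Y : L → L} {t : L} {G : List (L × L)} (h : RepL E Y t G) (x : L) :
    Y x = x ↔ x = t := by
  refine ⟨fun hx => ?_, fun hx => by rw [hx]; exact h.top⟩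
  rcases List.mem_cons.1 (h.all x) with rfl | hx'
  · rfl
  · exfalso
    have hne := ne_of_mem_nodup (List.nodup_cons.1 h.nodup).2
    obtain ⟨p, hp, rfl | rfl⟩ := mem_lbG.1 hx'
    · rw [(h.adj p hp).1] at hx
      exact hne p hp hx.symm
    · rw [(h.adj p hp).2] at hx
      exact hne p hp hx

lemma seg_conn {E Y : L → L} (hE : Function.Involutive E) (hY : Function.Involutive Y)
    {t x : L} {G : List (L × L)} (h : Seg E t G x) (ha : ∀ p ∈ G, Y p.1 = p.2 ∧ Y p.2 = p.1)
    {C : Set L} (hC : Cl E Y C) : ∀ z ∈ t :: lbG G, (z ∈ C ↔ t ∈ C) := by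
  have hE' : ∀ z, E z ∈ C ↔ z ∈ C := fun z =>
    ⟨fun h => by have := (hC _ h).1; rwa [hE] at this, fun h => (hC _ h).1⟩
  have hY' : ∀ z, Y z ∈ C ↔ z ∈ C := fun z =>
    ⟨fun h => by have := (hC _ h).2; rwa [hY] at this, fun h => (hC _ h).2⟩
  induction G generalizing t with
  | nil =>
    intro z hz
    simp only [lbG_nil, List.mem_cons, List.not_mem_nil, or_false] at hz
    rw [hz]
  | cons p G ih =>
    obtain ⟨h1, h2⟩ := h
    have e1 : p.1 ∈ C ↔ t ∈ C := by rw [← h1]; exact hE' t
    have e2 : p.2 ∈ C ↔ t ∈ C := by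
      rw [← (ha p (by simp)).1, hY' p.1]
      exact e1
    intro z hz
    rw [lbG_cons, List.mem_cons, List.mem_cons] at hz
    rcases hz with rfl | rfl | hz
    · exact Iff.rfl
    · exact e1
    · exact (ih h2 (fun q hq => ha q (List.mem_cons_of_mem _ hq)) z hz).trans e2

theorem RepL.isArr {E Y : L → L} (hE : Function.Involutive E) {t : L} {G : List (L × L)}
    (h : RepL E Y t G) : IsArr E Y where
  invol := h.involutive
  top := ⟨t, h.top, fun x hx => (h.fix_iff x).1 hx⟩
  conn := by
    obtain ⟨z, hz, _⟩ := h.seg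
    intro x y C hC hx
    exact (seg_conn hE h.involutive hz h.adj hC y (h.all y)).2
      ((seg_conn hE h.involutive hz h.adj hC x (h.all x)).1 hx)

private lemma exists_repL_aux [Fintype L] {E Y : L → L} (hE : IsEl E) (hY : IsArr E Y) {t : L}
    (ht : Y t = t) (k : ℕ) : ∀ (G : List (L × L)) (x : L), Seg E t G x → (t :: lbG G).Nodup →
    (∀ p ∈ G, Y p.1 = p.2 ∧ Y p.2 = p.1) → Fintype.card L ≤ (t :: lbG G).length + k →
    ∃ G', RepL E Y t G' := by
  induction k with
  | zero =>
    intro G x hs hn ha hc
    refine ⟨G, ?_⟩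
    have hall : ∀ y, y ∈ t :: lbG G := by
      classical
      have h1 : (t :: lbG G).toFinset = Finset.univ := by
        rw [← Finset.card_eq_iff_eq_univ, List.toFinset_card_of_nodup hn]
        exact le_antisymm (hn.length_le_card) (by simpa using hc)
      intro y
      have := Finset.mem_univ y
      rw [← h1, List.mem_toFinset] at this
      exact this
    refine ⟨⟨x, hs, ?_⟩, hn, ht, ha, hall⟩
    by_contra hne
    have h2 := seg_mem hE.invol hs hn (E x) (hall _) hne
    exact h2.2 (hE.invol x)
  | succ k ih =>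
    intro G x hs hn ha hc
    by_cases hx : E x = x
    · -- closed set
      refine ⟨G, ⟨x, hs, hx⟩, hn, ht, ha, ?_⟩
      have hC : Cl E Y {z | z ∈ t :: lbG G} := by
        intro z hz
        constructor
        · by_cases hzx : z = x
          · show E z ∈ _
            rw [hzx, hx]
            exact seg_last_mem hs
          · exact (seg_mem hE.invol hs hn z hz hzx).1
        · rcases List.mem_cons.1 hz with rfl | hz'
          · show Y z ∈ _
            rw [ht]
            exact hz
          · obtain ⟨p, hp, rfl | rfl⟩ := mem_lbG.1 hz'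
            · show Y p.1 ∈ _
              rw [(ha p hp).1]
              exact List.mem_cons_of_mem _ (mem_lbG.2 ⟨p, hp, Or.inr rfl⟩)
            · show Y p.2 ∈ _
              rw [(ha p hp).2]
              exact List.mem_cons_of_mem _ (mem_lbG.2 ⟨p, hp, Or.inl rfl⟩)
      intro y
      exact hY.conn t y _ hC (by simp)
    · -- extend
      have hu : E x ∉ t :: lbG G := fun h => (seg_mem hE.invol hs hn (E x) h hx).2 (hE.invol x)
      have hYcl : ∀ z ∈ t :: lbG G, Y z ∈ t :: lbG G := by
        intro z hz
        rcases List.mem_cons.1 hz with rfl | hz'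
        · rw [ht]
          exact hz
        · obtain ⟨p, hp, rfl | rfl⟩ := mem_lbG.1 hz'
          · rw [(ha p hp).1]
            exact List.mem_cons_of_mem _ (mem_lbG.2 ⟨p, hp, Or.inr rfl⟩)
          · rw [(ha p hp).2]
            exact List.mem_cons_of_mem _ (mem_lbG.2 ⟨p, hp, Or.inl rfl⟩)
      have hl : Y (E x) ∉ t :: lbG G := fun h => hu (by have := hYcl _ h; rwa [hY.invol] at this)
      have hul : E x ≠ Y (E x) := by
        intro h
        obtain ⟨t', ht', hu'⟩ := hY.top
        have h1 : E x = t' := hu' _ h.symm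
        have h2 : t = t' := hu' _ ht
        exact hu (by rw [h1, ← h2]; simp)
      have hlab : t :: lbG (G ++ [(E x, Y (E x))]) = (t :: lbG G) ++ [E x, Y (E x)] := by
        simp [lbG_append]
      refine ih (G ++ [(E x, Y (E x))]) (Y (E x)) ?_ ?_ ?_ ?_
      · rw [seg_append]
        exact ⟨x, hs, rfl, rfl⟩
      · rw [hlab, List.nodup_append]
        refine ⟨hn, by simp [hul], ?_⟩
        intro a ha' b hb
        simp only [List.mem_cons, List.not_mem_nil, or_false] at hb
        rintro rfl
        rcases hb with rfl | rfl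
        · exact hu ha'
        · exact hl ha'
      · intro p hp
        rcases List.mem_append.1 hp with hp | hp
        · exact ha p hp
        · simp only [List.mem_cons, List.not_mem_nil, or_false] at hp
          subst hp
          exact ⟨rfl, hY.invol _⟩
      · rw [hlab, List.length_append]
        simp only [List.length_cons, List.length_nil] at hc ⊢
        omega

theorem exists_repL [Fintype L] {E Y : L → L} (hE : IsEl E) (hY : IsArr E Y) :
    ∃ t G, RepL E Y t G := by
  obtain ⟨t, ht, _⟩ := hY.top
  obtain ⟨G, hG⟩ := exists_repL_aux hE hY ht (Fintype.card L) [] t rfl (by simp) (by simp)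
    (by simp)
  exact ⟨t, G, hG⟩

/-- `Y` is determined by the list -/
lemma RepL.unique {E Y Z : L → L} {t : L} {G : List (L × L)} (h : RepL E Y t G)
    (h' : RepL E Z t G) : Y = Z := by
  funext x
  rcases List.mem_cons.1 (h.all x) with rfl | hx
  · rw [h.top, h'.top]
  · obtain ⟨p, hp, rfl | rfl⟩ := mem_lbG.1 hx
    · rw [(h.adj p hp).1, (h'.adj p hp).1]
    · rw [(h.adj p hp).2, (h'.adj p hp).2]

/-- length of the list -/
lemma RepL.length [Fintype L] {E Y : L → L} {t : L} {G : List (L × L)} (h : RepL E Y t G)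
    {n : ℕ} (hc : Fintype.card L = 2 * n + 1) : G.length = n := by
  classical
  have h1 : (t :: lbG G).toFinset = Finset.univ := by
    ext x
    simp only [List.mem_toFinset, Finset.mem_univ, iff_true]
    exact h.all x
  have h2 := List.toFinset_card_of_nodup h.nodup
  rw [h1, Finset.card_univ, hc, List.length_cons, lbG_length] at h2
  omega

open Classical in
/-- the arrangement after a flip at the adjacency `(u, l)`, `t` the top -/
noncomputable def flipY (Y : L → L) (t u l : L) (x : L) : L :=
  if x = t then l else if x = l then t else if x = u then u else Y x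

/-- a flip -/
theorem RepL.flip {E Y : L → L} (hE : Function.Involutive E) {t u l : L} {A B : List (L × L)}
    (h : RepL E Y t (A ++ (u, l) :: B)) :
    RepL E (flipY Y t u l) u (rsG A ++ (t, l) :: B) ∧ Fl E Y (flipY Y t u l) := by
  have hn := h.nodup
  have hlab : t :: lbG (A ++ (u, l) :: B) = t :: (lbG A ++ u :: l :: lbG B) := by
    simp [lbG_append]
  have hlab' : u :: lbG (rsG A ++ (t, l) :: B) = u :: ((lbG A).reverse ++ t :: l :: lbG B) := by
    simp [lbG_append, lbG_rsG]
  have hperm : (u :: lbG (rsG A ++ (t, l) :: B)).Perm (t :: lbG (A ++ (u, l) :: B)) := by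
    rw [hlab, hlab']
    have p1 : (u :: ((lbG A).reverse ++ t :: l :: lbG B)).Perm
        (u :: t :: (lbG A ++ l :: lbG B)) :=
      (List.perm_middle.trans ((List.reverse_perm _).append_right _ |>.cons t)).cons u
    have p2 : (t :: (lbG A ++ u :: l :: lbG B)).Perm (t :: u :: (lbG A ++ l :: lbG B)) :=
      List.perm_middle.cons t
    exact p1.trans ((List.Perm.swap t u _).trans p2.symm)
  have htu : t ≠ u := by
    rintro rfl
    rw [hlab, List.nodup_cons] at hn
    exact hn.1 (by simp)
  have htl : t ≠ l := by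
    rintro rfl
    rw [hlab, List.nodup_cons] at hn
    exact hn.1 (by simp)
  have hul : u ≠ l := ne_of_mem_nodup (List.nodup_cons.1 hn).2 (u, l) (by simp)
  -- labels of the other adjacencies
  have hA : ∀ p ∈ A ++ B, p.1 ≠ t ∧ p.1 ≠ u ∧ p.1 ≠ l ∧ p.2 ≠ t ∧ p.2 ≠ u ∧ p.2 ≠ l := by
    have h1 : (t :: u :: l :: (lbG A ++ lbG B)).Nodup := by
      refine (List.Perm.nodup_iff ?_).1 hn
      rw [hlab]
      refine List.Perm.cons t ?_
      refine List.perm_middle.trans (List.Perm.cons u ?_)
      exact List.perm_middle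
    intro p hp
    have m1 : p.1 ∈ lbG A ++ lbG B := by
      rw [← lbG_append]
      exact mem_lbG.2 ⟨p, hp, Or.inl rfl⟩
    have m2 : p.2 ∈ lbG A ++ lbG B := by
      rw [← lbG_append]
      exact mem_lbG.2 ⟨p, hp, Or.inr rfl⟩
    rw [List.nodup_cons, List.nodup_cons, List.nodup_cons] at h1
    obtain ⟨a1, a2, a3, _⟩ := h1
    have key : ∀ x ∈ lbG A ++ lbG B, x ≠ t ∧ x ≠ u ∧ x ≠ l := by
      intro x hx
      refine ⟨?_, ?_, ?_⟩
      · rintro rfl
        exact a1 (List.mem_cons_of_mem _ (List.mem_cons_of_mem _ hx))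
      · rintro rfl
        exact a2 (List.mem_cons_of_mem _ hx)
      · rintro rfl
        exact a3 hx
    obtain ⟨c1, c2, c3⟩ := key _ m1
    obtain ⟨c4, c5, c6⟩ := key _ m2
    exact ⟨c1, c2, c3, c4, c5, c6⟩
  have hrep : RepL E (flipY Y t u l) u (rsG A ++ (t, l) :: B) := by
    refine ⟨?_, ?_, ?_, ?_, ?_⟩
    · obtain ⟨x, hx, hx'⟩ := h.seg
      rw [seg_append] at hx
      obtain ⟨y, h1, h2, h3⟩ := hx
      refine ⟨x, ?_, hx'⟩
      rw [seg_append]
      have h4 := seg_rsG hE h1
      rw [show E y = u from h2] at h4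
      exact ⟨E t, h4, hE t, h3⟩
    · exact (hperm.nodup_iff).2 hn
    · simp only [flipY]
      rw [if_neg htu.symm, if_neg hul]
      simp
    · intro p hp
      rw [List.mem_append, List.mem_cons, mem_rsG] at hp
      have key : ∀ q ∈ A ++ B, flipY Y t u l q.1 = q.2 ∧ flipY Y t u l q.2 = q.1 := by
        intro q hq
        obtain ⟨b1, b2, b3, b4, b5, b6⟩ := hA q hq
        have hq' : q ∈ A ++ (u, l) :: B := by
          rw [List.mem_append] at hq ⊢
          rcases hq with hq | hq
          · exact Or.inl hq
          · exact Or.inr (List.mem_cons_of_mem _ hq)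
        simp only [flipY]
        rw [if_neg b1, if_neg b3, if_neg b2, if_neg b4, if_neg b6, if_neg b5]
        exact h.adj q hq'
      rcases hp with hp | rfl | hp
      · have := key p.swap (List.mem_append_left _ hp)
        exact ⟨this.2, this.1⟩
      · simp only [flipY]
        rw [if_neg htl.symm]
        simp
      · exact key p (List.mem_append_right _ hp)
    · intro x
      exact hperm.mem_iff.2 (h.all x)
  refine ⟨hrep, h.isArr hE, hrep.isArr hE, t, u, l, h.top, ?_, hul, ?_, ?_, ?_, ?_⟩
  · exact (h.adj (u, l) (by simp)).1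
  · simp [flipY]
  · simp [flipY, htl.symm]
  · simp only [flipY]
    rw [if_neg htu.symm, if_neg hul]
    simp
  · intro x h1 h2 h3
    simp only [flipY]
    rw [if_neg h1, if_neg h3, if_neg h2]

/-- `k` list flips -/
inductive RF : ℕ → L × List (L × L) → L × List (L × L) → Prop
  | refl (s : L × List (L × L)) : RF 0 s s
  | step {k : ℕ} {s : L × List (L × L)} {t u l : L} {A B : List (L × L)} :
      RF k s (t, A ++ (u, l) :: B) → RF (k + 1) s (u, rsG A ++ (t, l) :: B)

lemma RF.trans {k k' : ℕ} {s s' s'' : L × List (L × L)} (h : RF k s s') (h' : RF k' s' s'') :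
    RF (k + k') s s'' := by
  induction h' with
  | refl => exact h
  | step _ ih => exact RF.step (ih h)

/-- list flips are flips -/
theorem RepL.reach {E Y : L → L} (hE : Function.Involutive E) {t : L} {G : List (L × L)}
    (h : RepL E Y t G) {k : ℕ} {s' : L × List (L × L)} (hf : RF k (t, G) s') :
    ∃ Z, RepL E Z s'.1 s'.2 ∧ Reach E k Y Z := by
  generalize hs : (t, G) = s at hf
  induction hf with
  | refl s =>
    subst hs
    exact ⟨Y, h, Reach.refl Y⟩
  | step hf ih =>
    obtain ⟨Z, hZ, hr⟩ := ih hs
    obtain ⟨h1, h2⟩ := hZ.flip hE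
    exact ⟨_, h1, hr.step h2⟩

lemma Reach.trans {E : L → L} {k k' : ℕ} {Y Z W : L → L} (h : Reach E k Y Z)
    (h' : Reach E k' Z W) : Reach E (k + k') Y W := by
  induction h' with
  | refl => exact h
  | step _ h2 ih => exact (ih h).step h2

end BP2
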