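import Pool.Agent.BP2.M.Init
import Pool.Agent.BP2.M.List

set_option autoImplicit false

/-!
# MP_475aca_co, part (M), M4, P1: the walk of the upper labels of an arrangement
-/

namespace BP2

variable {L : Type*}

/-- two consecutive upper labels -/
lemma seg_pair {E : L → L} {x : L} : ∀ (G : List (L × L)) (t : L), Seg E t G x →
    ∀ l₁ y z l₂, t :: G.map Prod.snd = l₁ ++ y :: z :: l₂ → ∃ p ∈ G, E y = p.1 ∧ z = p.2 := by
  intro G
  induction G with
  | nil =>
    intro t _ l₁ y z l₂ h
    have := congrArg List.length h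
    simp at this
    omega
  | cons p G ih =>
    intro t hs l₁ y z l₂ h
    obtain ⟨h1, h2⟩ := hs
    rw [List.map_cons] at h
    cases l₁ with
    | nil =>
      simp only [List.nil_append, List.cons.injEq] at h
      obtain ⟨rfl, rfl, _⟩ := h
      exact ⟨p, by simp, h1, rfl⟩
    | cons a l₁ =>
      simp only [List.cons_append, List.cons.injEq] at h
      obtain ⟨q, hq, h3, h4⟩ := ih p.2 h2 l₁ y z l₂ h.2
      exact ⟨q, List.mem_cons_of_mem _ hq, h3, h4⟩

/-- the last upper label -/
lemma seg_last {E : L → L} {x : L} : ∀ (G : List (L × L)) (t : L), Seg E t G x →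
    ∀ l f, t :: G.map Prod.snd = l ++ [f] → f = x := by
  intro G
  induction G with
  | nil =>
    intro t hs l f h
    have hs' : t = x := hs
    cases l with
    | nil =>
      simp only [List.map_nil, List.nil_append, List.cons.injEq, and_true] at h
      rw [← h, hs']
    | cons a l =>
      have := congrArg List.length h
      simp at this
  | cons p G ih =>
    intro t hs l f h
    obtain ⟨h1, h2⟩ := hs
    rw [List.map_cons] at h
    cases l with
    | nil =>
      have := congrArg List.length h
      simp at this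
    | cons a l =>
      simp only [List.cons_append, List.cons.injEq] at h
      exact ih p.2 h2 l f h.2

lemma seg_cover {E : L → L} (hE : Function.Involutive E) {x : L} : ∀ (G : List (L × L)) (t : L),
    Seg E t G x → ∀ z ∈ t :: lbG G, z ∈ t :: G.map Prod.snd ∨ E z ∈ t :: G.map Prod.snd := by
  intro G
  induction G with
  | nil =>
    intro t _ z hz
    left
    simpa using hz
  | cons p G ih =>
    intro t hs z hz
    obtain ⟨h1, h2⟩ := hs
    rw [lbG_cons, List.mem_cons, List.mem_cons] at hz
    rw [List.map_cons]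
    rcases hz with rfl | rfl | hz
    · left; simp
    · right
      rw [← h1, hE]
      simp
    · rcases ih p.2 h2 z hz with h | h
      · exact Or.inl (List.mem_cons_of_mem _ h)
      · exact Or.inr (List.mem_cons_of_mem _ h)

lemma snd_mem_lbG {G : List (L × L)} {z : L} (h : z ∈ G.map Prod.snd) : z ∈ lbG G := by
  obtain ⟨p, hp, rfl⟩ := List.mem_map.1 h
  exact mem_lbG.2 ⟨p, hp, Or.inr rfl⟩

lemma fst_notMem : ∀ (G : List (L × L)) (t : L), (t :: lbG G).Nodup → ∀ p ∈ G,
    p.1 ∉ t :: G.map Prod.snd := by
  intro G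
  induction G with
  | nil => intro t _ p hp; simp at hp
  | cons q G ih =>
    intro t hn p hp
    rw [lbG_cons, List.nodup_cons, List.nodup_cons] at hn
    obtain ⟨n1, n2, n3⟩ := hn
    rw [List.map_cons, List.mem_cons]
    rcases List.mem_cons.1 hp with rfl | hp
    · rintro (h | h)
      · exact n1 (by rw [← h]; simp)
      · rcases List.mem_cons.1 h with h | h
        · exact n2 (by rw [h]; simp)
        · exact n2 (List.mem_cons_of_mem _ (snd_mem_lbG h))
    · rintro (h | h)
      · apply n1
        rw [← h]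
        exact List.mem_cons_of_mem _ (List.mem_cons_of_mem _ (mem_lbG.2 ⟨p, hp, Or.inl rfl⟩))
      · exact ih q.2 n3 p hp h

lemma snd_sublist (G : List (L × L)) : (G.map Prod.snd).Sublist (lbG G) := by
  induction G with
  | nil => simp
  | cons p G ih =>
    rw [List.map_cons, lbG_cons]
    exact (ih.cons_cons p.2).cons p.1

theorem RepL.wlk {E X : L → L} (hE : Function.Involutive E) {t : L} {G : List (L × L)}
    (h : RepL E X t G) : Wlk E X (t :: G.map Prod.snd) := by
  obtain ⟨x, hseg, hx⟩ := h.seg
  have key : ∀ l₁ y z l₂, t :: G.map Prod.snd = l₁ ++ y :: z :: l₂ →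
      ∃ p ∈ G, E y = p.1 ∧ z = p.2 := seg_pair G t hseg
  refine ⟨?_, ?_, ?_, ?_, ?_, ?_, ?_⟩
  · intro l₁ y z l₂ he
    obtain ⟨p, hp, h1, h2⟩ := key l₁ y z l₂ he
    rw [h1, h2]
    exact (h.adj p hp).1
  · intro t' l he
    simp only [List.cons.injEq] at he
    rw [← he.1]
    exact h.top
  · exact ((snd_sublist G).cons_cons t).nodup h.nodup
  · intro y hy hEy
    obtain ⟨l₁, l₂, he⟩ := List.append_of_mem hy
    cases l₂ with
    | nil =>
      have := seg_last G t hseg l₁ y he
      rw [this, hx]
    | cons z l₂ =>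
      obtain ⟨p, hp, h1, h2⟩ := key l₁ y z l₂ he
      rw [h1] at hEy
      exact absurd hEy (fst_notMem G t h.nodup p hp)
  · intro z
    exact seg_cover hE G t hseg z (h.all z)
  · intro l f he
    rw [seg_last G t hseg l f he, hx]
  · intro l y z l₂ he hEy
    obtain ⟨p, hp, h1, h2⟩ := key l y z l₂ he
    apply fst_notMem G t h.nodup p hp
    rw [← h1, hEy, he]
    simp

lemma seg_fl {E : L → L} {f : L} (hf : E f = f) : ∀ (G : List (L × L)) (t : L), Seg E t G f →
    fl E (t :: G.map Prod.snd) = (t :: lbG G) ++ [f] := by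
  intro G
  induction G with
  | nil =>
    intro t hs
    have hs' : t = f := hs
    rw [hs']
    simp [fl, hf]
  | cons p G ih =>
    intro t hs
    obtain ⟨h1, h2⟩ := hs
    rw [List.map_cons, fl_cons, ih p.2 h2, h1, lbG_cons]
    simp

theorem RepL.fl_eq {E X : L → L} (_hE : Function.Involutive E) {t : L} {G : List (L × L)}
    (h : RepL E X t G) {f : L} (hf : E f = f) (huniq : ∀ x, E x = x → x = f) :
    fl E (t :: G.map Prod.snd) = (t :: lbG G) ++ [f] := by
  obtain ⟨x, hseg, hx⟩ := h.seg
  rw [huniq x hx] at hseg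
  exact seg_fl hf G t hseg

end BP2
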