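import Pool.Agent.BP2.M.Stack
import Pool.Agent.BP2.M.List

set_option autoImplicit false

/-!
# MP_475aca_co, part (M), M4: reversals of even prefixes are flips
-/

namespace BP2

variable {L : Type*}

private lemma lr_split {f : L} : ∀ (G : List (L × L)) (t : L) (A B : List L),
    (t :: lbG G) ++ [f] = A ++ B → Even A.length → A ≠ [] → B ≠ [] →
    ∃ (G₁ : List (L × L)) (u l : L) (G₂ : List (L × L)), G = G₁ ++ (u, l) :: G₂ ∧
      A = (t :: lbG G₁) ++ [u] ∧ B = (l :: lbG G₂) ++ [f] := by
  intro G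
  induction G with
  | nil =>
    intro t A B h hA hA0 hB0
    exfalso
    have h1 := congrArg List.length h
    rw [List.length_append, List.length_append] at h1
    have h2 := List.length_pos_iff.2 hA0
    have h3 := List.length_pos_iff.2 hB0
    rw [Nat.even_iff] at hA
    simp at h1
    omega
  | cons p G ih =>
    intro t A B h hA hA0 hB0
    obtain ⟨a1, A1, rfl⟩ := List.exists_cons_of_ne_nil hA0
    have hA1 : A1 ≠ [] := by
      rintro rfl
      rw [Nat.even_iff] at hA
      simp at hA
    obtain ⟨a2, A', rfl⟩ := List.exists_cons_of_ne_nil hA1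
    simp only [lbG_cons, List.cons_append, List.cons.injEq] at h
    obtain ⟨rfl, rfl, h⟩ := h
    have hA' : Even A'.length := by
      rw [Nat.even_iff] at hA ⊢
      simp only [List.length_cons] at hA
      omega
    by_cases h0 : A' = []
    · subst h0
      refine ⟨[], p.1, p.2, G, rfl, rfl, ?_⟩
      rw [List.nil_append] at h
      rw [← h]
      rfl
    · obtain ⟨G₁, u, l, G₂, h1, h2, h3⟩ := ih p.2 A' B h hA' h0 hB0
      refine ⟨p :: G₁, u, l, G₂, by rw [h1]; rfl, ?_, h3⟩
      rw [h2]
      rfl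

/-- reversals of even prefixes of the list of the labels are flips -/
theorem LR.reach {E Y : L → L} (hE : Function.Involutive E) {t : L} {G : List (L × L)} {f : L}
    {k : ℕ} {w' : List L} (h : RepL E Y t G) (hl : LR k ((t :: lbG G) ++ [f]) w') :
    ∃ (Y' : L → L) (t' : L) (G' : List (L × L)), RepL E Y' t' G' ∧
      w' = (t' :: lbG G') ++ [f] ∧ Reach E k Y Y' := by
  generalize hw : (t :: lbG G) ++ [f] = w at hl
  induction hl with
  | refl w =>
    subst hw
    exact ⟨Y, t, G, h, rfl, Reach.refl Y⟩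
  | @step k w A B _ hA hA0 hB0 ih =>
    obtain ⟨Y', t', G', h1, h2, h3⟩ := ih hw
    obtain ⟨G₁, u, l, G₂, rfl, rfl, rfl⟩ := lr_split G' t' A B h2.symm hA hA0 hB0
    obtain ⟨h4, h5⟩ := h1.flip hE
    refine ⟨flipY Y' t' u l, u, rsG G₁ ++ (t', l) :: G₂, h4, ?_, h3.step h5⟩
    simp [lbG_append, lbG_rsG]

end BP2
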