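import Pool.Agent.BP2.M.Stack
import Pool.Agent.BP2.M.List
import Pool.Agent.BP2.MHyp

set_option autoImplicit false

/-!
# MP_475aca_co, part (M), M4 (P3): a structured stack with few letters is nearly the target
-/

namespace BP2

open Lt

variable {L : Type*}

lemma lbG_inj {G G' : List (L × L)} (h : lbG G = lbG G') : G = G' := by
  induction G generalizing G' with
  | nil =>
    cases G' with
    | nil => rfl
    | cons p G' => simp at h
  | cons p G ih =>
    cases G' with
    | nil => simp at h
    | cons q G' =>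
      simp only [lbG_cons, List.cons.injEq] at h
      rw [ih h.2.2, Prod.ext h.1 h.2.1]

lemma Bk.exists_lbG {E Z : L → L} {t u : L} {A : List L} (h : Bk E Z t u A) :
    ∃ G : List (L × L), A = (t :: lbG G) ++ [u] ∧ ∀ p ∈ G, Z p.1 = p.2 := by
  induction h with
  | el x => exact ⟨[], by simp, by simp⟩
  | @app t u t' u' A B _ hz _ ih1 ih2 =>
    obtain ⟨G1, h1, h1'⟩ := ih1
    obtain ⟨G2, h2, h2'⟩ := ih2
    refine ⟨G1 ++ (u, t') :: G2, ?_, ?_⟩
    · rw [h1, h2, lbG_append, lbG_cons]
      simp
    · intro p hp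
      rw [List.mem_append, List.mem_cons] at hp
      rcases hp with hp | rfl | hp
      · exact h1' p hp
      · exact hz
      · exact h2' p hp

open Classical in
lemma Sg.exists_lbG {E Z : L → L} {W : Lt L → Bool} {m : ℕ} {t u : L} {xs : List (Lt L)}
    {A : List L} (h : Sg E Z W m t xs u A) :
    ∃ G : List (L × L), A = (t :: lbG G) ++ [u] ∧
      G.countP (fun p => decide (Z p.1 ≠ p.2)) ≤ 2 * xs.length := by
  induction h with
  | blk hb =>
    obtain ⟨G, h1, h2⟩ := hb.exists_lbG
    refine ⟨G, h1, ?_⟩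
    have h0 : G.countP (fun p => decide (Z p.1 ≠ p.2)) = 0 := by
      rw [List.countP_eq_zero]
      intro p hp
      simp [h2 p hp]
    rw [h0]
    exact Nat.zero_le _
  | @app m m' t u t' u' xs ys A B _ hz _ ih1 ih2 =>
    obtain ⟨G1, h1, h1'⟩ := ih1
    obtain ⟨G2, h2, h2'⟩ := ih2
    refine ⟨G1 ++ (u, t') :: G2, ?_, ?_⟩
    · rw [h1, h2, lbG_append, lbG_cons]
      simp
    · rw [List.countP_append, List.countP_cons, List.length_append]
      simp only [hz, ne_eq, not_true_eq_false, decide_false]
      simp only [Bool.false_eq_true, if_false]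
      simp only [ne_eq] at h1' h2'
      omega
  | @jn m c m' t a b u x xs ys A β B _ hj _ ih1 ih2 =>
    obtain ⟨G1, h1, h1'⟩ := ih1
    obtain ⟨G2, h2, h2'⟩ := ih2
    have hβ : β = [] ∨ ∃ (r s : L) (G : List (L × L)), β = (r :: lbG G) ++ [s] ∧
        ∀ p ∈ G, Z p.1 = p.2 := by
      cases hj with
      | thin => exact Or.inl rfl
      | mk hb _ =>
        obtain ⟨G, h3, h4⟩ := hb.exists_lbG
        exact Or.inr ⟨_, _, G, h3, h4⟩
      | tr hb _ _ =>
        obtain ⟨G, h3, h4⟩ := hb.exists_lbG
        exact Or.inr ⟨_, _, G, h3, h4⟩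
      | tw hb _ _ =>
        obtain ⟨G, h3, h4⟩ := hb.exists_lbG
        exact Or.inr ⟨_, _, G, h3, h4⟩
    rcases hβ with rfl | ⟨r, s, G, rfl, hG⟩
    · refine ⟨G1 ++ (a, b) :: G2, ?_, ?_⟩
      · rw [h1, h2, lbG_append, lbG_cons]
        simp
      · rw [List.countP_append, List.countP_cons, List.length_append, List.length_cons]
        split_ifs <;> omega
    · refine ⟨G1 ++ (a, r) :: (G ++ (s, b) :: G2), ?_, ?_⟩
      · rw [h1, h2, lbG_append, lbG_cons, lbG_append, lbG_cons]
        simp
      · have h0 : G.countP (fun p => decide (Z p.1 ≠ p.2)) = 0 := by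
          rw [List.countP_eq_zero]
          intro p hp
          simp [hG p hp]
        rw [List.countP_append, List.countP_cons, List.countP_append, List.countP_cons,
          List.length_append, List.length_cons, h0]
        split_ifs <;> omega

open Classical in
/-- **(P3)** -/
theorem Sg.chg_le [Fintype L] {E Z Y : L → L} {W : Lt L → Bool} {m : ℕ} {t f t' : L}
    {xs : List (Lt L)} {G : List (L × L)} (hZ : Function.Involutive Z)
    (hs : Sg E Z W m t xs f ((t' :: lbG G) ++ [f])) (h : RepL E Y t' G) :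
    t = t' ∧ chg Y Z ≤ 4 * xs.length + 2 := by
  obtain ⟨G0, h1, h2⟩ := hs.exists_lbG
  rw [List.cons_append, List.cons_append, List.cons.injEq] at h1
  obtain ⟨rfl, h3⟩ := h1
  have hG : G = G0 := lbG_inj (List.append_cancel_right h3)
  subst hG
  refine ⟨rfl, ?_⟩
  -- the changed labels
  let Bd : List (L × L) := G.filter (fun p => decide (Z p.1 ≠ p.2))
  have hsub : (Finset.univ.filter fun x => Y x ≠ Z x) ⊆ (t' :: lbG Bd).toFinset := by
    intro x hx
    rw [Finset.mem_filter] at hx
    rw [List.mem_toFinset]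
    rcases List.mem_cons.1 (h.all x) with rfl | hxG
    · exact List.mem_cons_self
    · apply List.mem_cons_of_mem
      obtain ⟨p, hp, hxp⟩ := mem_lbG.1 hxG
      have hbad : Z p.1 ≠ p.2 := by
        intro hz
        apply hx.2
        rcases hxp with rfl | rfl
        · rw [(h.adj p hp).1, hz]
        · rw [(h.adj p hp).2, ← hz, hZ]
      rw [mem_lbG]
      refine ⟨p, ?_, hxp⟩
      simp only [Bd, List.mem_filter]
      exact ⟨hp, by simpa using hbad⟩
  have h4 : Bd.length ≤ 2 * xs.length := by
    simp only [Bd]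
    rw [← List.countP_eq_length_filter]
    exact h2
  unfold chg
  calc (Finset.univ.filter fun x => Y x ≠ Z x).card ≤ (t' :: lbG Bd).toFinset.card :=
        Finset.card_le_card hsub
    _ ≤ (t' :: lbG Bd).length := List.toFinset_card_le _
    _ = 2 * Bd.length + 1 := by rw [List.length_cons, lbG_length]
    _ ≤ 4 * xs.length + 2 := by omega

end BP2
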