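import Pool.Agent.BP2.M.FarHyp

set_option autoImplicit false

/-!
# MP_475aca_co, part (M), M4: the count of the expensive bijections of a local level
-/

namespace BP2

open Finset Function Lt

variable {L : Type*}

lemma Lt.map_ent {α : Type*} (f : α → L) (x : Lt α) : (Lt.map f x).ent = f x.ent := by
  cases x <;> rfl

lemma Lt.map_lv {α : Type*} (f : α → L) (x : Lt α) : (Lt.map f x).lv = f x.lv := by
  cases x <;> rfl

lemma imp_stMap {α : Type*} (f : α → L) (ty : L → Bool) (s : St α) :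
    imp ty (stMap f s) = imp (fun x => ty (f x)) s := by
  unfold imp stMap
  simp only [List.countP_map]
  congr 1
  refine List.countP_congr fun x _ => ?_
  simp only [Function.comp, Lt.map_ent, Lt.map_lv]

lemma length_labels_le (xs : List (Lt L)) : (xs.flatMap Lt.labels).length ≤ 4 * xs.length := by
  induction xs with
  | nil => simp
  | cons x xs ih =>
    rw [List.flatMap_cons, List.length_append, List.length_cons]
    have h1 : x.labels.length ≤ 4 := by cases x <;> simp [Lt.labels]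
    omega

theorem loc_count (hD : TheoremD) (m Λ : ℕ) (hm : 0 < m) : ∃ C : ℕ,
    ∀ (L ι : Type) [Fintype L] (Z : ι → L → L) (s : St L) (ty : L → Bool) (n : ℕ),
    (labels s).Nodup → s.2.length ≤ 2 * n + 1 → (∀ i, Involutive (Z i)) →
    (∀ i, ∀ x ∈ labels s, (Z i x = x ↔ x = s.1)) → (∀ i, ∀ x ∈ labels s, Z i x ∈ labels s) →
    (∀ i, Mk (Z i) s) → (∀ i j, (∀ x ∈ labels s, Z i x = Z j x) → i = j) →
    imp ty s = 0 → (∀ i, ∀ x ∈ labels s, x ≠ s.1 → ty (Z i x) = !ty x) →
    Nat.card {i : ι // ¬ ∃ (a g k : ℕ) (s' : St L), Run (Z i) (Wr ty) a g k s s' ∧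
      8 * m * s'.2.length ≤ s.2.length ∧ 8 * m * a ≤ (8 * m + 1) * s.2.length ∧
      8 * m * k ≤ s.2.length} * Λ ^ s.2.length ≤ C * (2 * n + 1) ^ s.2.length := by
  classical
  have hmR : (0 : ℝ) < m := by exact_mod_cast hm
  obtain ⟨c, δ, hc, hδ, m₀, hbad⟩ := hD (1 / (8 * m)) (by positivity)
  obtain ⟨C₁, hC₁⟩ := far_sup hc (Λ + 1) (by omega)
  refine ⟨(4 * m₀ + 1) ^ (4 * m₀ + 1) * (Λ + 1) ^ m₀ + C₁, ?_⟩
  intro L ι _ Z s ty n hnd hsn hinv hfix hcl hmk hinj himp htyp
  set u := s.2.length with hu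
  set α := {x : L // x ∈ labels s} with hα
  -- the state on the labels
  obtain ⟨ys, hys⟩ := exists_lift (fun x => x ∈ labels s) s.2 (by
    intro x hx
    exact List.mem_cons_of_mem _ hx)
  set s₁ : St α := (⟨s.1, by simp [labels]⟩, ys) with hs₁
  have hsm : stMap Subtype.val s₁ = s := by
    simp only [stMap, hs₁, hys]
  have hslab : (labels s₁).map Subtype.val = labels s := by
    rw [← labels_stMap, hsm]
  have hlen : s₁.2.length = u := by
    have := congrArg List.length hys
    rw [List.length_map] at this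
    exact this
  have hWF : WF s₁ [] := by
    constructor
    · simp only [lb, List.flatMap_nil, List.append_nil]
      refine List.Nodup.of_map Subtype.val ?_
      rw [hslab]
      exact hnd
    · rintro ⟨x, hx⟩
      simp only [lb, List.flatMap_nil, List.append_nil]
      have h1 : x ∈ (labels s₁).map Subtype.val := by
        rw [hslab]
        exact hx
      obtain ⟨y, hy, hyx⟩ := List.mem_map.1 h1
      have : y = ⟨x, hx⟩ := Subtype.ext hyx
      rwa [this] at hy
  -- the injection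
  let Φ : ι → (α → α) := fun i x => ⟨Z i x.1, hcl i x.1 x.2⟩
  have hΦinj : Injective Φ := by
    intro i j h
    refine hinj i j fun x hx => ?_
    have := congrFun h ⟨x, hx⟩
    exact congrArg Subtype.val this
  set Bd := {i : ι // ¬ ∃ (a g k : ℕ) (s' : St L), Run (Z i) (Wr ty) a g k s s' ∧
      8 * m * s'.2.length ≤ u ∧ 8 * m * a ≤ (8 * m + 1) * u ∧ 8 * m * k ≤ u} with hBd
  have hfinj : Injective (fun i : Bd => Φ i.1) := by
    intro i j h
    exact Subtype.ext (hΦinj h)
  have hΛ1 : (1 : ℝ) ≤ ((Λ + 1 : ℕ) : ℝ) := by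
    push_cast
    linarith [show (0 : ℝ) ≤ Λ from by positivity]
  by_cases hum : u < m₀
  · -- few letters
    have h1 : Nat.card Bd ≤ Nat.card (α → α) := Nat.card_le_card_of_injective _ hfinj
    have h2 : Nat.card (α → α) = Nat.card α ^ Nat.card α := by
      rw [Nat.card_fun]
    have h3 : Nat.card α ≤ 4 * m₀ + 1 := by
      have : Nat.card α ≤ (labels s).length := by
        have h4 : Nat.card α = (labels s).toFinset.card := by
          rw [hα, Nat.card_eq_fintype_card, Fintype.card_subtype]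
          congr 1
          ext x
          simp
        rw [h4]
        exact List.toFinset_card_le _
      refine this.trans ?_
      have h5 := length_labels_le s.2
      simp only [labels, List.length_cons]
      omega
    have h6 : Nat.card Bd ≤ (4 * m₀ + 1) ^ (4 * m₀ + 1) := by
      rw [h2] at h1
      refine h1.trans ?_
      refine (Nat.pow_le_pow_left h3 _).trans ?_
      exact Nat.pow_le_pow_right (by omega) h3
    have h7 : Λ ^ u ≤ (Λ + 1) ^ m₀ :=
      (Nat.pow_le_pow_left (by omega) u).trans (Nat.pow_le_pow_right (by omega) hum.le)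
    calc Nat.card Bd * Λ ^ u ≤ (4 * m₀ + 1) ^ (4 * m₀ + 1) * (Λ + 1) ^ m₀ :=
          Nat.mul_le_mul h6 h7
      _ ≤ ((4 * m₀ + 1) ^ (4 * m₀ + 1) * (Λ + 1) ^ m₀ + C₁) * 1 := by omega
      _ ≤ ((4 * m₀ + 1) ^ (4 * m₀ + 1) * (Λ + 1) ^ m₀ + C₁) * (2 * n + 1) ^ u :=
          Nat.mul_le_mul_left _ (Nat.one_le_pow _ _ (by omega))
  · rw [not_lt] at hum
    have hb := hbad α s₁ hWF (by omega)
    have hΦ : ∀ i : Bd, Φ i.1 ∈ badShapes (1 / (8 * m)) δ s₁ := by
      intro i
      obtain ⟨i, hi⟩ := i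
      have hinv' : Involutive (Φ i) := by
        intro x
        apply Subtype.ext
        exact hinv i x.1
      have hfix' : ∀ x : α, Φ i x = x ↔ x = s₁.1 := by
        intro x
        rw [Subtype.ext_iff, Subtype.ext_iff]
        exact hfix i x.1 x.2
      have hmk' : Mk (Φ i) s₁ := by
        intro a p q b hx
        have h1 : Lt.map Subtype.val (Lt.mk a p q b) ∈ s.2 := by
          rw [← hys]
          exact List.mem_map.2 ⟨_, hx, rfl⟩
        apply Subtype.ext
        exact hmk i a.1 p.1 q.1 b.1 h1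
      rw [mem_badShapes]
      refine ⟨⟨hinv', ⟨_, (hfix' _).2 rfl, fun y hy => (hfix' y).1 hy⟩, hmk'⟩, ?_⟩
      intro hgood
      apply hi
      have himp' : imp (fun x : α => ty x.1) s₁ = 0 := by
        rw [← imp_stMap, hsm, himp]
      obtain ⟨a, g, k, s', hrun, r1, r2, r3⟩ := hgood (fun x => ty x.1) (by
        intro x hx
        exact htyp i x.1 x.2 fun h => hx ((hfix' x).2 (Subtype.ext h))) (by
        rw [himp']
        have : (0 : ℝ) ≤ δ * (s₁.2.length : ℝ) := by positivity
        simpa using this)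
      have hrun' := Run.map (f := Subtype.val) Subtype.val_injective (τ' := Z i)
        (fun x => rfl) (W' := Wr ty) (fun x => by simp only [Wr, Lt.map_ent]) hrun
      rw [hsm] at hrun'
      rw [hlen] at r1 r2 r3
      have e1 : (stMap Subtype.val s').2.length = s'.2.length := by simp [stMap]
      refine ⟨a, g, k, _, hrun', ?_, ?_, ?_⟩
      · rw [e1]
        have h1 : (8 * m * s'.2.length : ℝ) ≤ u := by
          calc (8 * m * s'.2.length : ℝ) ≤ 8 * m * (1 / (8 * m) * u) := by gcongr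
            _ = u := by field_simp
        exact_mod_cast h1
      · have h1 : (8 * m * a : ℝ) ≤ (8 * m + 1) * u := by
          calc (8 * m * a : ℝ) ≤ 8 * m * ((1 + 1 / (8 * m)) * u) := by gcongr
            _ = (8 * m + 1) * u := by field_simp
        exact_mod_cast h1
      · have h1 : (8 * m * k : ℝ) ≤ u := by
          calc (8 * m * k : ℝ) ≤ 8 * m * (1 / (8 * m) * u) := by gcongr
            _ = u := by field_simp
        exact_mod_cast h1
    have h1 : (Nat.card Bd : ℝ) ≤ (u.factorial : ℝ) * (u : ℝ) ^ (-(c * u)) := by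
      have h2 : Function.Injective
          (fun i : Bd => (⟨Φ i.1, hΦ i⟩ : badShapes (1 / (8 * m : ℝ)) δ s₁)) := by
        intro i j h
        exact hfinj (congrArg Subtype.val h)
      have h3 := Nat.card_le_card_of_injective _ h2
      rw [Nat.card_eq_fintype_card (α := badShapes (1 / (8 * m : ℝ)) δ s₁),
        Fintype.card_coe] at h3
      rw [hlen] at hb
      refine le_trans ?_ hb
      exact_mod_cast h3
    have h4 : (u.factorial : ℝ) ≤ ((2 * n + 1 : ℕ) : ℝ) ^ u := by
      have h5 : u.factorial ≤ u ^ u := Nat.factorial_le_pow u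
      have h6 : u ^ u ≤ (2 * n + 1) ^ u := Nat.pow_le_pow_left hsn u
      exact_mod_cast h5.trans h6
    have h5 : (Λ : ℝ) ^ u ≤ ((Λ + 1 : ℕ) : ℝ) ^ (2 * u) := by
      calc (Λ : ℝ) ^ u ≤ ((Λ + 1 : ℕ) : ℝ) ^ u := by
            apply pow_le_pow_left₀ (by positivity)
            push_cast
            linarith
        _ ≤ ((Λ + 1 : ℕ) : ℝ) ^ (2 * u) := pow_le_pow_right₀ hΛ1 (by omega)
    have h6 : (Nat.card Bd : ℝ) * (Λ : ℝ) ^ u ≤
        (((4 * m₀ + 1) ^ (4 * m₀ + 1) * (Λ + 1) ^ m₀ + C₁ : ℕ) : ℝ) *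
          ((2 * n + 1 : ℕ) : ℝ) ^ u := by
      calc (Nat.card Bd : ℝ) * (Λ : ℝ) ^ u
          ≤ ((u.factorial : ℝ) * (u : ℝ) ^ (-(c * u))) * ((Λ + 1 : ℕ) : ℝ) ^ (2 * u) := by
            gcongr
        _ = (u.factorial : ℝ) * (((Λ + 1 : ℕ) : ℝ) ^ (2 * u) * (u : ℝ) ^ (-(c * u))) := by ring
        _ ≤ ((2 * n + 1 : ℕ) : ℝ) ^ u * C₁ := by
            gcongr
            exact hC₁ u
        _ ≤ ((2 * n + 1 : ℕ) : ℝ) ^ u *
            (((4 * m₀ + 1) ^ (4 * m₀ + 1) * (Λ + 1) ^ m₀ + C₁ : ℕ) : ℝ) := by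
            gcongr
            have : C₁ ≤ (4 * m₀ + 1) ^ (4 * m₀ + 1) * (Λ + 1) ^ m₀ + C₁ := Nat.le_add_left _ _
            exact_mod_cast this
        _ = _ := mul_comm _ _
    exact_mod_cast h6

end BP2
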