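import Pool.Agent.BP2.MHyp

set_option autoImplicit false

/-! MP_475aca_co, part (M), M4: the target matching of a local transition -/

namespace BP2

open Finset Function

variable {L : Type*} {E I K X : L → L} {U : Set L} {P : L → Prop}

namespace LocQ1

lemma opened' (hD : LocData E I K U P) {z : L} (hz : K z ∈ U) : K z ≠ z ∧ z ∉ U := by
  have h := hD.opened _ hz
  rw [hD.invK z] at h
  exact ⟨fun h1 => h.1 h1.symm, h.2⟩

lemma out_mem (_hD : LocData E I K U P) {z : L} (hz : z ∈ OutL K U P) : K z ∈ U := hz.1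

lemma in_mem (_hD : LocData E I K U P) {z : L} (hz : z ∈ InL I K U P) : K z ∈ U := hz.1

lemma disj (hD : LocData E I K U P) {z : L} (hz : z ∈ OutL K U P) : z ∉ InL I K U P := by
  intro hz'
  exact (hD.first _ hz.1).1 hz.2 hz'.2

lemma X_mem (hD : LocData E I K U P) (hKX : ∀ x, K x ≠ x → X x = K x) {z : L} (hz : K z ∈ U) :
    X z = K z := hKX z (opened' hD hz).1

/-- the mate in `X` of a label of `U` is an out-label or an in-label -/
lemma out_or_in (hX : Involutive X) (hD : LocData E I K U P) (hKX : ∀ x, K x ≠ x → X x = K x)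
    {z : L} (hz : X z ∈ U) : z ∈ OutL K U P ∨ z ∈ InL I K U P := by
  have h1 := hD.opened _ hz
  have h2 := hKX _ h1.1
  rw [hX z] at h2
  have h3 : K z = X z := by
    rw [h2, hD.invK, ← h2]
  have h4 : K z ∈ U := by rw [h3]; exact hz
  by_cases h5 : P (K z)
  · exact Or.inl ⟨h4, h5⟩
  · right
    refine ⟨h4, ?_⟩
    by_contra h6
    exact h5 ((hD.first _ h4).2 h6)

lemma X0_inv (hX : Involutive X) (hD : LocData E I K U P) : Involutive (X0 I X U) := by
  intro z
  unfold X0
  by_cases h1 : z ∈ U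
  · have h2 := hD.invI z h1
    rw [if_pos h1, if_pos h2.1, h2.2.1]
  · rw [if_neg h1]
    by_cases h2 : X z ∈ U
    · rw [if_pos h2, if_neg h1, if_pos h2]
    · rw [if_neg h2, if_neg h2, hX z, if_neg h1]

lemma X0_loose (hD : LocData E I K U P) (hKX : ∀ x, K x ≠ x → X x = K x) {z : L}
    (hz : K z ∈ U) : X0 I X U z = z := by
  have h1 := opened' hD hz
  unfold X0
  rw [if_neg h1.2, X_mem hD hKX hz, if_pos hz]

lemma mat (hX : Involutive X) (hD : LocData E I K U P) (hKX : ∀ x, K x ≠ x → X x = K x)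
    {W : L → L} (hW : W ∈ BijOI I K U P) : Mat (X0 I X U) (OutL K U P) W where
  inv := X0_inv hX hD
  loose a ha := X0_loose hD hKX ha.1
  loose' a ha := X0_loose hD hKX (hW.1.mapsTo ha).1
  inj a ha b hb hab := hW.1.injOn ha hb hab
  disj a ha h := disj hD h (hW.1.mapsTo ha)

end LocQ1

open LocQ1 in
theorem loc_gw {W : L → L} (_hE : Involutive E) (hX : Involutive X) (hD : LocData E I K U P)
    (hKX : ∀ x, K x ≠ x → X x = K x) (hW : W ∈ BijOI I K U P) {T : L}
    (hT : ∀ x, X x = x ↔ x = T) :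
    Involutive (gw (X0 I X U) (OutL K U P) W) ∧
    (∀ x ∈ U, gw (X0 I X U) (OutL K U P) W x = I x) ∧
    (∀ z, z ∉ U → X z ∉ U → gw (X0 I X U) (OutL K U P) W z = X z) ∧
    (∀ z ∈ OutL K U P, gw (X0 I X U) (OutL K U P) W z = W z ∧
      gw (X0 I X U) (OutL K U P) W z ∈ InL I K U P) ∧
    (∀ z ∈ InL I K U P, gw (X0 I X U) (OutL K U P) W z ∈ OutL K U P) ∧
    (∀ x, gw (X0 I X U) (OutL K U P) W x = x ↔ x = T) := by
  have hM := mat hX hD hKX hW
  have hU : ∀ x ∈ U, gw (X0 I X U) (OutL K U P) W x = I x := by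
    intro x hx
    rw [gw_K]
    · unfold X0
      rw [if_pos hx]
    · intro h
      exact (opened' hD h.1).2 hx
    · intro a ha h
      exact (opened' hD (hW.1.mapsTo ha).1).2 (h ▸ hx)
  have hN : ∀ z, z ∉ U → X z ∉ U → gw (X0 I X U) (OutL K U P) W z = X z := by
    intro z hz hXz
    rw [gw_K]
    · unfold X0
      rw [if_neg hz, if_neg hXz]
    · intro h
      apply hXz
      rw [X_mem hD hKX h.1]
      exact h.1
    · intro a ha h
      apply hXz
      have h1 := (hW.1.mapsTo ha).1
      rw [h] at h1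
      rw [X_mem hD hKX h1]
      exact h1
  have hO : ∀ z ∈ OutL K U P, gw (X0 I X U) (OutL K U P) W z = W z ∧
      gw (X0 I X U) (OutL K U P) W z ∈ InL I K U P := by
    intro z hz
    rw [gw_A hz]
    exact ⟨rfl, hW.1.mapsTo hz⟩
  have hI : ∀ z ∈ InL I K U P, gw (X0 I X U) (OutL K U P) W z ∈ OutL K U P := by
    intro z hz
    obtain ⟨a, ha, rfl⟩ := hW.1.surjOn hz
    rw [gw_B hM ha]
    exact ha
  refine ⟨gw_inv hM, hU, hN, hO, hI, ?_⟩
  intro x
  constructor
  · intro hx
    by_cases h1 : x ∈ U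
    · rw [hU x h1] at hx
      exact absurd hx (hD.invI x h1).2.2
    · by_cases h2 : X x ∈ U
      · rcases out_or_in hX hD hKX h2 with h3 | h3
        · have h4 := (hO x h3).2
          rw [hx] at h4
          exact absurd h4 (disj hD h3)
        · have h4 := hI x h3
          rw [hx] at h4
          exact absurd h3 (disj hD h4)
      · rw [hN x h1 h2] at hx
        exact (hT x).1 hx
  · rintro rfl
    have h0 : X x = x := (hT x).2 rfl
    have h1 : x ∉ U := by
      intro h1
      have h2 := hD.opened x h1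
      rw [← hKX x h2.1] at h2
      exact h2.1 h0
    rw [hN x h1 (by rw [h0]; exact h1), h0]

end BP2
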