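import Pool.Agent.BP2.M.Init3
import Pool.Agent.BP2.M.LocQ1

set_option autoImplicit false

/-! MP_475aca_co, part (M), M4: the letters and the typing of a local transition -/

namespace BP2

open Lt Function

open Classical in
/-- the typing of a local transition -/
noncomputable def lty {L : Type*} (K : L → L) (U : Set L) (P : L → Prop) (T : L) (z : L) : Bool :=
  decide (z ∈ OutL K U P ∨ (z ∈ U ∧ P z) ∨ z = T)

namespace LocQ2

variable {L : Type*}

lemma ent_mem (x : Lt L) : x.ent ∈ x.labels := by
  cases x <;> simp [Lt.labels, Lt.ent]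

lemma lv_mem (x : Lt L) : x.lv ∈ x.labels := by
  cases x <;> simp [Lt.labels, Lt.lv]

lemma map_sublist (g : Lt L → L) (hg : ∀ x, g x ∈ x.labels) (xs : List (Lt L)) :
    (xs.map g).Sublist (xs.flatMap Lt.labels) := by
  induction xs with
  | nil => simp
  | cons x xs ih =>
    rw [List.map_cons, List.flatMap_cons]
    have h1 : [g x].Sublist x.labels := List.singleton_sublist.2 (hg x)
    exact h1.append ih

end LocQ2

open LocQ1 LocQ2 in
theorem loc_letters {L : Type*} [Fintype L] {I K : L → L} {U : Set L} {P : L → Prop} {T : L}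
    {xs : List (Lt L)} {X E : L → L} (hD : LocData E I K U P) (hKX : ∀ x, K x ≠ x → X x = K x)
    (hT : ∀ x, X x = x ↔ x = T) (hn : (T :: xs.flatMap Lt.labels).Nodup)
    (hl : ∀ x ∈ xs, Lok I K U P x) (hc : ∀ z ∈ U, ∃ x ∈ xs, X z = x.ent ∨ X z = x.lv) :
    xs.length = (OutL K U P).ncard ∧ imp (lty K U P T) (T, xs) = 0 ∧
    (∀ z ∈ OutL K U P, lty K U P T z = true) ∧ (∀ z ∈ InL I K U P, lty K U P T z = false) ∧
    (∀ x ∈ U, lty K U P T (I x) = !lty K U P T x) ∧
    (∀ z, z ∈ OutL K U P ∨ z ∈ InL I K U P → z ∈ xs.flatMap Lt.labels) ∧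
    (∀ z ∈ xs.flatMap Lt.labels, z ∈ OutL K U P ∨ z ∈ InL I K U P ∨ z ∈ U) ∧
    (∀ z ∈ U, z ∈ xs.flatMap Lt.labels → I z ∈ xs.flatMap Lt.labels) := by
  classical
  have hUT : ∀ x ∈ U, x ≠ T := by
    intro x hx h
    have h1 := hD.opened x hx
    have h2 := (hT x).2 h
    rw [hKX x h1.1] at h2
    exact h1.1 h2
  have hKT : ∀ z, K z ∈ U → z ≠ T := by
    intro z hz h
    have h1 := opened' hD hz
    have h2 := (hT z).2 h
    rw [hKX z h1.1] at h2
    exact h1.1 h2
  have t1 : ∀ z ∈ OutL K U P, lty K U P T z = true := by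
    intro z hz
    simp only [lty, decide_eq_true_eq]
    exact Or.inl hz
  have t2 : ∀ z ∈ InL I K U P, lty K U P T z = false := by
    intro z hz
    simp only [lty, decide_eq_false_iff_not]
    rintro (h | h | h)
    · exact disj hD h hz
    · exact (opened' hD hz.1).2 h.1
    · exact hKT z hz.1 h
  have t0 : ∀ x ∈ U, lty K U P T x = decide (P x) := by
    intro x hx
    simp only [lty, decide_eq_decide]
    constructor
    · rintro (h | h | h)
      · exact absurd h.1 (hD.opened x hx).2
      · exact h.2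
      · exact absurd h (hUT x hx)
    · exact fun h => Or.inr (Or.inl ⟨hx, h⟩)
  have t3 : ∀ x ∈ U, lty K U P T (I x) = !lty K U P T x := by
    intro x hx
    rw [t0 x hx, t0 (I x) (hD.invI x hx).1]
    have := hD.first x hx
    by_cases h : P x
    · have h' := this.1 h
      simp [h, h']
    · have h' : P (I x) := by
        by_contra h'
        exact h (this.2 h')
      simp [h, h']
  have m1 : ∀ z, z ∈ OutL K U P ∨ z ∈ InL I K U P → z ∈ xs.flatMap Lt.labels := by
    intro z hz
    have hz1 : K z ∈ U := by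
      rcases hz with h | h
      · exact h.1
      · exact h.1
    obtain ⟨x, hx, h⟩ := hc _ hz1
    have h1 := (hD.opened _ hz1).1
    rw [hKX _ h1, hD.invK z] at h
    rw [List.mem_flatMap]
    refine ⟨x, hx, ?_⟩
    rcases h with h | h
    · rw [h]; exact ent_mem x
    · rw [h]; exact lv_mem x
  -- the labels of one letter
  have l1 : ∀ x ∈ xs, ∀ z ∈ x.labels, (z = x.ent ∨ z = x.lv) ∨
      ∃ a u l b, x = mk a u l b ∧ (z = a ∨ z = b) := by
    intro x _ z hz
    cases x with
    | gap u l =>
      simp only [Lt.labels, List.mem_cons, List.not_mem_nil, or_false] at hz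
      rcases hz with h | h
      · exact Or.inl (Or.inr h)
      · exact Or.inl (Or.inl h)
    | mk a u l b =>
      simp only [Lt.labels, List.mem_cons, List.not_mem_nil, or_false] at hz
      rcases hz with h | h | h | h
      · exact Or.inr ⟨a, u, l, b, rfl, Or.inl h⟩
      · exact Or.inl (Or.inl h)
      · exact Or.inl (Or.inr h)
      · exact Or.inr ⟨a, u, l, b, rfl, Or.inr h⟩
  have l2 : ∀ x ∈ xs, ∀ z, (z = x.ent ∨ z = x.lv) → z ∈ OutL K U P ∨ z ∈ InL I K U P := by
    intro x hx z hz
    rcases (hl x hx).1 with ⟨h1, h2⟩ | ⟨h1, h2⟩ <;> rcases hz with rfl | rfl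
    · exact Or.inl h1
    · exact Or.inr h2
    · exact Or.inr h1
    · exact Or.inl h2
  refine ⟨?_, ?_, t1, t2, t3, m1, ?_, ?_⟩
  · -- the number of the letters
    set g : Lt L → L := fun x => if x.ent ∈ OutL K U P then x.ent else x.lv with hg
    have g1 : ∀ x, g x ∈ x.labels := by
      intro x
      simp only [hg]
      split_ifs
      · exact ent_mem x
      · exact lv_mem x
    have g2 : ∀ x ∈ xs, g x ∈ OutL K U P := by
      intro x hx
      simp only [hg]
      split_ifs with h
      · exact h
      · rcases (hl x hx).1 with ⟨h1, _⟩ | ⟨_, h2⟩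
        · exact absurd h1 h
        · exact h2
    have g3 : (xs.map g).Nodup := (List.nodup_cons.1 hn).2.sublist (map_sublist g g1 xs)
    have g4 : OutL K U P = ((xs.map g).toFinset : Set L) := by
      ext z
      simp only [List.coe_toFinset, Set.mem_setOf_eq, List.mem_map]
      constructor
      · intro hz
        obtain ⟨x, hx, h⟩ := hc _ hz.1
        have h1 := (hD.opened _ hz.1).1
        rw [hKX _ h1, hD.invK z] at h
        refine ⟨x, hx, ?_⟩
        simp only [hg]
        rcases h with h | h
        · rw [← h, if_pos hz]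
        · rcases (hl x hx).1 with ⟨h1, h2⟩ | ⟨h1, h2⟩
          · rw [← h] at h2
            exact absurd h2 (disj hD hz)
          · rw [if_neg (fun h3 => disj hD h3 h1), h]
      · rintro ⟨x, hx, rfl⟩
        exact g2 x hx
    rw [g4, Set.ncard_coe_finset, List.toFinset_card_of_nodup g3, List.length_map]
  · -- every letter is proper
    unfold imp
    have h1 : lty K U P T T = true := by
      simp [lty]
    rw [h1]
    simp only [Bool.not_true, Bool.toNat_false, add_zero, List.countP_eq_zero]
    intro x hx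
    rcases (hl x hx).1 with ⟨h2, h3⟩ | ⟨h2, h3⟩
    · simp [t1 _ h2, t2 _ h3]
    · simp [t2 _ h2, t1 _ h3]
  · intro z hz
    obtain ⟨x, hx, hzx⟩ := List.mem_flatMap.1 hz
    rcases l1 x hx z hzx with h | ⟨a, u, l, b, rfl, h⟩
    · rcases l2 x hx z h with h | h
      · exact Or.inl h
      · exact Or.inr (Or.inl h)
    · obtain ⟨h1, h2⟩ := (hl _ hx).2 a u l b rfl
      rcases h with rfl | rfl
      · exact Or.inr (Or.inr h1)
      · rw [← h2]
        exact Or.inr (Or.inr (hD.invI _ h1).1)
  · intro z hzU hz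
    obtain ⟨x, hx, hzx⟩ := List.mem_flatMap.1 hz
    rcases l1 x hx z hzx with h | ⟨a, u, l, b, rfl, h⟩
    · exfalso
      rcases l2 x hx z h with h | h
      · exact (opened' hD h.1).2 hzU
      · exact (opened' hD h.1).2 hzU
    · obtain ⟨h1, h2⟩ := (hl _ hx).2 a u l b rfl
      rw [List.mem_flatMap]
      refine ⟨_, hx, ?_⟩
      rcases h with rfl | rfl
      · rw [h2]; simp [Lt.labels]
      · rw [← h2, (hD.invI _ h1).2.1]; simp [Lt.labels]

end BP2
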