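import Pool.Agent.BP2.M.Init3
import Pool.Agent.BP2.M.LocP1
import Pool.Agent.BP2.M.LocP2
import Pool.Agent.BP2.M.LocP3
import Pool.Agent.BP2.M.LocP4
import Pool.Agent.BP2.M.LocQ2

set_option autoImplicit false

/-!
# MP_475aca_co, part (M), M4: LocHyp
-/

namespace BP2

open Lt Function

/-- the run of `Z` from `s` is cheap -/
def RunGood {L : Type*} (m : ℕ) (s : St L) (ty : L → Bool) (Z : L → L) : Prop :=
  ∃ (a g k : ℕ) (s' : St L), Run Z (Wr ty) a g k s s' ∧ 8 * m * s'.2.length ≤ s.2.length ∧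
    8 * m * a ≤ (8 * m + 1) * s.2.length ∧ 8 * m * k ≤ s.2.length

/-- a good run gives a cheap `W` -/
theorem loc_run {L : Type} [Fintype L] {E X Z : L → L} {ty : L → Bool}
    {t : L} {G : List (L × L)} (hE : IsEl E) (hR : RepL E X t G) (hZ : Involutive Z) {f : L}
    {xs : List (Lt L)} {n m u : ℕ} (hm : 0 < m) (hu : xs.length = u) (hun : u ≤ n)
    (hs : Sg E Z (Wr ty) u t xs f ((t :: lbG G) ++ [f]))
    (hg : RunGood m (t, xs) ty Z) :
    ∃ Y, IsArr E Y ∧ m * chg Y Z ≤ n + 2 * m ∧
      ∃ k, Reach E k X Y ∧ m * k ≤ 2 * (m + 1) * u + n + 2 * m := by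
  obtain ⟨n', g, k, s', hr, h1, h2, h3⟩ := hg
  obtain ⟨c, m', w', hl, hs', hc⟩ := sim hE.invol hZ hr (m := u) hs
  obtain ⟨Y, t', G', hY, rfl, hreach⟩ := LR.reach hE.invol hR hl
  obtain ⟨_, hchg⟩ := Sg.chg_le hZ hs' hY
  simp only [hu] at h1 h2 h3
  refine ⟨Y, hY.isArr hE.invol, ?_, c, hreach, ?_⟩
  · have e1 : m * chg Y Z ≤ m * (4 * s'.2.length + 2) := Nat.mul_le_mul_left _ hchg
    nlinarith
  · have e1 : m * c ≤ m * (n' + u + 2 * k) := Nat.mul_le_mul_left _ (by omega)
    nlinarith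

theorem locHyp (hD : TheoremD) : LocHyp := by
  classical
  refine ⟨1, fun m Λ hm => ?_⟩
  obtain ⟨C, hC⟩ := loc_count hD m Λ hm
  refine ⟨max C (2 * m), ?_⟩
  intro L _ E I K X U P n hcard hE hX hLD hKX
  obtain ⟨t, G, hR⟩ := exists_repL hE hX
  obtain ⟨f, hf, hfu⟩ := hE.floor
  have hT : ∀ x, X x = x ↔ x = t := fun x => hR.fix_iff x
  have hw := hR.wlk hE.invol
  have hfl := hR.fl_eq hE.invol hf hfu
  set ty := lty K U P t with hty
  have htyo : ∀ z ∈ OutL K U P, ty z = true := by
    intro z hz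
    simp only [hty, lty, decide_eq_true_eq]
    exact Or.inl hz
  have hUX : ∀ x ∈ U, X x ≠ x := fun x hx => by
    have := (hLD.opened x hx).1
    rw [hKX x this]
    exact this
  obtain ⟨xs, h1, h2, h3, h4⟩ := init_rec hw hE.invol hX.invol hfu hLD hKX htyo
    (G.map Prod.snd).length [] t (G.map Prod.snd) le_rfl rfl (by
      intro z hz
      simp [Psd, Lab])
  have hnd : (t :: xs.flatMap Lt.labels).Nodup := by
    refine hR.nodup.sublist ?_
    refine List.Sublist.cons_cons t ?_
    rw [hfl] at h2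
    simpa using h2
  obtain ⟨q1, q2, q3, q4, q5, q6, q7, q8⟩ := loc_letters hLD hKX hT hnd h3 (by
    intro z hz
    exact h4 z hz (by simp [Psd, Lab]))
  -- the number of the letters
  have hun : xs.length ≤ n := by
    have e1 : (t :: xs.flatMap Lt.labels).length ≤ Fintype.card L := hnd.length_le_card
    have e2 : ∀ ys : List (Lt L), 2 * ys.length ≤ (ys.flatMap Lt.labels).length := by
      intro ys
      induction ys with
      | nil => simp
      | cons x ys ih =>
        rw [List.flatMap_cons, List.length_append, List.length_cons]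
        have : 2 ≤ (Lt.labels x).length := by cases x <;> simp [Lt.labels]
        omega
    have e3 := e2 xs
    rw [List.length_cons, hcard] at e1
    omega
  have hlab : ∀ x, x ∈ labels ((t, xs) : St L) ↔ x = t ∨ x ∈ xs.flatMap Lt.labels := by
    intro x
    simp [labels]
  have key := hC L {W : L → L // W ∈ BijOI I K U P}
    (fun W => gw (X0 I X U) (OutL K U P) W.1) (t, xs) ty n hnd (by simp only; omega)
    (fun W => (loc_gw hE.invol hX.invol hLD hKX W.2 hT).1)
    (fun W x _ => (loc_gw hE.invol hX.invol hLD hKX W.2 hT).2.2.2.2.2 x) ?_ ?_ ?_ q2 ?_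
  · rw [← q1]
    have hle : Nat.card {W : L → L // W ∈ BijOI I K U P ∧
          ¬ LocGood E I K X U P n m (max C (2 * m)) W} ≤
        Nat.card {W : {W : L → L // W ∈ BijOI I K U P} //
          ¬ RunGood m (t, xs) ty (gw (X0 I X U) (OutL K U P) W.1)} := by
      have hgood : ∀ W : {W : L → L // W ∈ BijOI I K U P ∧
          ¬ LocGood E I K X U P n m (max C (2 * m)) W},
          ¬ RunGood m (t, xs) ty (gw (X0 I X U) (OutL K U P) W.1) := by
        rintro ⟨W, w1, w2⟩ hg
        apply w2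
        obtain ⟨z1, z2, z3, z4, z5, z6⟩ := loc_gw hE.invol hX.invol hLD hKX w1 hT
        have hs := h1 _ ⟨z2, z3⟩
        rw [hfl] at hs
        obtain ⟨Y, y1, y2, k, y3, y4⟩ := loc_run hE hR z1 hm rfl hun hs hg
        refine ⟨Y, y1, ?_, k, y3, ?_⟩
        · have := le_max_right C (2 * m)
          omega
        · rw [← q1]
          have := le_max_right C (2 * m)
          omega
      refine Nat.card_le_card_of_injective (fun W => ⟨⟨W.1, W.2.1⟩, hgood W⟩) ?_
      rintro ⟨W, w⟩ ⟨W', w'⟩ h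
      simp only [Subtype.mk.injEq] at h
      exact Subtype.ext h
    calc _ ≤ Nat.card {W : {W : L → L // W ∈ BijOI I K U P} //
          ¬ RunGood m (t, xs) ty (gw (X0 I X U) (OutL K U P) W.1)} * Λ ^ xs.length :=
          Nat.mul_le_mul_right _ hle
      _ ≤ C * (2 * n + 1) ^ xs.length := key
      _ ≤ max C (2 * m) * 1 ^ n * (2 * n + 1) ^ xs.length := by
          rw [one_pow, mul_one]
          exact Nat.mul_le_mul_right _ (le_max_left _ _)
  · intro W x hx
    obtain ⟨z1, z2, z3, z4, z5, z6⟩ := loc_gw hE.invol hX.invol hLD hKX W.2 hT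
    rw [hlab] at hx ⊢
    rcases hx with rfl | hx
    · exact Or.inl ((z6 _).2 rfl)
    · right
      rcases q7 x hx with h | h | h
      · exact q6 _ (Or.inr (z4 x h).2)
      · exact q6 _ (Or.inl (z5 x h))
      · show gw (X0 I X U) (OutL K U P) W x ∈ _
        rw [z2 x h]
        exact q8 x h hx
  · intro W a u l b hab
    obtain ⟨z1, z2, z3, z4, z5, z6⟩ := loc_gw hE.invol hX.invol hLD hKX W.2 hT
    have := (h3 _ hab).2 a u l b rfl
    show gw (X0 I X U) (OutL K U P) W a = b
    rw [z2 a this.1]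
    exact this.2
  · intro W W' h
    obtain ⟨_, _, _, z4, _, _⟩ := loc_gw hE.invol hX.invol hLD hKX W.2 hT
    obtain ⟨_, _, _, z4', _, _⟩ := loc_gw hE.invol hX.invol hLD hKX W'.2 hT
    apply Subtype.ext
    funext z
    by_cases hz : z ∈ OutL K U P
    · rw [← (z4 z hz).1, ← (z4' z hz).1]
      refine h z ?_
      rw [hlab]
      exact Or.inr (q6 z (Or.inl hz))
    · rw [W.2.2 z hz, W'.2.2 z hz]
  · intro W x hx hxt
    obtain ⟨z1, z2, z3, z4, z5, z6⟩ := loc_gw hE.invol hX.invol hLD hKX W.2 hT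
    rw [hlab] at hx
    rcases hx with rfl | hx
    · exact absurd rfl hxt
    rcases q7 x hx with h | h | h
    · show lty K U P t (gw (X0 I X U) (OutL K U P) W x) = !lty K U P t x
      rw [q4 _ (z4 x h).2, q3 x h]
      rfl
    · show lty K U P t (gw (X0 I X U) (OutL K U P) W x) = !lty K U P t x
      rw [q3 _ (z5 x h), q4 x h]
      rfl
    · show lty K U P t (gw (X0 I X U) (OutL K U P) W x) = !lty K U P t x
      rw [z2 x h]
      exact q5 x h

end BP2
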