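import Mathlib

set_option autoImplicit false

/-!
# MP_475aca_co, part (M): the numbers for the local levels

From `M! * M ^ (- c M)` (TheoremD) to: smaller than every exponential, in natural numbers.
-/

namespace BP2

open Finset

lemma num_sup_real {c : ℝ} (hc : 0 < c) (Λ : ℕ) : ∃ C : ℕ, 1 ≤ C ∧ ∀ M : ℕ,
    (Λ : ℝ) ^ M * (M : ℝ) ^ (-(c * M)) ≤ C := by
  have h2 : Filter.Tendsto (fun M : ℕ => (M : ℝ) ^ c) Filter.atTop Filter.atTop :=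
    (tendsto_rpow_atTop hc).comp tendsto_natCast_atTop_atTop
  obtain ⟨M₁, hM₁⟩ := Filter.eventually_atTop.1 (h2.eventually_ge_atTop (Λ : ℝ))
  refine ⟨(Λ + 1) ^ (M₁ + 1), Nat.one_le_pow _ _ (by omega), fun M => ?_⟩
  by_cases hM : M₁ + 1 ≤ M
  · have hM0 : (0 : ℝ) < M := by
      have : 0 < M := by omega
      exact_mod_cast this
    have h3 : (Λ : ℝ) ≤ (M : ℝ) ^ c := hM₁ M (by omega)
    have h4 : (M : ℝ) ^ (-(c * M)) = (((M : ℝ) ^ c) ^ M)⁻¹ := by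
      rw [Real.rpow_neg hM0.le, Real.rpow_mul hM0.le, Real.rpow_natCast]
    have h5 : (0 : ℝ) < ((M : ℝ) ^ c) ^ M := by positivity
    have h6 : (Λ : ℝ) ^ M ≤ ((M : ℝ) ^ c) ^ M := pow_le_pow_left₀ (by positivity) h3 M
    rw [h4]
    calc (Λ : ℝ) ^ M * (((M : ℝ) ^ c) ^ M)⁻¹ ≤ ((M : ℝ) ^ c) ^ M * (((M : ℝ) ^ c) ^ M)⁻¹ := by
          gcongr
      _ = 1 := mul_inv_cancel₀ h5.ne'
      _ ≤ (((Λ + 1) ^ (M₁ + 1) : ℕ) : ℝ) := by
          exact_mod_cast Nat.one_le_pow _ _ (by omega)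
  · have h3 : (M : ℝ) ^ (-(c * M)) ≤ 1 := by
      rcases Nat.eq_zero_or_pos M with rfl | h
      · simp
      · have hM1 : (1 : ℝ) ≤ M := by exact_mod_cast h
        refine Real.rpow_le_one_of_one_le_of_nonpos hM1 ?_
        have : 0 ≤ c * M := by positivity
        linarith
    have h4 : (Λ : ℝ) ^ M ≤ (((Λ + 1) ^ (M₁ + 1) : ℕ) : ℝ) := by
      have : Λ ^ M ≤ (Λ + 1) ^ (M₁ + 1) :=
        (Nat.pow_le_pow_left (by omega) M).trans (Nat.pow_le_pow_right (by omega) (by omega))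
      exact_mod_cast this
    calc (Λ : ℝ) ^ M * (M : ℝ) ^ (-(c * M)) ≤ (Λ : ℝ) ^ M * 1 := by gcongr
      _ ≤ _ := by rw [mul_one]; exact h4

/-- `cnt` = number of the exceptions among the `M!` bijections. If it is at most
`M! * M ^ (- c M)` for `M ≥ m₀`, then it beats every exponential. -/
theorem num_sup {c : ℝ} (hc : 0 < c) (Λ m₀ : ℕ) : ∃ C : ℕ, ∀ M cnt : ℕ,
    cnt ≤ M.factorial →
    (m₀ ≤ M → (cnt : ℝ) ≤ (M.factorial : ℝ) * (M : ℝ) ^ (-(c * M))) →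
    ∀ N : ℕ, M ≤ N → cnt * Λ ^ M ≤ C * N ^ M := by
  obtain ⟨C, hC1, hC⟩ := num_sup_real hc Λ
  refine ⟨C + (Λ + 1) ^ m₀, fun M cnt h0 h1 N hN => ?_⟩
  have hf : M.factorial ≤ N ^ M := (Nat.factorial_le_pow M).trans (Nat.pow_le_pow_left hN M)
  by_cases hM : m₀ ≤ M
  · have h2 := h1 hM
    have h3 : (cnt : ℝ) * (Λ : ℝ) ^ M ≤ (C : ℝ) * (N : ℝ) ^ M := by
      calc (cnt : ℝ) * (Λ : ℝ) ^ M ≤ ((M.factorial : ℝ) * (M : ℝ) ^ (-(c * M))) * (Λ : ℝ) ^ M := by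
            gcongr
        _ = (M.factorial : ℝ) * ((Λ : ℝ) ^ M * (M : ℝ) ^ (-(c * M))) := by ring
        _ ≤ (M.factorial : ℝ) * C := by
            gcongr
            exact hC M
        _ ≤ (N : ℝ) ^ M * C := by
            gcongr
            exact_mod_cast hf
        _ = (C : ℝ) * (N : ℝ) ^ M := by ring
    have h4 : cnt * Λ ^ M ≤ C * N ^ M := by exact_mod_cast h3
    calc cnt * Λ ^ M ≤ C * N ^ M := h4
      _ ≤ (C + (Λ + 1) ^ m₀) * N ^ M := by gcongr; omega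
  · have h2 : Λ ^ M ≤ (Λ + 1) ^ m₀ :=
      (Nat.pow_le_pow_left (by omega) M).trans (Nat.pow_le_pow_right (by omega) (by omega))
    calc cnt * Λ ^ M ≤ N ^ M * (Λ + 1) ^ m₀ := Nat.mul_le_mul (h0.trans hf) h2
      _ = (Λ + 1) ^ m₀ * N ^ M := mul_comm _ _
      _ ≤ (C + (Λ + 1) ^ m₀) * N ^ M := by gcongr; omega

end BP2
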