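import Pool.Agent.BP2.MHyp
import Pool.Agent.BP2.S.Coord

set_option autoImplicit false

/-!
# MP_475aca_co, part (M): `PosHyp` (the slots of an arrangement)
-/

namespace BP2

open Finset Function

theorem IsArr.acyc {L : Type*} {E X : L → L} (hE : IsEl E) (hX : IsArr E X) : Acyc E X := by
  intro C hC ⟨c, hc⟩
  obtain ⟨f, hf, -⟩ := hE.floor
  exact ⟨f, hX.conn c f C hC hc, Or.inl hf⟩

/-- the coordinate of an arrangement: `0` at the top -/
theorem IsArr.exists_coord {L : Type*} [Finite L] {E X : L → L} (hE : IsEl E) (hX : IsArr E X)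
    {T : L} (hT : X T = T) : ∃ p : L → ℤ, Coord E X p ∧ p T = 0 := by
  obtain ⟨p, hp⟩ := BP2.exists_coord hE.invol hX.invol (hX.acyc hE)
  have key : ∀ q : L → ℤ, Coord E X q → Even (q T) → ∃ p : L → ℤ, Coord E X p ∧ p T = 0 := by
    intro q hq hev
    have h := hq.shift hE.invol hX.invol (C := Set.univ) (fun _ _ => ⟨trivial, trivial⟩)
      (c := - q T) hev.neg
    refine ⟨_, h, ?_⟩
    simp
  by_cases hev : Even (p T)
  · exact key p hp hev
  · have h := hp.rev hE.invol hX.invol (C := Set.univ) (fun _ _ => ⟨trivial, trivial⟩)
    refine key _ h ?_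
    rw [Int.not_even_iff_odd] at hev
    simp only [Set.mem_univ, if_true]
    exact Int.even_sub.2 ⟨fun h => absurd h (by decide), fun h => absurd h
      (Int.not_even_iff_odd.2 hev)⟩

theorem posHyp : PosHyp := by
  classical
  intro L _ E X n hcard hE hX
  obtain ⟨T, hT, hTu⟩ := hX.top
  obtain ⟨f, hf, hfu⟩ := hE.floor
  obtain ⟨p, hp, hpT⟩ := hX.exists_coord hE hT
  have hev0 : Even (p T) := by rw [hpT]; exact Even.zero
  have hpos : ∀ z, 0 ≤ p z := fun z => hpT ▸ hp.first_k hT hev0 (hX.conn T z)
  have hfe : Even (p f) := by
    by_contra h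
    have h1 := hp.first_e hf (Int.not_even_iff_odd.1 h) (hX.conn f T)
    rw [hpT] at h1
    have h2 : p f = 0 := le_antisymm h1 (hpos f)
    exact h (h2 ▸ Even.zero)
  have hle : ∀ z, p z ≤ p f := fun z => hp.last_e hf hfe (hX.conn f z)
  have hinj : ∀ x y, p x = p y → x = y := fun x y h => hp.inj x y (hX.conn x y) h
  have hsurj : ∀ j : ℕ, (j : ℤ) ≤ p f → ∃ z, p z = j := by
    intro j
    induction j with
    | zero => exact fun _ => ⟨T, hpT⟩
    | succ j ih =>
      intro hj
      push_cast at hj
      obtain ⟨z, hz⟩ := ih (by omega)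
      rcases Int.even_or_odd (p z) with h | h
      · refine ⟨E z, ?_⟩
        have hne : E z ≠ z := by
          intro h2
          have := hfu z h2
          subst this
          omega
        rw [hp.e_even hne h, hz]
        push_cast
        rfl
      · refine ⟨X z, ?_⟩
        have hne : X z ≠ z := by
          intro h2
          have := hTu z h2
          subst this
          rw [hpT] at h
          exact absurd h (by decide)
        rw [hp.k_odd hne h, hz]
        push_cast
        rfl
  -- the number of the labels
  have hNf : ((p f).toNat : ℤ) = p f := Int.toNat_of_nonneg (hpos f)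
  let g : L → Fin ((p f).toNat + 1) := fun x => ⟨(p x).toNat, by
    have h1 := hle x
    have h2 := hpos x
    omega⟩
  have hg : Function.Bijective g := by
    refine ⟨fun x y h => ?_, fun j => ?_⟩
    · have h1 : (p x).toNat = (p y).toNat := congrArg Fin.val h
      have h2 := hpos x
      have h3 := hpos y
      exact hinj x y (by omega)
    · obtain ⟨z, hz⟩ := hsurj j (by
        have := j.2
        omega)
      refine ⟨z, Fin.ext ?_⟩
      show (p z).toNat = j
      omega
  have hc : (p f).toNat + 1 = 2 * n + 1 := by
    rw [← hcard, Fintype.card_of_bijective hg, Fintype.card_fin]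
  have hfn : p f = 2 * n := by omega
  let q : L → Fin (2 * n + 1) := fun x => ⟨(p x).toNat, by
    have h1 := hle x
    have h2 := hpos x
    omega⟩
  have hqv : ∀ x, ((q x : ℕ) : ℤ) = p x := fun x => Int.toNat_of_nonneg (hpos x)
  have hq : Function.Bijective q := by
    refine (Fintype.bijective_iff_injective_and_card q).2 ⟨fun x y h => ?_, ?_⟩
    · refine hinj x y ?_
      rw [← hqv, ← hqv, h]
    · rw [hcard, Fintype.card_fin]
  refine ⟨Equiv.ofBijective q hq, fun x => ?_, fun x => ?_⟩
  · show q (E x) = e0 n (q x)
    apply Fin.ext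
    have h1 := hqv x
    have h2 := hqv (E x)
    unfold e0
    by_cases hx : E x = x
    · have h3 := hfu x hx
      have h4 : (q x : ℕ) = 2 * n := by
        subst h3
        omega
      rw [dif_pos h4, hx]
    · have h4 : (q x : ℕ) ≠ 2 * n := by
        intro h5
        have h6 : p x = p f := by omega
        exact hx ((hinj x f h6).symm ▸ hf)
      rw [dif_neg h4]
      rcases Int.even_or_odd (p x) with h | h
      · have h5 := hp.e_even hx h
        have h6 : (q x : ℕ) % 2 = 0 := by
          obtain ⟨r, hr⟩ := h
          omega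
        rw [dif_pos h6]
        show (q (E x) : ℕ) = q x + 1
        omega
      · have h5 := hp.e_odd hx h
        have h6 : ¬ (q x : ℕ) % 2 = 0 := by
          obtain ⟨r, hr⟩ := h
          omega
        rw [dif_neg h6]
        show (q (E x) : ℕ) = q x - 1
        omega
  · show q (X x) = y0 n (q x)
    apply Fin.ext
    have h1 := hqv x
    have h2 := hqv (X x)
    unfold y0
    by_cases hx : X x = x
    · have h3 := hTu x hx
      have h4 : (q x : ℕ) = 0 := by
        subst h3
        omega
      rw [dif_pos h4, hx]
    · have h4 : (q x : ℕ) ≠ 0 := by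
        intro h5
        have h6 : p x = p T := by omega
        exact hx ((hinj x T h6).symm ▸ hT)
      rw [dif_neg h4]
      rcases Int.even_or_odd (p x) with h | h
      · have h5 := hp.k_even hx h
        have h6 : (q x : ℕ) % 2 = 0 := by
          obtain ⟨r, hr⟩ := h
          omega
        rw [dif_pos h6]
        show (q (X x) : ℕ) = q x - 1
        omega
      · have h5 := hp.k_odd hx h
        have h6 : ¬ (q x : ℕ) % 2 = 0 := by
          obtain ⟨r, hr⟩ := h
          omega
        rw [dif_neg h6]
        show (q (X x) : ℕ) = q x + 1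
        omega

end BP2
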