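import Pool.Agent.BP2.M.List
import Pool.Agent.BP2.D.Stmt

set_option autoImplicit false

/-!
# MP_475aca_co, part (M), M3: letters and adjacencies, runs and flips

* `Rz sol real xs G` : the list `G` of adjacencies consists of realisations (`real x r`) of the
  letters `x` of `xs`, in this order, with solid adjacencies (`sol p`) in between; `Rz.append`,
  `Rz.split`, `Rz.rs`;
* `real0` : a gap is one adjacency, a marker is two adjacencies with solid adjacencies in between;
* `Run.rf_gap` : a run on gaps is `n` list flips;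
* `Run.map` : runs are transported by injective maps of the labels.
-/

namespace BP2

open Lt

variable {α L : Type*}

/-! ### letters and adjacencies -/

/-- `G` = realisations of the letters `xs` with solid adjacencies in between -/
inductive Rz (sol : L × L → Prop) (real : Lt L → List (L × L) → Prop) :
    List (Lt L) → List (L × L) → Prop
  | nil : Rz sol real [] []
  | sol {p : L × L} {xs : List (Lt L)} {G : List (L × L)} :
      sol p → Rz sol real xs G → Rz sol real xs (p :: G)
  | lt {x : Lt L} {r : List (L × L)} {xs : List (Lt L)} {G : List (L × L)} :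
      real x r → Rz sol real xs G → Rz sol real (x :: xs) (r ++ G)

namespace Rz

variable {sol : L × L → Prop} {real : Lt L → List (L × L) → Prop}

lemma append {xs ys : List (Lt L)} {G H : List (L × L)} (h : Rz sol real xs G)
    (h' : Rz sol real ys H) : Rz sol real (xs ++ ys) (G ++ H) := by
  induction h with
  | nil => exact h'
  | sol hp _ ih => exact Rz.sol hp ih
  | lt hr _ ih =>
    rw [List.append_assoc]
    exact Rz.lt hr ih

lemma solid {G : List (L × L)} (h : ∀ p ∈ G, sol p) : Rz sol real [] G := by
  induction G with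
  | nil => exact Rz.nil
  | cons p G ih =>
    exact Rz.sol (h p (by simp)) (ih fun q hq => h q (List.mem_cons_of_mem _ hq))

lemma of_nil {G : List (L × L)} (h : Rz sol real [] G) : ∀ p ∈ G, sol p := by
  generalize hx : ([] : List (Lt L)) = xs at h
  induction h with
  | nil => simp
  | sol hp _ ih =>
    intro q hq
    rcases List.mem_cons.1 hq with rfl | hq
    · exact hp
    · exact ih hx q hq
  | lt _ _ _ => cases hx

lemma single {x : Lt L} {r : List (L × L)} (h : real x r) : Rz sol real [x] r := by
  have := Rz.lt (sol := sol) h Rz.nil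
  rwa [List.append_nil] at this

lemma split {xs ys : List (Lt L)} {K : List (L × L)} (h : Rz sol real (xs ++ ys) K) :
    ∃ G H, K = G ++ H ∧ Rz sol real xs G ∧ Rz sol real ys H := by
  generalize hz : xs ++ ys = zs at h
  induction h generalizing xs with
  | nil =>
    rw [List.append_eq_nil_iff] at hz
    obtain ⟨rfl, rfl⟩ := hz
    exact ⟨[], [], rfl, Rz.nil, Rz.nil⟩
  | sol hp h0 ih =>
    obtain ⟨G, H, rfl, h1, h2⟩ := ih hz
    exact ⟨_ :: G, H, rfl, Rz.sol hp h1, h2⟩
  | @lt x r zs' G0 hr h0 ih =>
    cases xs with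
    | nil =>
      simp only [List.nil_append] at hz
      subst hz
      exact ⟨[], _, rfl, Rz.nil, Rz.lt hr h0⟩
    | cons x' xs =>
      simp only [List.cons_append, List.cons.injEq] at hz
      obtain ⟨rfl, hz⟩ := hz
      obtain ⟨G, H, rfl, h1, h2⟩ := ih hz
      exact ⟨r ++ G, H, by rw [List.append_assoc], Rz.lt hr h1, h2⟩

/-- the letter `x` in the middle -/
lemma split_cons {xs ys : List (Lt L)} {x : Lt L} {K : List (L × L)}
    (h : Rz sol real (xs ++ x :: ys) K) :
    ∃ G r H, K = G ++ r ++ H ∧ Rz sol real xs G ∧ real x r ∧ Rz sol real ys H := by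
  obtain ⟨G, H, rfl, h1, h2⟩ := h.split
  generalize hz : x :: ys = zs at h2
  induction h2 generalizing G with
  | nil => cases hz
  | @sol p zs' H' hp h0 ih =>
    have h1' : Rz sol real xs (G ++ [p]) := by
      have := h1.append (Rz.sol hp Rz.nil)
      rwa [List.append_nil] at this
    obtain ⟨G', r, H'', e, a, b, c⟩ := ih (G ++ [p]) (by
      have := h1'.append h0
      rwa [← hz] at this) h1' hz
    refine ⟨G', r, H'', ?_, a, b, c⟩
    rw [← e]
    simp
  | @lt x' r zs' H' hr h0 _ =>
    cases hz
    exact ⟨G, r, H', by rw [List.append_assoc], h1, hr, h0⟩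

lemma rs (hs : ∀ p, sol p → sol p.swap) (hr : ∀ x r, real x r → real (sw x) (rsG r))
    {xs : List (Lt L)} {G : List (L × L)} (h : Rz sol real xs G) :
    Rz sol real (BP2.rs xs) (rsG G) := by
  induction h with
  | nil => exact Rz.nil
  | sol hp _ ih =>
    rw [rsG_cons]
    have := ih.append (Rz.sol (hs _ hp) Rz.nil)
    rwa [List.append_nil] at this
  | @lt x r xs G hxr _ ih =>
    rw [rsG_append, show x :: xs = [x] ++ xs from rfl, rs_append, rs_single]
    exact ih.append (single (hr _ _ hxr))

end Rz

/-- the standard realisations -/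
inductive real0 (sol : L × L → Prop) : Lt L → List (L × L) → Prop
  | gap (u l : L) : real0 sol (gap u l) [(u, l)]
  | mk (a u l b : L) (S : List (L × L)) : (∀ p ∈ S, sol p) →
      real0 sol (mk a u l b) ((a, u) :: (S ++ [(l, b)]))

lemma real0.sw {sol : L × L → Prop} (hs : ∀ p, sol p → sol p.swap) {x : Lt L}
    {r : List (L × L)} (h : real0 sol x r) : real0 sol (sw x) (rsG r) := by
  cases h with
  | gap u l => exact real0.gap l u
  | mk a u l b S hS =>
    have : rsG ((a, u) :: (S ++ [(l, b)])) = (b, l) :: (rsG S ++ [(u, a)]) := by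
      simp [rsG]
    rw [this]
    refine real0.mk b l u a _ fun p hp => ?_
    rw [mem_rsG] at hp
    have := hs _ (hS _ hp)
    rwa [Prod.swap_swap] at this

/-! ### one visit -/

/-- the state `(t, G)` of adjacencies realises the state `s` of letters -/
def Rs (sol : L × L → Prop) (real : Lt L → List (L × L) → Prop) (s : St L)
    (r : L × List (L × L)) : Prop := r.1 = s.1 ∧ Rz sol real s.2 r.2

/-- visit of a gap which is one adjacency: one flip -/
lemma rf_gap {sol : L × L → Prop} {real : Lt L → List (L × L) → Prop}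
    (hs : ∀ p, sol p → sol p.swap) (hr : ∀ x r, real x r → real (sw x) (rsG r))
    {A B : List (Lt L)} {GA GB : List (L × L)} {t u l : L} {y : List (Lt L)}
    (hA : Rz sol real A GA) (hB : Rz sol real B GB) (hy : Rz sol real y [(t, l)]) :
    RF 1 (t, GA ++ [(u, l)] ++ GB) (u, rsG GA ++ [(t, l)] ++ GB) ∧
      Rz sol real (rs A ++ y ++ B) (rsG GA ++ [(t, l)] ++ GB) := by
  refine ⟨?_, ((hA.rs hs hr).append hy).append hB⟩
  have := RF.step (RF.refl (t, GA ++ (u, l) :: GB))
  simpa using this

/-- visit of a marker which is `(a, u) S (l, b)`: two flips, nothing moves -/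
lemma rf_mk {sol : L × L → Prop} {real : Lt L → List (L × L) → Prop}
    (hs : ∀ p, sol p → sol p.swap)
    {A B : List (Lt L)} {GA GB S : List (L × L)} {t a u l b : L} {y : List (Lt L)}
    (hA : Rz sol real A GA) (hB : Rz sol real B GB) (hS : ∀ p ∈ S, sol p)
    (hab : sol (a, b)) (hy : Rz sol real y [(u, t)]) :
    ∃ G', RF 2 (t, GA ++ ((a, u) :: (S ++ [(l, b)])) ++ GB) (l, G') ∧
      Rz sol real (y ++ (A ++ B)) G' := by
  refine ⟨rsG S ++ [(u, t)] ++ (GA ++ [(a, b)] ++ GB), ?_, ?_⟩
  · have h1 := RF.step (RF.refl (t, GA ++ (a, u) :: (S ++ [(l, b)] ++ GB)))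
    have h2 : (a, rsG GA ++ (t, u) :: (S ++ [(l, b)] ++ GB)) =
        (a, (rsG GA ++ (t, u) :: S) ++ (l, b) :: GB) := by
      simp
    rw [h2] at h1
    have h3 := RF.step h1
    have h4 : rsG (rsG GA ++ (t, u) :: S) ++ (a, b) :: GB =
        rsG S ++ [(u, t)] ++ (GA ++ [(a, b)] ++ GB) := by
      rw [rsG_append, rsG_cons, rsG_rsG]
      simp
    rw [h4] at h3
    simpa using h3
  · have h1 : Rz sol real [] (rsG S) := by
      refine Rz.solid fun p hp => ?_
      rw [mem_rsG] at hp
      have := hs _ (hS _ hp)
      rwa [Prod.swap_swap] at this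
    have h2 : Rz sol real [] [(a, b)] := Rz.sol hab Rz.nil
    have h3 := (h1.append hy).append ((hA.append h2).append hB)
    simpa using h3

/-! ### runs on standard letters -/

/-- a run on standard letters: at most two flips for every step; for gaps only one flip -/
theorem Run.rf_std {τ : L → L} (hτ : Function.Involutive τ) {W : Lt L → Bool} {n g k : ℕ}
    {s s' : St L} (h : Run τ W n g k s s') (hm : Mk τ s) {G : List (L × L)}
    (hG : Rz (fun p => τ p.1 = p.2) (real0 fun p => τ p.1 = p.2) s.2 G) :
    ∃ k' G', k' ≤ 2 * n ∧ RF k' (s.1, G) (s'.1, G') ∧ Mk τ s' ∧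
      Rz (fun p => τ p.1 = p.2) (real0 fun p => τ p.1 = p.2) s'.2 G' := by
  set sol : L × L → Prop := fun p => τ p.1 = p.2 with hsol
  have hs : ∀ p, sol p → sol p.swap := by
    intro p hp
    show τ p.2 = p.1
    rw [← show τ p.1 = p.2 from hp, hτ]
  have hr : ∀ x r, real0 sol x r → real0 sol (Lt.sw x) (rsG r) := fun x r h => h.sw hs
  have mk_rs : ∀ (t : L) (A : List (Lt L)), Mk τ (t, A) → ∀ a u l b, Lt.mk a u l b ∈ BP2.rs A →
      τ a = b := by
    intro t A hA a u l b hx
    rw [mem_rs] at hx
    have := hA b l u a hx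
    rw [← this, hτ]
  have hsub : ∀ (t t' : L) (A B : List (Lt L)), Mk τ (t, B) → (∀ x ∈ A, x ∈ B) →
      Mk τ (t', A) := fun t t' A B hB hAB a u l b hx => hB a u l b (hAB _ hx)
  induction h with
  | refl s => exact ⟨0, G, by omega, RF.refl _, hm, hG⟩
  | @gapW n g k s t u l A B _ hne ih =>
    obtain ⟨k', G', hk, hf, hm', hz⟩ := ih hm hG
    obtain ⟨GA, r, GB, e, a1, a2, a3⟩ := hz.split_cons
    cases a2
    obtain ⟨f1, f2⟩ := rf_gap (u := u) hs hr a1 a3
      (Rz.single (sol := sol) (real0.gap (sol := sol) t l))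
    have f2' : Rz sol (real0 sol) (rs A ++ gap t l :: B) (rsG GA ++ [(t, l)] ++ GB) := by
      simpa using f2
    refine ⟨k' + 1, _, by omega, ?_, ?_, f2'⟩
    · rw [e] at hf
      exact hf.trans f1
    · intro a u' l' b hx
      simp only [List.mem_append, List.mem_cons] at hx
      rcases hx with hx | hx | hx
      · exact mk_rs t A (hsub t t A _ hm' (by simp +contextual)) _ _ _ _ hx
      · cases hx
      · exact hm' a u' l' b (by simp [hx])
  | @gapG n g k s t u l A B _ he ih =>
    obtain ⟨k', G', hk, hf, hm', hz⟩ := ih hm hG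
    obtain ⟨GA, r, GB, e, a1, a2, a3⟩ := hz.split_cons
    cases a2
    obtain ⟨f1, f2⟩ := rf_gap (u := u) (y := []) hs hr a1 a3
      (Rz.sol (show sol (t, l) from he) Rz.nil)
    have f2' : Rz sol (real0 sol) (rs A ++ B) (rsG GA ++ [(t, l)] ++ GB) := by
      simpa using f2
    refine ⟨k' + 1, _, by omega, ?_, ?_, f2'⟩
    · rw [e] at hf
      exact hf.trans f1
    · intro a u' l' b hx
      simp only [List.mem_append] at hx
      rcases hx with hx | hx
      · exact mk_rs t A (hsub t t A _ hm' (by simp +contextual)) _ _ _ _ hx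
      · exact hm' a u' l' b (by simp [hx])
  | @mkW n g k s t a u l b A B _ hne ih =>
    obtain ⟨k', G', hk, hf, hm', hz⟩ := ih hm hG
    obtain ⟨GA, r, GB, e, a1, a2, a3⟩ := hz.split_cons
    cases a2
    next S hS =>
    obtain ⟨G'', f1, f2⟩ := rf_mk (t := t) (u := u) (l := l) hs a1 a3 hS
      (show sol (a, b) from hm' a u l b (by simp))
      (Rz.single (sol := sol) (real0.gap (sol := sol) u t))
    refine ⟨k' + 2, G'', by omega, ?_, ?_, by simpa using f2⟩
    · rw [e] at hf
      exact hf.trans f1
    · intro a' u' l' b' hx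
      simp only [List.mem_append, List.mem_cons] at hx
      rcases hx with hx | hx | hx
      · cases hx
      · exact hm' a' u' l' b' (by simp [hx])
      · exact hm' a' u' l' b' (by simp [hx])
  | @mkG n g k s t a u l b A B _ he ih =>
    obtain ⟨k', G', hk, hf, hm', hz⟩ := ih hm hG
    obtain ⟨GA, r, GB, e, a1, a2, a3⟩ := hz.split_cons
    cases a2
    next S hS =>
    obtain ⟨G'', f1, f2⟩ := rf_mk (t := t) (u := u) (l := l) (y := []) hs a1 a3 hS
      (show sol (a, b) from hm' a u l b (by simp))
      (Rz.sol (show sol (u, t) by show τ u = t; rw [← he, hτ]) Rz.nil)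
    refine ⟨k' + 2, G'', by omega, ?_, ?_, by simpa using f2⟩
    · rw [e] at hf
      exact hf.trans f1
    · intro a' u' l' b' hx
      simp only [List.mem_append] at hx
      rcases hx with hx | hx
      · exact hm' a' u' l' b' (by simp [hx])
      · exact hm' a' u' l' b' (by simp [hx])
  | @dis n g k s t a u l b A B _ ih =>
    obtain ⟨k', G', hk, hf, hm', hz⟩ := ih hm hG
    obtain ⟨GA, r, GB, e, a1, a2, a3⟩ := hz.split_cons
    cases a2
    next S hS =>
    refine ⟨k', G', by omega, hf, ?_, ?_⟩
    · intro a' u' l' b' hx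
      simp only [List.mem_append, List.mem_cons] at hx
      rcases hx with hx | hx | hx | hx
      · exact hm' a' u' l' b' (by simp [hx])
      · cases hx
      · cases hx
      · exact hm' a' u' l' b' (by simp [hx])
    · rw [e]
      have h1 := (Rz.single (sol := sol) (real0.gap (sol := sol) a u)).append
        ((Rz.solid (real := real0 sol) hS).append
          (Rz.single (sol := sol) (real0.gap (sol := sol) l b)))
      have := (a1.append h1).append a3
      simpa using this

/-- a run on gaps only: one flip for every step -/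
theorem Run.rf_gap {τ : L → L} (hτ : Function.Involutive τ) {W : Lt L → Bool} {n g k : ℕ}
    {s s' : St L} (h : Run τ W n g k s s') (hm : ∀ x ∈ s.2, x.isMk = false)
    {G : List (L × L)}
    (hG : Rz (fun p => τ p.1 = p.2) (real0 fun p => τ p.1 = p.2) s.2 G) :
    ∃ G', RF n (s.1, G) (s'.1, G') ∧ (∀ x ∈ s'.2, x.isMk = false) ∧
      Rz (fun p => τ p.1 = p.2) (real0 fun p => τ p.1 = p.2) s'.2 G' := by
  set sol : L × L → Prop := fun p => τ p.1 = p.2 with hsol
  have hs : ∀ p, sol p → sol p.swap := by
    intro p hp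
    show τ p.2 = p.1
    rw [← show τ p.1 = p.2 from hp, hτ]
  have hr : ∀ x r, real0 sol x r → real0 sol (Lt.sw x) (rsG r) := fun x r h => h.sw hs
  induction h with
  | refl s => exact ⟨G, RF.refl _, hm, hG⟩
  | @gapW n g k s t u l A B _ hne ih =>
    obtain ⟨G', hf, hm', hz⟩ := ih hm hG
    obtain ⟨GA, r, GB, e, a1, a2, a3⟩ := hz.split_cons
    cases a2
    obtain ⟨f1, f2⟩ := BP2.rf_gap (u := u) hs hr a1 a3
      (Rz.single (sol := sol) (real0.gap (sol := sol) t l))
    have f2' : Rz sol (real0 sol) (rs A ++ gap t l :: B) (rsG GA ++ [(t, l)] ++ GB) := by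
      simpa using f2
    refine ⟨_, ?_, ?_, f2'⟩
    · rw [e] at hf
      exact hf.trans f1
    · intro x hx
      simp only [List.mem_append, List.mem_cons, mem_rs] at hx
      rcases hx with hx | rfl | hx
      · rw [← isMk_sw]
        exact hm' _ (by simp [hx])
      · rfl
      · exact hm' _ (by simp [hx])
  | @gapG n g k s t u l A B _ he ih =>
    obtain ⟨G', hf, hm', hz⟩ := ih hm hG
    obtain ⟨GA, r, GB, e, a1, a2, a3⟩ := hz.split_cons
    cases a2
    obtain ⟨f1, f2⟩ := BP2.rf_gap (u := u) (y := []) hs hr a1 a3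
      (Rz.sol (show sol (t, l) from he) Rz.nil)
    have f2' : Rz sol (real0 sol) (rs A ++ B) (rsG GA ++ [(t, l)] ++ GB) := by
      simpa using f2
    refine ⟨_, ?_, ?_, f2'⟩
    · rw [e] at hf
      exact hf.trans f1
    · intro x hx
      simp only [List.mem_append, mem_rs] at hx
      rcases hx with hx | hx
      · rw [← isMk_sw]
        exact hm' _ (by simp [hx])
      · exact hm' _ (by simp [hx])
  | @mkW n g k s t a u l b A B _ hne ih =>
    obtain ⟨G', _, hm', _⟩ := ih hm hG
    have := hm' (Lt.mk a u l b) (by simp)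
    cases this
  | @mkG n g k s t a u l b A B _ he ih =>
    obtain ⟨G', _, hm', _⟩ := ih hm hG
    have := hm' (Lt.mk a u l b) (by simp)
    cases this
  | @dis n g k s t a u l b A B _ ih =>
    obtain ⟨G', _, hm', _⟩ := ih hm hG
    have := hm' (Lt.mk a u l b) (by simp)
    cases this

/-! ### transport of runs -/

/-- the letter with other labels -/
def Lt.map (f : α → L) : Lt α → Lt L
  | gap u l => gap (f u) (f l)
  | mk a u l b => mk (f a) (f u) (f l) (f b)

lemma Lt.map_sw (f : α → L) (x : Lt α) : Lt.map f (sw x) = sw (Lt.map f x) := by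
  cases x <;> rfl

lemma rs_map (f : α → L) (A : List (Lt α)) : rs (A.map (Lt.map f)) = (rs A).map (Lt.map f) := by
  simp only [rs, List.map_reverse, List.map_map]
  congr 1
  exact List.map_congr_left fun x _ => (Lt.map_sw f x).symm

/-- the state with other labels -/
def stMap (f : α → L) (s : St α) : St L := (f s.1, s.2.map (Lt.map f))

theorem Run.map {f : α → L} (hf : Function.Injective f) {τ : α → α} {τ' : L → L}
    (hτ : ∀ x, τ' (f x) = f (τ x)) {W : Lt α → Bool} {W' : Lt L → Bool}
    (hW : ∀ x, W' (Lt.map f x) = W x) {n g k : ℕ} {s s' : St α} (h : Run τ W n g k s s') :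
    Run τ' W' n g k (stMap f s) (stMap f s') := by
  induction h with
  | refl s => exact Run.refl _
  | @gapW n g k s t u l A B _ hne ih =>
    have ih' : Run τ' W' n g k (stMap f s)
        (f t, A.map (Lt.map f) ++ gap (f u) (f l) :: B.map (Lt.map f)) := by
      simpa [stMap, Lt.map] using ih
    have := Run.gapW ih' (by rw [hτ]; exact fun h => hne (hf h))
    have e : W' (gap (f u) (f l)) = W (gap u l) := hW (gap u l)
    rw [e, rs_map] at this
    simpa [stMap, Lt.map] using this
  | @gapG n g k s t u l A B _ he ih =>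
    have ih' : Run τ' W' n g k (stMap f s)
        (f t, A.map (Lt.map f) ++ gap (f u) (f l) :: B.map (Lt.map f)) := by
      simpa [stMap, Lt.map] using ih
    have := Run.gapG ih' (by rw [hτ, he])
    have e : W' (gap (f u) (f l)) = W (gap u l) := hW (gap u l)
    rw [e, rs_map] at this
    simpa [stMap, Lt.map] using this
  | @mkW n g k s t a u l b A B _ hne ih =>
    have ih' : Run τ' W' n g k (stMap f s)
        (f t, A.map (Lt.map f) ++ mk (f a) (f u) (f l) (f b) :: B.map (Lt.map f)) := by
      simpa [stMap, Lt.map] using ih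
    have := Run.mkW ih' (by rw [hτ]; exact fun h => hne (hf h))
    have e : W' (mk (f a) (f u) (f l) (f b)) = W (mk a u l b) := hW (mk a u l b)
    rw [e] at this
    simpa [stMap, Lt.map] using this
  | @mkG n g k s t a u l b A B _ he ih =>
    have ih' : Run τ' W' n g k (stMap f s)
        (f t, A.map (Lt.map f) ++ mk (f a) (f u) (f l) (f b) :: B.map (Lt.map f)) := by
      simpa [stMap, Lt.map] using ih
    have := Run.mkG ih' (by rw [hτ, he])
    have e : W' (mk (f a) (f u) (f l) (f b)) = W (mk a u l b) := hW (mk a u l b)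
    rw [e] at this
    simpa [stMap, Lt.map] using this
  | @dis n g k s t a u l b A B _ ih =>
    have ih' : Run τ' W' n g k (stMap f s)
        (f t, A.map (Lt.map f) ++ mk (f a) (f u) (f l) (f b) :: B.map (Lt.map f)) := by
      simpa [stMap, Lt.map] using ih
    have := Run.dis ih'
    simpa [stMap, Lt.map] using this

end BP2
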