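import Pool.Agent.BP2.D.Defs

set_option autoImplicit false

/-!
# MP_475aca_co, part (M), M4: structured stacks, from the steps of (D) to real flips

A stack is the list of its labels from top to bottom (`x, E x` for every element; the floor is the
last label and is written twice, so that reversals of prefixes are all that happens).
`Z` is the target arrangement (an involution of the labels).

* `Bk E Z t u A`: `A` is a rigid block with top label `t` and bottom label `u`: a walk along `E`
  and `Z`;
* `Jn E Z W c a x b β`: what is between two blocks (`a` the bottom label of the upper one, `b` the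
  top label of the lower one): a letter `x` of the virtual state, and a real content `β`: a thin
  gap, a marker, a thick gap in right or wrong position;
* `Sg E Z W m t xs u A`: the segment `A` with top label `t`, bottom label `u`, letters `xs`, of which
  `m` have a content;
* `LR k w w'`: `k` reversals of prefixes.

`sim`: the steps of `Run` are `n + m + 2 k` real flips at most.
-/

namespace BP2

open Lt

variable {α : Type*}

/-- `k` reversals of prefixes lead from `w` to `w'` -/
inductive LR : ℕ → List α → List α → Prop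
  | refl (w : List α) : LR 0 w w
  | step {k : ℕ} {w A B : List α} : LR k w (A ++ B) → Even A.length → A ≠ [] → B ≠ [] →
      LR (k + 1) w (A.reverse ++ B)

lemma LR.trans {k k' : ℕ} {w w' w'' : List α} (h : LR k w w') (h' : LR k' w' w'') :
    LR (k + k') w w'' := by
  induction h' with
  | refl => exact h
  | step _ h1 h2 h3 ih => exact LR.step (ih h) h1 h2 h3

/-- rigid blocks -/
inductive Bk (E Z : α → α) : α → α → List α → Prop
  | el (x : α) : Bk E Z x (E x) [x, E x]
  | app {t u t' u' : α} {A B : List α} : Bk E Z t u A → Z u = t' → Bk E Z t' u' B →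
      Bk E Z t u' (A ++ B)

/-- what is between two blocks -/
inductive Jn (E Z : α → α) (W : Lt α → Bool) : ℕ → α → Lt α → α → List α → Prop
  | thin (a b : α) : Jn E Z W 0 a (gap a b) b []
  | mk {a u l b : α} {β : List α} : Bk E Z u l β → Z a = b → Jn E Z W 1 a (mk a u l b) b β
  | tr {p p' q q' : α} {β : List α} : Bk E Z p' q β → Z p = q → W (gap q' p') = true →
      Jn E Z W 1 p (gap p' q') q' β
  | tw {p p' q q' : α} {β : List α} : Bk E Z q p' β → Z p = q → W (gap q' p') = true →
      Jn E Z W 1 q' (gap q' p') p β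

/-- segments of a stack -/
inductive Sg (E Z : α → α) (W : Lt α → Bool) : ℕ → α → List (Lt α) → α → List α → Prop
  | blk {t u : α} {A : List α} : Bk E Z t u A → Sg E Z W 0 t [] u A
  | app {m m' : ℕ} {t u t' u' : α} {xs ys : List (Lt α)} {A B : List α} :
      Sg E Z W m t xs u A → Z u = t' → Sg E Z W m' t' ys u' B →
      Sg E Z W (m + m') t (xs ++ ys) u' (A ++ B)
  | jn {m c m' : ℕ} {t a b u : α} {x : Lt α} {xs ys : List (Lt α)} {A β B : List α} :
      Sg E Z W m t xs a A → Jn E Z W c a x b β → Sg E Z W m' b ys u B →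
      Sg E Z W (m + c + m') t (xs ++ x :: ys) u (A ++ (β ++ B))

section rev

variable {E Z : α → α} {W : Lt α → Bool}

lemma Bk.rev (hE : Function.Involutive E) (hZ : Function.Involutive Z) {t u : α} {A : List α}
    (h : Bk E Z t u A) : Bk E Z u t A.reverse := by
  induction h with
  | el x =>
    have := Bk.el (E := E) (Z := Z) (E x)
    rw [hE x] at this
    simpa using this
  | app _ hz _ ih1 ih2 =>
    rw [List.reverse_append]
    exact Bk.app ih2 (by rw [← hz, hZ]) ih1

lemma Jn.rev (hE : Function.Involutive E) (hZ : Function.Involutive Z) {c : ℕ} {a b : α} {x : Lt α}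
    {β : List α} (h : Jn E Z W c a x b β) : Jn E Z W c b (sw x) a β.reverse := by
  cases h with
  | thin a b => exact Jn.thin b a
  | mk hb hz => exact Jn.mk (hb.rev hE hZ) (by rw [← hz, hZ])
  | tr hb hz hw => exact Jn.tw (hb.rev hE hZ) hz hw
  | tw hb hz hw => exact Jn.tr (hb.rev hE hZ) hz hw

lemma Sg.rev (hE : Function.Involutive E) (hZ : Function.Involutive Z) {m : ℕ} {t u : α}
    {xs : List (Lt α)} {A : List α} (h : Sg E Z W m t xs u A) :
    Sg E Z W m u (rs xs) t A.reverse := by
  induction h with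
  | blk hb => exact Sg.blk (hb.rev hE hZ)
  | app _ hz _ ih1 ih2 =>
    rw [List.reverse_append, rs_append, Nat.add_comm]
    exact Sg.app ih2 (by rw [← hz, hZ]) ih1
  | @jn m c m' t a b u x xs ys A β B _ hj _ ih1 ih2 =>
    have e : m + c + m' = m' + c + m := by omega
    have e2 : rs (xs ++ x :: ys) = rs ys ++ sw x :: rs xs := by
      rw [show xs ++ x :: ys = xs ++ ([x] ++ ys) by simp, rs_append, rs_append, rs_single]
      simp
    rw [List.reverse_append, List.reverse_append, e, e2, List.append_assoc]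
    exact Sg.jn ih2 (hj.rev hE hZ) ih1

lemma Bk.len {t u : α} {A : List α} (h : Bk E Z t u A) : Even A.length ∧ A ≠ [] := by
  induction h with
  | el x => simp
  | app _ _ _ ih1 ih2 =>
    refine ⟨?_, fun h => ih1.2 (List.append_eq_nil_iff.1 h).1⟩
    rw [List.length_append]
    exact ih1.1.add ih2.1

lemma Jn.len {c : ℕ} {a b : α} {x : Lt α} {β : List α} (h : Jn E Z W c a x b β) :
    Even β.length := by
  cases h with
  | thin a b => simp
  | mk hb _ => exact hb.len.1
  | tr hb _ _ => exact hb.len.1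
  | tw hb _ _ => exact hb.len.1

lemma Sg.len {m : ℕ} {t u : α} {xs : List (Lt α)} {A : List α} (h : Sg E Z W m t xs u A) :
    Even A.length ∧ A ≠ [] := by
  induction h with
  | blk hb => exact hb.len
  | app _ _ _ ih1 ih2 =>
    refine ⟨?_, fun h => ih1.2 (List.append_eq_nil_iff.1 h).1⟩
    rw [List.length_append]
    exact ih1.1.add ih2.1
  | jn _ hj _ ih1 ih2 =>
    refine ⟨?_, fun h => ih1.2 (List.append_eq_nil_iff.1 h).1⟩
    rw [List.length_append, List.length_append]
    exact ih1.1.add (hj.len.add ih2.1)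

/-- a segment without letters is a block -/
lemma Sg.nil {m : ℕ} {t u : α} {xs : List (Lt α)} {A : List α} (h : Sg E Z W m t xs u A)
    (hx : xs = []) : Bk E Z t u A := by
  induction h with
  | blk hb => exact hb
  | app _ hz _ ih1 ih2 =>
    obtain ⟨h1, h2⟩ := List.append_eq_nil_iff.1 hx
    exact Bk.app (ih1 h1) hz (ih2 h2)
  | jn _ _ _ _ _ => simp at hx

/-- splitting a segment at a letter -/
lemma Sg.split {m : ℕ} {t u : α} {zs : List (Lt α)} {w : List α} (h : Sg E Z W m t zs u w) :
    ∀ (xs : List (Lt α)) (x : Lt α) (ys : List (Lt α)), zs = xs ++ x :: ys →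
      ∃ (m₁ c m₂ : ℕ) (a b : α) (A β B : List α), Sg E Z W m₁ t xs a A ∧ Jn E Z W c a x b β ∧
        Sg E Z W m₂ b ys u B ∧ w = A ++ (β ++ B) ∧ m = m₁ + c + m₂ := by
  induction h with
  | blk hb => intro xs x ys h; simp at h
  | @app m m' t v t' u' xs1 ys1 A1 B1 h1 hz h2 ih1 ih2 =>
    intro xs x ys h
    rcases List.append_eq_append_iff.1 h with ⟨as, ha, hb⟩ | ⟨bs, ha, hb⟩
    · obtain ⟨m₁, c, m₂, a, b, A, β, B, g1, g2, g3, g4, g5⟩ := ih2 as x ys hb
      refine ⟨m + m₁, c, m₂, a, b, A1 ++ A, β, B, ?_, g2, g3, ?_, by omega⟩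
      · rw [ha]
        exact Sg.app h1 hz g1
      · rw [g4, List.append_assoc]
    · cases bs with
      | nil =>
        simp only [List.append_nil] at ha
        simp only [List.nil_append] at hb
        obtain ⟨m₁, c, m₂, a, b, A, β, B, g1, g2, g3, g4, g5⟩ := ih2 [] x ys (by simp [hb])
        refine ⟨m + m₁, c, m₂, a, b, A1 ++ A, β, B, ?_, g2, g3, ?_, by omega⟩
        · rw [← ha]
          have := Sg.app h1 hz g1
          simpa using this
        · rw [g4, List.append_assoc]
      | cons y bs =>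
        simp only [List.cons_append, List.cons.injEq] at hb
        obtain ⟨rfl, rfl⟩ := hb
        obtain ⟨m₁, c, m₂, a, b, A, β, B, g1, g2, g3, g4, g5⟩ := ih1 xs x bs ha
        refine ⟨m₁, c, m₂ + m', a, b, A, β, B ++ B1, g1, g2, ?_, ?_, by omega⟩
        · exact Sg.app g3 hz h2
        · rw [g4]
          simp only [List.append_assoc]
  | @jn m c0 m' t a0 b0 u x1 xs1 ys1 A1 β1 B1 h1 hj h2 ih1 ih2 =>
    intro xs x ys h
    rcases List.append_eq_append_iff.1 h with ⟨as, ha, hb⟩ | ⟨bs, ha, hb⟩
    · cases as with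
      | nil =>
        simp only [List.append_nil] at ha
        simp only [List.nil_append, List.cons.injEq] at hb
        obtain ⟨rfl, rfl⟩ := hb
        subst ha
        exact ⟨m, c0, m', a0, b0, A1, β1, B1, h1, hj, h2, rfl, rfl⟩
      | cons y as =>
        simp only [List.cons_append, List.cons.injEq] at hb
        obtain ⟨rfl, hb⟩ := hb
        obtain ⟨m₁, c, m₂, a, b, A, β, B, g1, g2, g3, g4, g5⟩ := ih2 as x ys hb
        refine ⟨m + c0 + m₁, c, m₂, a, b, A1 ++ (β1 ++ A), β, B, ?_, g2, g3, ?_, by omega⟩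
        · rw [ha]
          exact Sg.jn h1 hj g1
        · rw [g4]
          simp only [List.append_assoc]
    · cases bs with
      | nil =>
        simp only [List.append_nil] at ha
        simp only [List.nil_append, List.cons.injEq] at hb
        obtain ⟨rfl, rfl⟩ := hb
        subst ha
        exact ⟨m, c0, m', a0, b0, A1, β1, B1, h1, hj, h2, rfl, rfl⟩
      | cons y bs =>
        simp only [List.cons_append, List.cons.injEq] at hb
        obtain ⟨rfl, rfl⟩ := hb
        obtain ⟨m₁, c, m₂, a, b, A, β, B, g1, g2, g3, g4, g5⟩ := ih1 xs x bs ha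
        refine ⟨m₁, c, m₂ + c0 + m', a, b, A, β, B ++ (β1 ++ B1), g1, g2, ?_, ?_, by omega⟩
        · exact Sg.jn g3 hj h2
        · rw [g4]
          simp only [List.append_assoc]

end rev

/-! ### the flips -/

section flips

variable {A β B : List α}

lemma LR.one (hA : Even A.length) (hA' : A ≠ []) (hB : B ≠ []) : LR 1 (A ++ B) (A.reverse ++ B) :=
  LR.step (LR.refl _) hA hA' hB

/-- the block `β` below `A` goes to the top, `A` is turned over: right passage -/
lemma LR.right (hA : Even A.length) (hA' : A ≠ []) (hβ : Even β.length) (hβ' : β ≠ [])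
    (hB : B ≠ []) : LR 2 (A ++ (β ++ B)) (β ++ (A.reverse ++ B)) := by
  have h1 : LR 1 ((A ++ β) ++ B) ((A ++ β).reverse ++ B) :=
    LR.one (by rw [List.length_append]; exact hA.add hβ) (by simp [hA']) hB
  have h2 : LR 1 (β.reverse ++ (A.reverse ++ B)) (β.reverse.reverse ++ (A.reverse ++ B)) :=
    LR.one (by rwa [List.length_reverse]) (by simpa using hβ') (by simp [hB])
  rw [List.reverse_append, List.append_assoc, List.append_assoc] at h1
  rw [List.reverse_reverse] at h2
  exact h1.trans h2

/-- `A` is not turned over, `β` goes to the top, turned over: visit of a marker -/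
lemma LR.mark (hA : Even A.length) (hA' : A ≠ []) (hβ : Even β.length) (hβ' : β ≠ [])
    (hB : B ≠ []) : LR 2 (A ++ (β ++ B)) (β.reverse ++ (A ++ B)) := by
  have h1 : LR 1 (A ++ (β ++ B)) (A.reverse ++ (β ++ B)) := LR.one hA hA' (by simp [hB])
  have h2 : LR 1 ((A.reverse ++ β) ++ B) ((A.reverse ++ β).reverse ++ B) :=
    LR.one (by rw [List.length_append, List.length_reverse]; exact hA.add hβ) (by simp [hβ']) hB
  rw [List.reverse_append, List.reverse_reverse, List.append_assoc, List.append_assoc] at h2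
  exact h1.trans h2

/-- `A` and `β` are turned over in place: wrong passage -/
lemma LR.wrong (hA : Even A.length) (hA' : A ≠ []) (hβ : Even β.length) (hβ' : β ≠ [])
    (hB : B ≠ []) : LR 4 (A ++ (β ++ B)) (A.reverse ++ (β.reverse ++ B)) := by
  have h1 := LR.mark hA hA' hβ hβ' hB
  have h2 : LR 2 (β.reverse ++ (A ++ B)) (A.reverse ++ (β.reverse ++ B)) :=
    LR.mark (by rwa [List.length_reverse]) (by simpa using hβ') hA hA' hB
  exact h1.trans h2

end flips

variable {E Z : α → α} {W : Lt α → Bool}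

/-- The steps of `Run` as real flips. -/
theorem sim (hE : Function.Involutive E) (hZ : Function.Involutive Z) {f : α} {n g k : ℕ}
    {s s' : St α} (h : Run Z W n g k s s') : ∀ {m : ℕ} {w : List α}, Sg E Z W m s.1 s.2 f w →
    ∃ (c m' : ℕ) (w' : List α), LR c w w' ∧ Sg E Z W m' s'.1 s'.2 f w' ∧
      c + m' ≤ n + m + 2 * k := by
  induction h with
  | refl s =>
    intro m w hs
    exact ⟨0, m, w, LR.refl _, hs, by omega⟩
  | @gapW n g k s t u l A B _ hne ih =>
    intro m w hs
    obtain ⟨c, m', w', h1, h2, h3⟩ := ih hs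
    obtain ⟨m₁, c1, m₂, a, b, A1, β, B1, g1, g2, g3, rfl, rfl⟩ := h2.split A (gap u l) B rfl
    cases g2 with
    | thin a b =>
      refine ⟨c + 1, m₁ + 0 + m₂, A1.reverse ++ ([] ++ B1), h1.trans ?_, ?_, by omega⟩
      · exact LR.one g1.len.1 g1.len.2 (by simpa using g3.len.2)
      · exact Sg.jn (g1.rev hE hZ) (Jn.thin _ _) g3
    | @tr p p' q q' β hb hz hw =>
      refine ⟨c + 2, m₁ + 0 + m₂, β ++ (A1.reverse ++ B1), h1.trans ?_, ?_, by omega⟩
      · exact LR.right g1.len.1 g1.len.2 hb.len.1 hb.len.2 g3.len.2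
      · have h4 := Sg.app (Sg.blk (W := W) hb) (by rw [← hz, hZ]) (g1.rev hE hZ)
        have h5 := Sg.jn h4 (Jn.thin _ _) g3
        simpa using h5
    | @tw p p' q q' β hb hz hw =>
      refine ⟨c + 4, m₁ + 0 + m₂, A1.reverse ++ (β.reverse ++ B1), h1.trans ?_, ?_, ?_⟩
      · exact LR.wrong g1.len.1 g1.len.2 hb.len.1 hb.len.2 g3.len.2
      · have h4 := Sg.app (Sg.blk (W := W) (hb.rev hE hZ)) (by rw [← hz, hZ]) g3
        have h5 := Sg.jn (g1.rev hE hZ) (Jn.thin _ _) h4
        simpa using h5
      · rw [hw]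
        simp only [Bool.toNat_true]
        omega
  | @gapG n g k s t u l A B _ he ih =>
    intro m w hs
    obtain ⟨c, m', w', h1, h2, h3⟩ := ih hs
    obtain ⟨m₁, c1, m₂, a, b, A1, β, B1, g1, g2, g3, rfl, rfl⟩ := h2.split A (gap u l) B rfl
    cases g2 with
    | thin a b =>
      refine ⟨c + 1, m₁ + m₂, A1.reverse ++ B1, h1.trans ?_, ?_, by omega⟩
      · simpa using LR.one g1.len.1 g1.len.2 g3.len.2
      · exact Sg.app (g1.rev hE hZ) he g3
    | @tr p p' q q' β hb hz hw =>
      refine ⟨c + 2, m₁ + m₂, β ++ (A1.reverse ++ B1), h1.trans ?_, ?_, by omega⟩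
      · exact LR.right g1.len.1 g1.len.2 hb.len.1 hb.len.2 g3.len.2
      · have h4 := Sg.app (Sg.blk (W := W) hb) (by rw [← hz, hZ]) (g1.rev hE hZ)
        have h5 := Sg.app h4 he g3
        simpa using h5
    | @tw p p' q q' β hb hz hw =>
      refine ⟨c + 4, m₁ + m₂, A1.reverse ++ (β.reverse ++ B1), h1.trans ?_, ?_, ?_⟩
      · exact LR.wrong g1.len.1 g1.len.2 hb.len.1 hb.len.2 g3.len.2
      · have h4 := Sg.app (Sg.blk (W := W) (hb.rev hE hZ)) (by rw [← hz, hZ]) g3
        have h5 := Sg.app (g1.rev hE hZ) he h4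
        simpa using h5
      · rw [hw]
        simp only [Bool.toNat_true]
        omega
  | @mkW n g k s t a u l b A B _ hne ih =>
    intro m w hs
    obtain ⟨c, m', w', h1, h2, h3⟩ := ih hs
    obtain ⟨m₁, c1, m₂, a', b', A1, β, B1, g1, g2, g3, rfl, rfl⟩ := h2.split A (mk a u l b) B rfl
    cases g2 with
    | mk hb hz =>
      refine ⟨c + 2, m₁ + m₂, β.reverse ++ (A1 ++ B1), h1.trans ?_, ?_, by omega⟩
      · exact LR.mark g1.len.1 g1.len.2 hb.len.1 hb.len.2 g3.len.2
      · have h4 := Sg.app g1 hz g3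
        have h5 := Sg.jn (Sg.blk (W := W) (hb.rev hE hZ)) (Jn.thin _ _) h4
        simpa using h5
  | @mkG n g k s t a u l b A B _ he ih =>
    intro m w hs
    obtain ⟨c, m', w', h1, h2, h3⟩ := ih hs
    obtain ⟨m₁, c1, m₂, a', b', A1, β, B1, g1, g2, g3, rfl, rfl⟩ := h2.split A (mk a u l b) B rfl
    cases g2 with
    | mk hb hz =>
      refine ⟨c + 2, m₁ + m₂, β.reverse ++ (A1 ++ B1), h1.trans ?_, ?_, by omega⟩
      · exact LR.mark g1.len.1 g1.len.2 hb.len.1 hb.len.2 g3.len.2
      · have h4 := Sg.app g1 hz g3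
        have h5 := Sg.app (Sg.blk (W := W) (hb.rev hE hZ)) (by rw [← he, hZ]) h4
        simpa using h5
  | @dis n g k s t a u l b A B _ ih =>
    intro m w hs
    obtain ⟨c, m', w', h1, h2, h3⟩ := ih hs
    obtain ⟨m₁, c1, m₂, a', b', A1, β, B1, g1, g2, g3, rfl, rfl⟩ := h2.split A (mk a u l b) B rfl
    cases g2 with
    | mk hb hz =>
      refine ⟨c, m₁ + m₂, A1 ++ (β ++ B1), h1, ?_, by omega⟩
      have h4 := Sg.jn (Sg.blk (W := W) hb) (Jn.thin _ _) g3
      have h5 := Sg.jn g1 (Jn.thin _ _) h4
      simpa using h5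

end BP2
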