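import Pool.Agent.BP2.M5.Defs
import Pool.Agent.BP2.M.List

set_option autoImplicit false

/-!
# TrivHyp2 : `k ≤ 2 * chg X Y` flips lead from `X` to `Y`

A gap of `X` = an adjacency of `X` which is not one of `Y`; `2 * #gaps ≤ chg X Y`. At most four flips
decrease the number of the gaps. Top `t`, `q = Y t`: if `q ≠ t` is a lower label, one flip; if `q` is
an upper label of `(q, r)` there is a gap `(u, l)` above it (otherwise a circle of `Y`), and the
flips at `(u, l)`, `(q, r)`, `(l, t)` form `(q, t)`, `(u, r)`; if `Y t = t`, one flip at a gap first.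
-/

namespace BP2

variable {L : Type*}

open Classical in
/-- the number of the gaps -/
noncomputable def gpc (Y : L → L) (G : List (L × L)) : ℕ := G.countP fun p => decide (Y p.1 ≠ p.2)

lemma gpc_append (Y : L → L) (A B : List (L × L)) : gpc Y (A ++ B) = gpc Y A + gpc Y B := by
  simp only [gpc, List.countP_append]

lemma gpc_nil (Y : L → L) : gpc Y [] = 0 := rfl

lemma gpc_cons_of_ne {Y : L → L} {u l : L} (B : List (L × L)) (h : Y u ≠ l) :
    gpc Y ((u, l) :: B) = gpc Y B + 1 := by
  simp only [gpc]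
  rw [List.countP_cons_of_pos (by simpa using h)]

lemma gpc_cons_of_eq {Y : L → L} {u l : L} (B : List (L × L)) (h : Y u = l) :
    gpc Y ((u, l) :: B) = gpc Y B := by
  simp only [gpc]
  rw [List.countP_cons_of_neg (by simpa using h)]

lemma gpc_cons_le (Y : L → L) (p : L × L) (B : List (L × L)) :
    gpc Y (p :: B) ≤ gpc Y B + 1 := by
  obtain ⟨u, l⟩ := p
  by_cases h : Y u = l
  · rw [gpc_cons_of_eq B h]; omega
  · rw [gpc_cons_of_ne B h]

lemma gpc_rsG {Y : L → L} (hY : Function.Involutive Y) (A : List (L × L)) :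
    gpc Y (rsG A) = gpc Y A := by
  induction A with
  | nil => rfl
  | cons p A ih =>
    obtain ⟨u, l⟩ := p
    rw [rsG_cons, gpc_append, ih]
    by_cases h : Y u = l
    · have h' : Y l = u := by rw [← h, hY]
      rw [gpc_cons_of_eq A h, Prod.swap_prod_mk, gpc_cons_of_eq [] h', gpc_nil]
      rfl
    · have h' : Y l ≠ u := fun h' => h (by rw [← h', hY])
      rw [gpc_cons_of_ne A h, Prod.swap_prod_mk, gpc_cons_of_ne [] h', gpc_nil]

lemma gpc_pos_split {Y : L → L} {G : List (L × L)} (h : gpc Y G ≠ 0) :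
    ∃ A u l B, G = A ++ (u, l) :: B ∧ Y u ≠ l := by
  have : 0 < gpc Y G := Nat.pos_of_ne_zero h
  rw [gpc, List.countP_pos_iff] at this
  obtain ⟨⟨u, l⟩, hp, hp'⟩ := this
  obtain ⟨A, B, rfl⟩ := List.append_of_mem hp
  exact ⟨A, u, l, B, rfl, by simpa using hp'⟩

lemma two_gpc_le [Fintype L] {E X Y : L → L} (hY : Function.Involutive Y) {t : L}
    {G : List (L × L)} (h : RepL E X t G) : 2 * gpc Y G ≤ chg X Y := by
  classical
  have key : ∀ G' : List (L × L), (lbG G').Nodup → (∀ p ∈ G', X p.1 = p.2 ∧ X p.2 = p.1) →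
      2 * gpc Y G' ≤ ((lbG G').filter fun x => decide (X x ≠ Y x)).length := by
    intro G'
    induction G' with
    | nil => intro _ _; simp [gpc_nil]
    | cons p G' ih =>
      obtain ⟨u, l⟩ := p
      intro hn ha
      have hn' : (lbG G').Nodup := by
        rw [lbG_cons, List.nodup_cons, List.nodup_cons] at hn
        exact hn.2.2
      have ih' := ih hn' fun p hp => ha p (List.mem_cons_of_mem _ hp)
      obtain ⟨a1, a2⟩ := ha (u, l) (by simp)
      simp only at a1 a2
      by_cases hh : Y u = l
      · rw [gpc_cons_of_eq G' hh]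
        refine ih'.trans ?_
        rw [lbG_cons]
        exact List.Sublist.length_le (List.Sublist.filter _
          ((List.sublist_cons_self _ _).trans (List.sublist_cons_self _ _)))
      · have h1 : X u ≠ Y u := by rw [a1]; exact fun h => hh h.symm
        have h2 : X l ≠ Y l := by
          rw [a2]
          intro h
          exact hh (by rw [h, hY])
        rw [gpc_cons_of_ne G' hh, lbG_cons]
        rw [List.filter_cons_of_pos (by simpa using h1), List.filter_cons_of_pos (by simpa using h2)]
        simp only [List.length_cons]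
        omega
  have hn := (List.nodup_cons.1 h.nodup).2
  refine (key G hn h.adj).trans ?_
  unfold chg
  rw [← List.toFinset_card_of_nodup (hn.filter _)]
  refine Finset.card_le_card ?_
  intro x hx
  simp only [List.mem_toFinset, List.mem_filter, decide_eq_true_eq] at hx
  simp only [Finset.mem_filter, Finset.mem_univ, true_and]
  exact hx.2

/-- no gaps: the arrangements are equal -/
lemma eq_of_gpc_zero {E X Y : L → L} (hY : Function.Involutive Y) {t : L} {G : List (L × L)}
    (h : RepL E X t G) (h0 : gpc Y G = 0) : X = Y := by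
  have hg : ∀ p ∈ G, Y p.1 = p.2 := by
    intro p hp
    by_contra hne
    obtain ⟨A, B, rfl⟩ := List.append_of_mem hp
    obtain ⟨u, l⟩ := p
    rw [gpc_append, gpc_cons_of_ne B hne] at h0
    omega
  have hx : ∀ x, x ≠ t → Y x = X x := by
    intro x hx
    rcases List.mem_cons.1 (h.all x) with rfl | hx'
    · exact absurd rfl hx
    · obtain ⟨p, hp, rfl | rfl⟩ := mem_lbG.1 hx'
      · rw [hg p hp, (h.adj p hp).1]
      · rw [← hg p hp, hY, hg p hp, (h.adj p hp).2]
  funext x
  by_cases hxt : x = t
  · subst hxt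
    by_contra hne
    have h1 : Y x ≠ x := fun h1 => hne (by rw [h1, h.top])
    have h2 := hx (Y x) h1
    rw [hY] at h2
    have h3 : X x = Y x := by rw [h2, h.involutive]; exact h2 ▸ rfl
    exact hne h3
  · exact (hx x hxt).symm

/-- top matched with a label of a gap -/
lemma step_match {E X Y : L → L} (hE : IsEl E) (hY : IsArr E Y) {t : L} {G : List (L × L)}
    (h : RepL E X t G) (ht : Y t ≠ t) :
    ∃ k ≤ 3, ∃ t' G' Z, RepL E Z t' G' ∧ Reach E k X Z ∧ gpc Y G' + 1 ≤ gpc Y G := by
  have hmem : Y t ∈ lbG G := by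
    rcases List.mem_cons.1 (h.all (Y t)) with h1 | h1
    · exact absurd h1 ht
    · exact h1
  obtain ⟨⟨q, r⟩, hp, hq⟩ := mem_lbG.1 hmem
  obtain ⟨A, B, rfl⟩ := List.append_of_mem hp
  have hn := h.nodup
  have htq : t ≠ q ∧ t ≠ r := by
    rw [List.nodup_cons] at hn
    refine ⟨?_, ?_⟩
    · rintro rfl
      exact hn.1 (mem_lbG.2 ⟨_, hp, Or.inl rfl⟩)
    · rintro rfl
      exact hn.1 (mem_lbG.2 ⟨_, hp, Or.inr rfl⟩)
  have hqr : q ≠ r := ne_of_mem_nodup (List.nodup_cons.1 hn).2 (q, r) hp
  rcases hq with hq | hq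
  · -- `Y t = q`, an upper label
    simp only at hq
    have hgap : Y q ≠ r := by
      rw [← hq, hY.invol]
      exact htq.2
    have hA : gpc Y A ≠ 0 := by
      intro h0
      have hg : ∀ p ∈ A, Y p.1 = p.2 := by
        intro p hp
        by_contra hne
        obtain ⟨A', B', rfl⟩ := List.append_of_mem hp
        obtain ⟨u, l⟩ := p
        rw [gpc_append, gpc_cons_of_ne B' hne] at h0
        omega
      obtain ⟨x, hx, hx'⟩ := h.seg
      rw [seg_append] at hx
      obtain ⟨y, hy1, hy2, hy3⟩ := hx
      simp only at hy2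
      have hlab : t :: lbG (A ++ (q, r) :: B) = (t :: lbG A) ++ q :: r :: lbG B := by
        simp [lbG_append]
      rw [hlab] at hn
      have hnA : (t :: lbG A).Nodup := (List.nodup_append.1 hn).1
      have hC : Cl E Y {z | z ∈ t :: lbG A ∨ z = q} := by
        rintro z (hz | rfl)
        · refine ⟨?_, ?_⟩
          · by_cases hzy : z = y
            · right
              show E z = q
              rw [hzy, hy2]
            · left
              exact (seg_mem hE.invol hy1 hnA z hz hzy).1
          · rcases List.mem_cons.1 hz with rfl | hz'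
            · right
              exact hq
            · left
              obtain ⟨p, hp, rfl | rfl⟩ := mem_lbG.1 hz'
              · show Y p.1 ∈ _
                rw [hg p hp]
                exact List.mem_cons_of_mem _ (mem_lbG.2 ⟨p, hp, Or.inr rfl⟩)
              · show Y p.2 ∈ _
                rw [← hg p hp, hY.invol]
                exact List.mem_cons_of_mem _ (mem_lbG.2 ⟨p, hp, Or.inl rfl⟩)
        · refine ⟨?_, ?_⟩
          · left
            show E z ∈ _
            rw [← hy2, hE.invol]
            exact seg_last_mem hy1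
          · left
            show Y z ∈ _
            rw [← hq, hY.invol]
            exact List.mem_cons_self
      have hr := hY.conn t r _ hC (Or.inl List.mem_cons_self)
      rcases hr with hr | hr
      · exact (List.nodup_append.1 hn).2.2 r hr r (by simp) rfl
      · exact hqr hr.symm
    obtain ⟨A1, u, l, A2, rfl, hul⟩ := gpc_pos_split hA
    have hf : RF 3 (t, (A1 ++ (u, l) :: A2) ++ (q, r) :: B) (l, A2 ++ (q, t) :: (A1 ++ (u, r) :: B)) := by
      have f1 : RF 1 (t, (A1 ++ (u, l) :: A2) ++ (q, r) :: B)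
          (u, rsG A1 ++ (t, l) :: (A2 ++ (q, r) :: B)) := by
        have := RF.step (RF.refl (t, A1 ++ (u, l) :: (A2 ++ (q, r) :: B)))
        simpa using this
      have f2 : RF 2 (t, (A1 ++ (u, l) :: A2) ++ (q, r) :: B)
          (q, rsG (rsG A1 ++ (t, l) :: A2) ++ (u, r) :: B) := by
        refine RF.step (A := rsG A1 ++ (t, l) :: A2) ?_
        simpa using f1
      have f3 : RF 3 (t, (A1 ++ (u, l) :: A2) ++ (q, r) :: B)
          (l, rsG (rsG A2) ++ (q, t) :: (A1 ++ (u, r) :: B)) := by
        refine RF.step ?_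
        have e : rsG (rsG A1 ++ (t, l) :: A2) ++ (u, r) :: B =
            rsG A2 ++ (l, t) :: (A1 ++ (u, r) :: B) := by
          rw [rsG_append, rsG_cons, rsG_rsG]
          simp
        rw [← e]
        exact f2
      rw [rsG_rsG] at f3
      exact f3
    obtain ⟨Z, hZ, hr⟩ := h.reach hE.invol hf
    refine ⟨3, le_rfl, _, _, Z, hZ, hr, ?_⟩
    have hqt : Y q = t := by rw [← hq, hY.invol]
    rw [gpc_append, gpc_cons_of_eq _ hqt, gpc_append, gpc_append, gpc_append,
      gpc_cons_of_ne A2 hul, gpc_cons_of_ne B hgap]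
    have := gpc_cons_le Y (u, r) B
    omega
  · -- `Y t = r`, a lower label
    simp only at hq
    have hgap : Y q ≠ r := by
      intro h1
      have h2 : Y r = q := by rw [← h1, hY.invol]
      rw [← hq, hY.invol] at h2
      exact htq.1 h2
    have hf : RF 1 (t, A ++ (q, r) :: B) (q, rsG A ++ (t, r) :: B) := RF.step (RF.refl _)
    obtain ⟨Z, hZ, hr⟩ := h.reach hE.invol hf
    refine ⟨1, by omega, _, _, Z, hZ, hr, ?_⟩
    rw [gpc_append, gpc_rsG hY.invol, gpc_cons_of_eq _ hq, gpc_append, gpc_cons_of_ne _ hgap]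
    omega

/-- at most four flips decrease the number of the gaps -/
lemma step_gap {E X Y : L → L} (hE : IsEl E) (hY : IsArr E Y) {t : L} {G : List (L × L)}
    (h : RepL E X t G) (h0 : gpc Y G ≠ 0) :
    ∃ k ≤ 4, ∃ t' G' Z, RepL E Z t' G' ∧ Reach E k X Z ∧ gpc Y G' + 1 ≤ gpc Y G := by
  by_cases ht : Y t = t
  · obtain ⟨A, u, l, B, rfl, hul⟩ := gpc_pos_split h0
    have hf : RF 1 (t, A ++ (u, l) :: B) (u, rsG A ++ (t, l) :: B) := RF.step (RF.refl _)
    obtain ⟨Z, hZ, hr⟩ := h.reach hE.invol hf
    have hut : u ≠ t := by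
      rintro rfl
      exact (List.nodup_cons.1 h.nodup).1 (mem_lbG.2 ⟨_, List.mem_append_right _
        List.mem_cons_self, Or.inl rfl⟩)
    have hu : Y u ≠ u := by
      intro hu
      obtain ⟨t', _, ht'⟩ := hY.top
      exact hut ((ht' u hu).trans (ht' t ht).symm)
    obtain ⟨k, hk, t', G', Z', hZ', hr', hc⟩ := step_match hE hY hZ hu
    refine ⟨1 + k, by omega, t', G', Z', hZ', hr.trans hr', hc.trans ?_⟩
    rw [gpc_append, gpc_append, gpc_rsG hY.invol, gpc_cons_of_ne B hul]
    have := gpc_cons_le Y (t, l) B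
    omega
  · obtain ⟨k, hk, H⟩ := step_match hE hY h ht
    exact ⟨k, by omega, H⟩

lemma reach_gpc {E Y : L → L} (hE : IsEl E) (hY : IsArr E Y) (g : ℕ) :
    ∀ (X : L → L) (t : L) (G : List (L × L)), RepL E X t G → gpc Y G ≤ g →
      ∃ k ≤ 4 * gpc Y G, Reach E k X Y := by
  induction g with
  | zero =>
    intro X t G h h0
    have : X = Y := eq_of_gpc_zero hY.invol h (by omega)
    subst this
    exact ⟨0, by omega, Reach.refl X⟩
  | succ g ih =>
    intro X t G h hg
    by_cases h0 : gpc Y G = 0
    · have : X = Y := eq_of_gpc_zero hY.invol h h0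
      subst this
      exact ⟨0, by omega, Reach.refl X⟩
    · obtain ⟨k, hk, t', G', Z, hZ, hr, hc⟩ := step_gap hE hY h h0
      obtain ⟨k', hk', hr'⟩ := ih Z t' G' hZ (by omega)
      exact ⟨k + k', by omega, hr.trans hr'⟩

theorem trivHyp2 : TrivHyp2 := by
  intro L _ E X Y hE hX hY
  obtain ⟨t, G, hG⟩ := exists_repL hE hX
  obtain ⟨k, hk, hr⟩ := reach_gpc hE hY (gpc Y G) X t G hG le_rfl
  have := two_gpc_le (X := X) hY.invol hG
  exact ⟨k, by omega, hr⟩

end BP2
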